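import Pool.Agent.F2.SpecL2

/-!
# Project F2, row L3: selection of the placements of the boosters
-/

set_option autoImplicit false
set_option linter.unusedSectionVars false

namespace F2

open Finset NW F1

section BSel

variable {V : Type} [Fintype V] [DecidableEq V] {c : ℕ}

theorem bs_root {E : Finset (Sym2 V)} {r : Tri V} {h : Fin (c + 2) → V} (h1 : h ∈ Pl c E r) :
    rt c h = r.1 := by
  unfold Pl at h1
  exact (mem_filter.1 h1).2.2.1

theorem bs_uniq {E : Finset (Sym2 V)} {r r' : Tri V} {h : Fin (c + 2) → V}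
    (h1 : h ∈ Pl c E r) (h2 : h ∈ Pl c E r') : r = r' :=
  Subtype.ext ((bs_root h1).symm.trans (bs_root h2))

variable (E : Finset (Sym2 V)) (RT : Finset (Tri V))

/-- the pairs of a set of placements -/
def bsP (W : Finset (Fin (c + 2) → V)) : Finset ({r // r ∈ RT} × (Fin (c + 2) → V)) :=
  univ.filter (fun p => p.2 ∈ W ∧ p.2 ∈ Pl c E p.1.1)

/-- all members have a root -/
def bsF (W : Finset (Fin (c + 2) → V)) : Prop := ∀ h ∈ W, ∃ r ∈ RT, h ∈ Pl c E r

theorem mem_bsP {W : Finset (Fin (c + 2) → V)} {p : {r // r ∈ RT} × (Fin (c + 2) → V)} :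
    p ∈ bsP E RT W ↔ p.2 ∈ W ∧ p.2 ∈ Pl c E p.1.1 := by
  unfold bsP
  rw [mem_filter]
  exact ⟨fun h => h.2, fun h => ⟨mem_univ _, h⟩⟩

theorem bs_yP_of {r : Tri V} (hr : r ∈ RT) {h : Fin (c + 2) → V} (h1 : h ∈ Pl c E r) :
    yP c E RT h = 1 / ((Pl c E r).card : ℝ) := by
  unfold yP
  have h2 : RT.filter (fun r => h ∈ Pl c E r) = {r} := by
    ext r'
    rw [mem_filter, mem_singleton]
    constructor
    · rintro ⟨_, h3⟩
      exact bs_uniq h3 h1
    · rintro rfl
      exact ⟨hr, h1⟩
  rw [h2, sum_singleton]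

theorem bs_yP_zero {h : Fin (c + 2) → V} (h1 : ¬ ∃ r ∈ RT, h ∈ Pl c E r) :
    yP c E RT h = 0 := by
  unfold yP
  refine sum_eq_zero fun r hr => ?_
  rw [mem_filter] at hr
  exact absurd ⟨r, hr.1, hr.2⟩ h1

theorem bs_yP_nonneg (h : Fin (c + 2) → V) : 0 ≤ yP c E RT h := by
  unfold yP
  exact sum_nonneg fun r _ => by positivity

theorem bs_inj (W : Finset (Fin (c + 2) → V)) :
    Set.InjOn Prod.snd (bsP E RT W : Set ({r // r ∈ RT} × (Fin (c + 2) → V))) := by
  intro p hp q hq h1
  rw [mem_coe, mem_bsP] at hp hq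
  refine Prod.ext (Subtype.ext ?_) h1
  refine bs_uniq hp.2 ?_
  rw [h1]
  exact hq.2

theorem bs_card (W : Finset (Fin (c + 2) → V)) : (bsP E RT W).card ≤ W.card :=
  card_le_card_of_injOn Prod.snd (fun p hp => ((mem_bsP E RT).1 hp).1) (bs_inj E RT W)

theorem bs_image {W : Finset (Fin (c + 2) → V)} (hW : bsF E RT W) :
    (bsP E RT W).image Prod.snd = W := by
  ext h
  rw [mem_image]
  constructor
  · rintro ⟨p, hp, rfl⟩
    exact ((mem_bsP E RT).1 hp).1
  · intro h1
    obtain ⟨r, hr, h2⟩ := hW h h1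
    exact ⟨(⟨r, hr⟩, h), (mem_bsP E RT).2 ⟨h1, h2⟩, rfl⟩

/-- the weight of a pair -/
noncomputable def bsW (p : {r // r ∈ RT} × (Fin (c + 2) → V)) : ℝ :=
  if p.2 ∈ Pl c E p.1.1 then (1 : ℝ) / (Pl c E p.1.1).card else 0

theorem bs_prod {W : Finset (Fin (c + 2) → V)} (hW : bsF E RT W) :
    ∏ p ∈ bsP E RT W, bsW E RT p = ∏ h ∈ W, yP c E RT h := by
  conv_rhs => rw [← bs_image E RT hW]
  rw [prod_image fun p hp q hq h => bs_inj E RT W hp hq h]
  refine prod_congr rfl fun p hp => ?_
  have h1 := ((mem_bsP E RT).1 hp).2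
  unfold bsW
  rw [if_pos h1, bs_yP_of E RT p.1.2 h1]

theorem bs_prod_zero {W : Finset (Fin (c + 2) → V)} (hW : ¬ bsF E RT W) :
    ∏ h ∈ W, yP c E RT h = 0 := by
  unfold bsF at hW
  push Not at hW
  obtain ⟨h, h1, h2⟩ := hW
  refine prod_eq_zero h1 (bs_yP_zero E RT ?_)
  rintro ⟨r, hr, h3⟩
  exact h2 r hr h3

end BSel

open Classical in
theorem bselect (hsel : SelectStatement) : BSelectStatement := by
  intro L c V _ _ E RT 𝔅 I _ b U hL hP h𝔅 hU hb hloc hsum
  have key := hsel L {r // r ∈ RT} (Fin (c + 2) → V) (fun i => Pl c E i.1)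
    ((𝔅.filter (fun W => bsF E RT W)).image (bsP E RT))
    ((univ.filter (fun i : I => bsF E RT (U i))).image (fun i => bsP E RT (U i)))
    (fun U' => ∑ i ∈ (univ.filter (fun i : I => bsF E RT (U i))).filter
      (fun i => bsP E RT (U i) = U'), b i)
    hL (fun i => hP i.1 i.2) ?_ ?_ (fun U' => sum_nonneg fun i _ => hb i) ?_ ?_
  · obtain ⟨h, h1, h2, h3⟩ := key
    have hne : ∀ r : Tri V, r.1.Nonempty := fun r => card_pos.1 (by rw [r.2]; norm_num)
    set hh : Tri V → (Fin (c + 2) → V) := fun r =>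
      if hr : r ∈ RT then h ⟨r, hr⟩ else fun _ => (hne r).choose with hhdef
    have hhr : ∀ i : {r // r ∈ RT}, hh i.1 = h i := by
      intro i
      rw [hhdef]
      simp only [i.2, dif_pos]
    -- a chosen placement belongs to its root
    have him : ∀ p : {r // r ∈ RT} × (Fin (c + 2) → V), p.2 ∈ Pl c E p.1.1 →
        p.2 ∈ RT.image hh → h p.1 = p.2 := by
      intro p hp h4
      rw [mem_image] at h4
      obtain ⟨r, hr, h5⟩ := h4
      have h6 := hhr ⟨r, hr⟩
      have h7 : r = p.1.1 := by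
        refine bs_uniq (E := E) (h := p.2) ?_ hp
        rw [← h5]
        change hh r ∈ _
        rw [h6]
        exact h1 ⟨r, hr⟩
      have h8 : (⟨r, hr⟩ : {r // r ∈ RT}) = p.1 := Subtype.ext h7
      rw [← h8, ← h6]
      exact h5
    have hfull : ∀ W : Finset (Fin (c + 2) → V), (∀ h' ∈ W, h' ∈ RT.image hh) → bsF E RT W := by
      intro W hW h' h4
      obtain ⟨r, hr, h5⟩ := mem_image.1 (hW h' h4)
      refine ⟨r, hr, ?_⟩
      rw [← h5, hhr ⟨r, hr⟩]
      exact h1 ⟨r, hr⟩
    refine ⟨hh, ?_, ?_, ?_⟩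
    · intro r hr
      rw [hhr ⟨r, hr⟩]
      exact h1 ⟨r, hr⟩
    · intro W hW
      by_contra hcon
      push Not at hcon
      have h4 := hfull W hcon
      obtain ⟨p, hp, h5⟩ := h2 (bsP E RT W) (mem_image_of_mem _ (mem_filter.2 ⟨hW, h4⟩))
      rw [mem_bsP] at hp
      exact h5 (him p hp.2 (hcon _ hp.1))
    · refine lt_of_le_of_lt ?_ h3
      have e1 : ∀ i : I, ∏ h' ∈ U i, rz c RT hh h' =
          if ∀ h' ∈ U i, h' ∈ RT.image hh then 1 else 0 := by
        intro i
        split_ifs with h4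
        · refine prod_eq_one fun h' h5 => ?_
          unfold rz
          rw [if_pos (h4 h' h5)]
        · push Not at h4
          obtain ⟨h', h5, h6⟩ := h4
          refine prod_eq_zero h5 ?_
          unfold rz
          rw [if_neg h6]
      simp only [e1, mul_ite, mul_one, mul_zero]
      rw [← sum_filter]
      rw [sum_filter]
      have e2 : ∑ U' ∈ (univ.filter (fun i : I => bsF E RT (U i))).image
            (fun i => bsP E RT (U i)),
          (if ∀ p ∈ U', h p.1 = p.2 then
            ∑ i ∈ (univ.filter (fun i : I => bsF E RT (U i))).filter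
              (fun i => bsP E RT (U i) = U'), b i else 0) =
          ∑ i ∈ univ.filter (fun i : I => bsF E RT (U i)),
            (if ∀ p ∈ bsP E RT (U i), h p.1 = p.2 then b i else 0) := by
        rw [← sum_fiberwise_of_maps_to (s := univ.filter (fun i : I => bsF E RT (U i)))
          (t := (univ.filter (fun i : I => bsF E RT (U i))).image (fun i => bsP E RT (U i)))
          (g := fun i => bsP E RT (U i)) (fun i hi => mem_image_of_mem _ hi)]
        refine sum_congr rfl fun U' _ => ?_
        split_ifs with h4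
        · refine sum_congr rfl fun i hi => ?_
          rw [mem_filter] at hi
          rw [hi.2, if_pos h4]
        · symm
          refine sum_eq_zero fun i hi => ?_
          rw [mem_filter] at hi
          rw [hi.2, if_neg h4]
      rw [sum_filter, e2]
      rw [sum_filter]
      refine sum_le_sum fun i _ => ?_
      by_cases h4 : ∀ h' ∈ U i, h' ∈ RT.image hh
      · rw [if_pos h4, if_pos (hfull _ h4), if_pos]
        intro p hp
        rw [mem_bsP] at hp
        exact him p hp.2 (h4 _ hp.1)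
      · rw [if_neg h4]
        split_ifs
        · exact hb i
        · exact le_rfl
        · exact le_rfl
  · intro U' hU'
    rw [mem_image] at hU'
    obtain ⟨W, hW, rfl⟩ := hU'
    rw [mem_filter] at hW
    refine ⟨(bs_card E RT W).trans (h𝔅 W hW.1).1, ?_⟩
    rw [← image_nonempty (f := Prod.snd), bs_image E RT hW.2]
    exact (h𝔅 W hW.1).2
  · intro U' hU'
    rw [mem_image] at hU'
    obtain ⟨i, _, rfl⟩ := hU'
    exact (bs_card E RT (U i)).trans (hU i)
  · rintro ⟨r, hr⟩
    refine le_trans ?_ (hloc r hr)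
    have hinj : Set.InjOn (bsP E RT) ((𝔅.filter (fun W => bsF E RT W) :
        Finset (Finset (Fin (c + 2) → V))) : Set (Finset (Fin (c + 2) → V))) := by
      intro W hW W' hW' h4
      rw [mem_coe, mem_filter] at hW hW'
      rw [← bs_image E RT hW.2, ← bs_image E RT hW'.2, h4]
    rw [sum_filter, sum_image fun W hW W' hW' h4 => hinj hW hW' h4, sum_filter, sum_filter]
    refine sum_le_sum fun W hW => ?_
    by_cases h4 : bsF E RT W
    · rw [if_pos h4]
      have h5 := bs_prod E RT h4
      unfold bsW at h5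
      rw [h5]
      have h6 : 0 ≤ ∏ h ∈ W, yP c E RT h := prod_nonneg fun h _ => bs_yP_nonneg E RT h
      by_cases h7 : ∃ a, ((⟨r, hr⟩ : {r // r ∈ RT}), a) ∈ bsP E RT W
      · rw [if_pos h7, if_pos]
        obtain ⟨a, ha⟩ := h7
        rw [mem_bsP] at ha
        exact ⟨a, ha.1, bs_root ha.2⟩
      · rw [if_neg h7]
        split_ifs
        · exact h6
        · exact le_rfl
    · rw [if_neg h4]
      split_ifs
      · exact prod_nonneg fun h _ => bs_yP_nonneg E RT h
      · exact le_rfl
  · refine lt_of_le_of_lt ?_ hsum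
    have e2 : ∑ U' ∈ (univ.filter (fun i : I => bsF E RT (U i))).image
          (fun i => bsP E RT (U i)),
        (∑ i ∈ (univ.filter (fun i : I => bsF E RT (U i))).filter
            (fun i => bsP E RT (U i) = U'), b i) * ∏ p ∈ U', bsW E RT p =
        ∑ i ∈ univ.filter (fun i : I => bsF E RT (U i)),
          b i * ∏ p ∈ bsP E RT (U i), bsW E RT p := by
      rw [← sum_fiberwise_of_maps_to (s := univ.filter (fun i : I => bsF E RT (U i)))
        (t := (univ.filter (fun i : I => bsF E RT (U i))).image (fun i => bsP E RT (U i)))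
        (g := fun i => bsP E RT (U i)) (fun i hi => mem_image_of_mem _ hi)]
      refine sum_congr rfl fun U' _ => ?_
      rw [sum_mul]
      refine sum_congr rfl fun i hi => ?_
      rw [mem_filter] at hi
      rw [hi.2]
    unfold bsW at e2
    refine (le_of_eq e2).trans ?_
    rw [sum_filter]
    refine sum_le_sum fun i _ => ?_
    by_cases h4 : bsF E RT (U i)
    · rw [if_pos h4]
      have h5 := bs_prod E RT h4
      unfold bsW at h5
      rw [h5]
    · rw [if_neg h4]
      exact mul_nonneg (hb i) (prod_nonneg fun h _ => bs_yP_nonneg E RT h)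

end F2
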