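import Pool.Agent.F2.SpecL2

/-!
# Project F2, row L16: the forbidden sets of placements (`BadStatement`)
-/

set_option autoImplicit false
set_option linter.unusedSectionVars false

namespace F2

open Finset NW F1

namespace BadSum

variable {V : Type} [Fintype V] [DecidableEq V] {c J : ℕ}

theorem sum_le_inj {α β : Type*} [DecidableEq β] (S : Finset α) (T : Finset β) (f : α → ℝ)
    (g : β → ℝ) (φ : α → β) (h1 : ∀ a ∈ S, φ a ∈ T) (h2 : Set.InjOn φ S)
    (h3 : ∀ a ∈ S, f a ≤ g (φ a)) (h4 : ∀ b ∈ T, 0 ≤ g b) : ∑ a ∈ S, f a ≤ ∑ b ∈ T, g b := by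
  calc ∑ a ∈ S, f a ≤ ∑ a ∈ S, g (φ a) := sum_le_sum h3
    _ = ∑ b ∈ S.image φ, g b := (sum_image h2).symm
    _ ≤ ∑ b ∈ T, g b :=
      sum_le_sum_of_subset_of_nonneg (image_subset_iff.2 h1) (fun b hb _ => h4 b hb)

theorem sum_biU_le {α β : Type*} [DecidableEq α] [DecidableEq β] (S : Finset α)
    (t : α → Finset β) (f : β → ℝ) (hf : ∀ b, 0 ≤ f b) :
    ∑ b ∈ S.biUnion t, f b ≤ ∑ a ∈ S, ∑ b ∈ t a, f b := by
  induction S using Finset.induction_on with
  | empty => simp
  | insert a S ha ih =>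
    rw [biUnion_insert, sum_insert ha]
    have h1 := sum_union_inter (s₁ := t a) (s₂ := S.biUnion t) (f := f)
    have h2 : 0 ≤ ∑ b ∈ t a ∩ S.biUnion t, f b := sum_nonneg (fun b _ => hf b)
    linarith

/-- sets of the first kind through `h` -/
def K1 (V : Type) [Fintype V] [DecidableEq V] (c : ℕ) (h : Fin (c + 2) → V)
    (W : Finset (Fin (c + 2) → V)) : Prop :=
  ∃ h', rt c h ≠ rt c h' ∧ ¬ Disjoint (bE c h) (bE c h') ∧ W = {h, h'}

/-- sets of the second kind -/
def K2 (V : Type) [Fintype V] [DecidableEq V] (c J : ℕ)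
    (W : Finset (Fin (c + 2) → V)) : Prop :=
  2 ≤ W.card ∧ ∃ D ∈ (triSys V J).conf, IsLift D (W.image (Sum.inr : _ → Atom V c))

theorem bad_kinds {W : Finset (Fin (c + 2) → V)} {h : Fin (c + 2) → V} (hW : W ∈ bad V c J)
    (hh : h ∈ W) : K1 V c h W ∨ K2 V c J W := by
  classical
  unfold bad at hW
  rw [mem_filter] at hW
  rcases hW.2 with ⟨a, b, hab, hd, rfl⟩ | h2
  · rw [mem_insert, mem_singleton] at hh
    rcases hh with rfl | rfl
    · exact Or.inl ⟨b, hab, hd, rfl⟩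
    · exact Or.inl ⟨a, fun e => hab e.symm, fun e => hd e.symm, by rw [pair_comm]⟩
  · exact Or.inr h2

theorem bE_card (h : Fin (c + 2) → V) (hb : BoostFacts c h) : (bE c h).card ≤ 6 * c := by
  have h1 : (bE c h).card ≤ (OFF c h).card * 3 := by
    unfold bE
    refine card_biUnion_le_card_mul _ _ _ ?_
    intro T _
    rw [NW.card_edg_three T.2]
  have h2 := hb.card_OFF
  omega

theorem mem_bE {h : Fin (c + 2) → V} (hb : BoostFacts c h) {x y : V} (he : s(x, y) ∈ bE c h) :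
    x ∈ univ.image h ∧ y ∈ univ.image h ∧ x ≠ y := by
  unfold bE at he
  rw [mem_biUnion] at he
  obtain ⟨T, hT, he⟩ := he
  obtain ⟨h1, h2, h3⟩ := NW.mk_mem_edg.1 he
  exact ⟨hb.vOFF T hT h1, hb.vOFF T hT h2, h3⟩

theorem rt_card {h : Fin (c + 2) → V} (hc : 6 ≤ c) (hi : Function.Injective h) :
    (rt c h).card = 3 := by
  have v0 : ((0 : Fin (c + 2)) : ℕ) = 0 := rfl
  have v1 : ((1 : Fin (c + 2)) : ℕ) = 1 := by
    show 1 % (c + 2) = 1
    exact Nat.mod_eq_of_lt (by omega)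
  have v2 : ((2 : Fin (c + 2)) : ℕ) = 2 := by
    show 2 % (c + 2) = 2
    exact Nat.mod_eq_of_lt (by omega)
  unfold rt
  rw [card_eq_three]
  refine ⟨h 0, h 1, h 2, ?_, ?_, ?_, rfl⟩
  · intro e
    have := congrArg Fin.val (hi e)
    omega
  · intro e
    have := congrArg Fin.val (hi e)
    omega
  · intro e
    have := congrArg Fin.val (hi e)
    omega

section Main

variable {C s : ℕ} {B : ℝ} {E : Finset (Sym2 V)} {RT : Finset (Tri V)}
  {yb : (Fin (c + 2) → V) → ℝ}

theorem wb (hY : YBound c C s B E RT yb) : WBound B RT (yA c (fun _ => 0) yb) where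
  nonneg := by
    intro a
    rcases a with T | h
    · exact le_refl _
    · exact hY.nonneg h
  tri := by
    intro T
    have h1 := hY.hB
    show (0 : ℝ) ≤ B / Fintype.card V
    positivity
  boo := fun h => hY.boo h
  inj := fun h hh => hY.inj h hh
  root := fun h hh => hY.root h hh

/-- the sum over the placements with a given new edge -/
theorem edge_sum (hc : 6 ≤ c) (hev : Even c) (ht : TemplateStatement) {C₀ : ℝ}
    (hO : ∀ (V : Type) [Fintype V] [DecidableEq V] (RT : Finset (Tri V)) (s : ℕ) (B : ℝ)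
      (y : Atom V c → ℝ) (K : Finset V), 1 ≤ Fintype.card V → 1 ≤ s → 1 ≤ B → RBound C s RT →
      WBound B RT y → K.card ≤ 2 →
      ∑ a, y a * (Fintype.card V : ℝ) ^ (-ex a K) ≤ C₀ * B ∧
      ∑ h ∈ univ.filter (fun h : Fin (c + 2) → V => (rt c h ∩ K).card ≤ 1),
        y (Sum.inr h) * (Fintype.card V : ℝ) ^ (-ex (Sum.inr h : Atom V c) K) ≤ C₀ * B / s)
    (hY : YBound c C s B E RT yb) (e : Sym2 V) (heE : e ∈ E) :
    ∑ h ∈ univ.filter (fun h : Fin (c + 2) → V => e ∈ bE c h), yb h ≤ C₀ * B / s := by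
  classical
  have hW := wb hY
  induction e with
  | _ x y =>
  have h1 := (hO V RT s B (yA c (fun _ => 0) yb) {x, y} hY.hn hY.hs hY.hB hY.rb hW
      card_le_two).2
  refine le_trans ?_ h1
  rw [← sum_filter_add_sum_filter_not _ (fun h => yb h = 0)]
  rw [sum_eq_zero (s := filter (fun h => yb h = 0) _) (fun h hh => (mem_filter.1 hh).2), zero_add]
  have key : ∀ h ∈ filter (fun h => ¬ yb h = 0)
      (univ.filter (fun h : Fin (c + 2) → V => s(x, y) ∈ bE c h)),
      (rt c h ∩ {x, y}).card ≤ 1 ∧ ex (Sum.inr h : Atom V c) {x, y} = 0 := by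
    intro h hh
    rw [mem_filter, mem_filter] at hh
    obtain ⟨⟨_, he⟩, hne⟩ := hh
    have hi := hY.inj h hne
    have hb := ht c hc hev V h hi
    obtain ⟨hx, hy, hxy⟩ := mem_bE hb he
    have hle : (rt c h ∩ {x, y}).card ≤ 1 := by
      by_contra hcon
      push Not at hcon
      have h2 : ({x, y} : Finset V).card ≤ (rt c h ∩ {x, y}).card := by
        rw [card_pair hxy]
        omega
      have h3 : rt c h ∩ {x, y} = {x, y} := eq_of_subset_of_card_le inter_subset_right h2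
      have h4 : x ∈ rt c h ∩ {x, y} := by rw [h3]; simp
      have h5 : y ∈ rt c h ∩ {x, y} := by rw [h3]; simp
      have h6 : s(x, y) ∈ NW.edg (rt c h) :=
        NW.mk_mem_edg.2 ⟨(mem_inter.1 h4).1, (mem_inter.1 h5).1, hxy⟩
      exact (Finset.disjoint_left.1 (hY.rootE h hne)) h6 heE
    refine ⟨hle, ?_⟩
    have h7 : univ.image h ∩ {x, y} = {x, y} := by
      apply inter_eq_right.2
      intro z hz
      rw [mem_insert, mem_singleton] at hz
      rcases hz with rfl | rfl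
      · exact hx
      · exact hy
    have h8 : ¬ rt c h ⊆ {x, y} := by
      intro hs
      have := card_le_card (subset_inter (Subset.refl _) hs)
      rw [rt_card hc hi] at this
      omega
    show 2 - ((univ.image h ∩ {x, y}).card : ℤ) + (if rt c h ⊆ {x, y} then 1 else 0) = 0
    rw [h7, card_pair hxy, if_neg h8]
    norm_num
  have h9 : ∀ h ∈ filter (fun h => ¬ yb h = 0)
      (univ.filter (fun h : Fin (c + 2) → V => s(x, y) ∈ bE c h)),
      yb h = yA c (fun _ => 0) yb (Sum.inr h) *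
        (Fintype.card V : ℝ) ^ (-ex (Sum.inr h : Atom V c) {x, y}) := by
    intro h hh
    rw [(key h hh).2, neg_zero, zpow_zero, mul_one]
    rfl
  rw [sum_congr rfl h9]
  refine sum_le_sum_of_subset_of_nonneg ?_ ?_
  · intro h hh
    rw [mem_filter]
    exact ⟨mem_univ _, (key h hh).1⟩
  · intro h _ _
    exact mul_nonneg (hW.nonneg _) (by positivity)

/-- the sets of the first kind through `h` -/
theorem kind_one (hc : 6 ≤ c) (hev : Even c) (ht : TemplateStatement) {C₀ : ℝ}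
    (hO : ∀ (V : Type) [Fintype V] [DecidableEq V] (RT : Finset (Tri V)) (s : ℕ) (B : ℝ)
      (y : Atom V c → ℝ) (K : Finset V), 1 ≤ Fintype.card V → 1 ≤ s → 1 ≤ B → RBound C s RT →
      WBound B RT y → K.card ≤ 2 →
      ∑ a, y a * (Fintype.card V : ℝ) ^ (-ex a K) ≤ C₀ * B ∧
      ∑ h ∈ univ.filter (fun h : Fin (c + 2) → V => (rt c h ∩ K).card ≤ 1),
        y (Sum.inr h) * (Fintype.card V : ℝ) ^ (-ex (Sum.inr h : Atom V c) K) ≤ C₀ * B / s)
    (hC₀ : 1 ≤ C₀)
    (hY : YBound c C s B E RT yb) (h : Fin (c + 2) → V) (hne : yb h ≠ 0)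
    (S : Finset (Finset (Fin (c + 2) → V))) (hS : ∀ W ∈ S, K1 V c h W) :
    ∑ W ∈ S, ∏ h' ∈ W.erase h, yb h' ≤ (6 * c : ℕ) * (C₀ * B / s) := by
  classical
  have hb := ht c hc hev V h (hY.inj h hne)
  -- the second member
  have h1 : ∀ W ∈ S, ∃ h', rt c h ≠ rt c h' ∧ ¬ Disjoint (bE c h) (bE c h') ∧ W = {h, h'} :=
    fun W hW => hS W hW
  have : Nonempty (Fin (c + 2) → V) := ⟨h⟩
  choose! φ hφ using h1
  have h2 : ∑ W ∈ S, ∏ h' ∈ W.erase h, yb h' ≤
      ∑ h' ∈ univ.filter (fun h' => ¬ Disjoint (bE c h) (bE c h')), yb h' := by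
    refine sum_le_inj S _ _ _ φ ?_ ?_ ?_ ?_
    · intro W hW
      rw [mem_filter]
      exact ⟨mem_univ _, (hφ W hW).2.1⟩
    · intro W hW W' hW' hEq
      rw [(hφ W hW).2.2, (hφ W' hW').2.2, hEq]
    · intro W hW
      obtain ⟨h3, _, h5⟩ := hφ W hW
      have h6 : h ≠ φ W := fun e => h3 (by rw [← e])
      have h7 : W.erase h = {φ W} := by
        generalize φ W = u at h5 h6
        rw [h5]
        ext z
        simp only [mem_erase, mem_insert, mem_singleton]
        constructor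
        · rintro ⟨ha, hb | hb⟩
          · exact absurd hb ha
          · exact hb
        · intro hz
          exact ⟨by rw [hz]; exact fun e => h6 e.symm, Or.inr hz⟩
      rw [h7, prod_singleton]
    · intro h' _
      exact hY.nonneg h'
  refine le_trans h2 ?_
  have h3 : univ.filter (fun h' => ¬ Disjoint (bE c h) (bE c h')) ⊆
      (bE c h).biUnion (fun e => univ.filter (fun h' => e ∈ bE c h')) := by
    intro h' hh'
    rw [mem_filter] at hh'
    obtain ⟨e, he, he'⟩ := Finset.not_disjoint_iff.1 hh'.2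
    rw [mem_biUnion]
    exact ⟨e, he, mem_filter.2 ⟨mem_univ _, he'⟩⟩
  refine le_trans (sum_le_sum_of_subset_of_nonneg h3 (fun h' _ _ => hY.nonneg h')) ?_
  refine le_trans (sum_biU_le _ _ _ hY.nonneg) ?_
  have h4 : ∀ e ∈ bE c h, ∑ h' ∈ univ.filter (fun h' : Fin (c + 2) → V => e ∈ bE c h'), yb h' ≤
      C₀ * B / s := fun e he => edge_sum hc hev ht hO hY e (hY.new h hne he)
  refine le_trans (sum_le_card_nsmul _ _ _ h4) ?_
  rw [nsmul_eq_mul]
  have h5 : 0 ≤ C₀ * B / s := by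
    have h6 := hY.hB
    positivity
  exact mul_le_mul_of_nonneg_right (by exact_mod_cast bE_card h hb) h5

theorem lift_card {D : Finset (Tri V)} {U : Finset (Atom V c)} (hU : IsLift D U) :
    U.card ≤ D.card := by
  classical
  have h1 : ∀ a ∈ U, ∃ T, T ∈ fa a ∩ D := fun a ha => hU.used a ha
  rcases U.eq_empty_or_nonempty with rfl | ⟨a₀, ha₀⟩
  · rw [card_empty]
    exact Nat.zero_le _
  obtain ⟨T₀, _⟩ := h1 a₀ ha₀
  have : Nonempty (Tri V) := ⟨T₀⟩
  choose! φ hφ using h1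
  refine card_le_card_of_injOn φ (fun a ha => (mem_inter.1 (hφ a ha)).2) ?_
  intro a ha b hb hab
  have h2 := mem_inter.1 (hφ a ha)
  have h3 := mem_inter.1 (hφ b hb)
  exact hU.uniq _ h2.2 a ha b hb h2.1 (by rw [hab]; exact h3.1)

/-- removing one triple of a booster from a lift -/
theorem lift_erase {D : Finset (Tri V)} {W : Finset (Fin (c + 2) → V)} {h : Fin (c + 2) → V}
    (hW : IsLift D (W.image (Sum.inr : _ → Atom V c))) (hh : h ∈ W) {T : Tri V} (hT : T ∈ D)
    (hTh : T ∈ fa (Sum.inr h : Atom V c)) :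
    ∃ U : Finset (Atom V c), IsLift (D \ {T}) U ∧
      U \ {Sum.inr h} = (W.erase h).image (Sum.inr : _ → Atom V c) := by
  classical
  have hmem : (Sum.inr h : Atom V c) ∈ W.image (Sum.inr : _ → Atom V c) := mem_image_of_mem _ hh
  -- the other atoms are used by a triple different from `T`
  have hoth : ∀ a ∈ W.image (Sum.inr : _ → Atom V c), a ≠ Sum.inr h →
      (fa a ∩ (D \ {T})).Nonempty := by
    intro a ha hne
    obtain ⟨T', hT'⟩ := hW.used a ha
    rw [mem_inter] at hT'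
    refine ⟨T', mem_inter.2 ⟨hT'.1, mem_sdiff.2 ⟨hT'.2, ?_⟩⟩⟩
    intro e
    rw [mem_singleton] at e
    rw [e] at hT'
    exact hne (hW.uniq T hT a ha _ hmem hT'.1 hTh)
  have hcol : ∀ U ⊆ W.image (Sum.inr : _ → Atom V c), ∀ h' : Fin (c + 2) → V, Sum.inr h' ∈ U →
      (ON c h' ∪ OFF c h') ∩ (D \ {T}) ⊆ ON c h' ∨ (ON c h' ∪ OFF c h') ∩ (D \ {T}) ⊆ OFF c h' := by
    intro U hU h' hh'
    have hs : (ON c h' ∪ OFF c h') ∩ (D \ {T}) ⊆ (ON c h' ∪ OFF c h') ∩ D :=
      inter_subset_inter_left sdiff_subset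
    rcases hW.col h' (hU hh') with h1 | h1
    · exact Or.inl (hs.trans h1)
    · exact Or.inr (hs.trans h1)
  have heq : (W.image (Sum.inr : _ → Atom V c)) \ {Sum.inr h} =
      (W.erase h).image (Sum.inr : _ → Atom V c) := by
    ext a
    simp only [mem_sdiff, mem_image, mem_singleton, mem_erase]
    constructor
    · rintro ⟨⟨x, hx, rfl⟩, hne⟩
      exact ⟨x, ⟨fun e => hne (by rw [e]), hx⟩, rfl⟩
    · rintro ⟨x, ⟨hne, hx⟩, rfl⟩
      exact ⟨⟨x, hx, rfl⟩, fun e => hne (Sum.inr_injective e)⟩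
  by_cases hcl : (fa (Sum.inr h : Atom V c) ∩ (D \ {T})).Nonempty
  · refine ⟨W.image (Sum.inr : _ → Atom V c), ⟨?_, ?_, ?_, ?_, ?_⟩, heq⟩
    · intro T' hT'
      exact hW.cover T' (mem_sdiff.1 hT').1
    · intro T' hT' a ha b hb h1 h2
      exact hW.uniq T' (mem_sdiff.1 hT').1 a ha b hb h1 h2
    · intro a ha
      by_cases hne : a = Sum.inr h
      · rw [hne]
        exact hcl
      · exact hoth a ha hne
    · intro h' hh'
      exact hW.inj h' hh'
    · exact hcol _ (Subset.refl _)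
  · have hsub : (W.erase h).image (Sum.inr : _ → Atom V c) ⊆ W.image (Sum.inr : _ → Atom V c) :=
      image_subset_image (erase_subset _ _)
    refine ⟨(W.erase h).image (Sum.inr : _ → Atom V c), ⟨?_, ?_, ?_, ?_, ?_⟩, ?_⟩
    · intro T' hT'
      obtain ⟨a, ha, hTa⟩ := hW.cover T' (mem_sdiff.1 hT').1
      refine ⟨a, ?_, hTa⟩
      rw [← heq, mem_sdiff, mem_singleton]
      refine ⟨ha, ?_⟩
      intro e
      rw [e] at hTa
      exact hcl ⟨T', mem_inter.2 ⟨hTa, hT'⟩⟩
    · intro T' hT' a ha b hb h1 h2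
      exact hW.uniq T' (mem_sdiff.1 hT').1 a (hsub ha) b (hsub hb) h1 h2
    · intro a ha
      have ha2 := ha
      rw [← heq, mem_sdiff, mem_singleton] at ha2
      exact hoth a ha2.1 ha2.2
    · intro h' hh'
      exact hW.inj h' (hsub hh')
    · exact hcol _ hsub
    · rw [← heq, Finset.sdiff_idem]

/-- the sets of the second kind through `h` -/
theorem kind_two (hc : 6 ≤ c) (hev : Even c) (hJ : J < c) (ht : TemplateStatement)
    (hn : NewStatement) {C₀ : ℝ}
    (hS : ∀ (V : Type) [Fintype V] [DecidableEq V] (RT : Finset (Tri V)) (s : ℕ) (B : ℝ)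
      (y : Atom V c → ℝ) (F : Finset V) (𝒰 : Finset (Finset (Atom V c))),
      1 ≤ Fintype.card V → 1 ≤ s → 1 ≤ B → RBound C s RT → WBound B RT y → F.card ≤ c + 2 →
      (∀ U ∈ 𝒰, U.card ≤ J) →
      (∀ g : ℕ, (∀ U ∈ 𝒰, (∀ a ∈ U, y a ≠ 0) → ∃ l : List (Atom V c), l.Nodup ∧ l.toFinset = U ∧
          exL F l ≤ -(g : ℤ)) →
        ∑ U ∈ 𝒰, ∏ a ∈ U, y a ≤ (C₀ * B) ^ J / (Fintype.card V : ℝ) ^ g) ∧
      ((∀ U ∈ 𝒰, (∀ a ∈ U, y a ≠ 0) → ∃ (h : Fin (c + 2) → V) (l : List (Atom V c)),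
          (Sum.inr h :: l).Nodup ∧
          (Sum.inr h :: l).toFinset = U ∧ exL F (Sum.inr h :: l) ≤ 0 ∧
          ((rt c h ∩ F).card ≤ 1 ∨ exL F (Sum.inr h :: l) ≤ -1)) →
        ∑ U ∈ 𝒰, ∏ a ∈ U, y a ≤ (C₀ * B) ^ J * (1 / s + 1 / Fintype.card V)))
    (hY : YBound c C s B E RT yb) (h : Fin (c + 2) → V) (hne : yb h ≠ 0)
    (S : Finset (Finset (Fin (c + 2) → V))) (hS2 : ∀ W ∈ S, h ∈ W ∧ K2 V c J W) :
    ∑ W ∈ S, ∏ h' ∈ W.erase h, yb h' ≤
      (C₀ * B) ^ J * (1 / s + 1 / Fintype.card V) := by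
  classical
  have hb := ht c hc hev V h (hY.inj h hne)
  have hinr : Function.Injective (Sum.inr : (Fin (c + 2) → V) → Atom V c) := Sum.inr_injective
  have hFc : (univ.image h).card ≤ c + 2 := by
    refine le_trans card_image_le ?_
    rw [card_univ, Fintype.card_fin]
  have h1 := (hS V RT s B (yA c (fun _ => 0) yb) (univ.image h)
    (S.image (fun W => (W.erase h).image (Sum.inr : _ → Atom V c))) hY.hn hY.hs hY.hB hY.rb
    (wb hY) hFc ?_).2 ?_
  · rw [sum_image] at h1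
    · refine le_trans (le_of_eq ?_) h1
      refine sum_congr rfl ?_
      intro W _
      rw [prod_image (fun a _ b _ hab => hinr hab)]
      rfl
    · intro W hW W' hW' hEq
      have h2 : W.erase h = W'.erase h := image_injective hinr hEq
      rw [← insert_erase (hS2 W hW).1, ← insert_erase (hS2 W' hW').1, h2]
  · intro U hU
    rw [mem_image] at hU
    obtain ⟨W, hW, rfl⟩ := hU
    obtain ⟨_, _, D, hD, hlift⟩ := hS2 W hW
    refine le_trans card_image_le ?_
    refine le_trans (card_le_card (erase_subset _ _)) ?_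
    have h3 := lift_card hlift
    rw [card_image_of_injective _ hinr] at h3
    exact le_trans h3 (TriGood.conf_iff.1 hD).2.1
  · intro U hU hy
    rw [mem_image] at hU
    obtain ⟨W, hW, rfl⟩ := hU
    obtain ⟨hhW, hcard, D, hD, hlift⟩ := hS2 W hW
    have hmem : (Sum.inr h : Atom V c) ∈ W.image (Sum.inr : _ → Atom V c) :=
      mem_image_of_mem _ hhW
    obtain ⟨T, hT⟩ := hlift.used _ hmem
    rw [mem_inter] at hT
    obtain ⟨hTh, hTD⟩ := hT
    obtain ⟨U', hU', hUe⟩ := lift_erase hlift hhW hTD hTh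
    -- an ordering
    have hne2 : ((W.erase h).image (Sum.inr : _ → Atom V c)).toList ≠ [] := by
      rw [Ne, toList_eq_nil, image_eq_empty, ← card_eq_zero, card_erase_of_mem hhW]
      omega
    obtain ⟨a, l, hal⟩ := List.exists_cons_of_ne_nil hne2
    have ha : a ∈ (W.erase h).image (Sum.inr : _ → Atom V c) := by
      rw [← mem_toList, hal]
      exact List.mem_cons_self
    obtain ⟨h', hh', rfl⟩ := mem_image.1 ha
    have hnd : (Sum.inr h' :: l : List (Atom V c)).Nodup := by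
      rw [← hal]
      exact nodup_toList _
    have htf : (Sum.inr h' :: l : List (Atom V c)).toFinset =
        (W.erase h).image (Sum.inr : _ → Atom V c) := by
      rw [← hal, toList_toFinset]
    have hTsub : T.1 ⊆ univ.image h := by
      have : T ∈ ON c h ∪ OFF c h := hTh
      rcases mem_union.1 this with h4 | h4
      · exact hb.vON T h4
      · exact hb.vOFF T h4
    have hyh' : yb h' ≠ 0 := hy _ ha
    have hrt : rt c h' ≠ T.1 := by
      intro e
      obtain ⟨e', he', heb⟩ := hb.face_bE T hTh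
      rw [← e] at he'
      exact (Finset.disjoint_left.1 (hY.rootE h' hyh')) he' (hY.new h hne heb)
    have h5 := hn c J hc hev hJ V D T U' {Sum.inr h} (univ.image h) h' l hD hTD hU' hTsub
      (by
        unfold vP
        rw [singleton_biUnion]
        exact Subset.refl _) hrt hnd (by rw [htf, hUe])
    exact ⟨h', l, hnd, htf, h5.1, h5.2⟩

end Main

end BadSum

open BadSum in
theorem bad_sum (hs : SumStatement) (hn : NewStatement) (ho : OAStatement)
    (ht : TemplateStatement) : BadStatement := by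
  intro c J C hc hev hJ hJ3
  obtain ⟨C₂, hC₂, hO⟩ := ho c 2 C hc
  obtain ⟨C₃, hC₃, hS⟩ := hs c (c + 2) J C hc
  refine ⟨(6 * c : ℕ) * C₂ + C₃ ^ J, ?_, ?_⟩
  · have h1 : 1 ≤ C₃ ^ J := one_le_pow₀ hC₃
    have h2 : 0 ≤ ((6 * c : ℕ) : ℝ) * C₂ := by positivity
    linarith
  intro V _ _ E RT s B yb hY r
  classical
  have hB := hY.hB
  set q : ℝ := 1 / s + 1 / Fintype.card V with hq
  have hq0 : 0 ≤ q := by positivity
  set Q : ℝ := ((6 * c : ℕ) * C₂ + C₃ ^ J) * B ^ J * q with hQ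
  have hQ0 : 0 ≤ Q := by positivity
  -- the sum for one placement
  have hin : ∀ h : Fin (c + 2) → V, yb h ≠ 0 →
      ∑ W ∈ (bad V c J).filter (fun W => h ∈ W), ∏ h' ∈ W.erase h, yb h' ≤ Q := by
    intro h hne
    have h1 : (bad V c J).filter (fun W => h ∈ W) ⊆
        ((bad V c J).filter (fun W => h ∈ W ∧ K1 V c h W)) ∪
          ((bad V c J).filter (fun W => h ∈ W ∧ K2 V c J W)) := by
      intro W hW
      rw [mem_filter] at hW
      rw [mem_union, mem_filter, mem_filter]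
      rcases bad_kinds hW.1 hW.2 with h2 | h2
      · exact Or.inl ⟨hW.1, hW.2, h2⟩
      · exact Or.inr ⟨hW.1, hW.2, h2⟩
    have hpn : ∀ W : Finset (Fin (c + 2) → V), 0 ≤ ∏ h' ∈ W.erase h, yb h' :=
      fun W => prod_nonneg (fun h' _ => hY.nonneg h')
    have h2 : ∑ W ∈ (bad V c J).filter (fun W => h ∈ W), ∏ h' ∈ W.erase h, yb h' ≤
        ∑ W ∈ (bad V c J).filter (fun W => h ∈ W ∧ K1 V c h W), ∏ h' ∈ W.erase h, yb h' +
          ∑ W ∈ (bad V c J).filter (fun W => h ∈ W ∧ K2 V c J W),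
            ∏ h' ∈ W.erase h, yb h' := by
      refine le_trans (sum_le_sum_of_subset_of_nonneg h1 (fun W _ _ => hpn W)) ?_
      have h3 := sum_union_inter
        (s₁ := (bad V c J).filter (fun W => h ∈ W ∧ K1 V c h W))
        (s₂ := (bad V c J).filter (fun W => h ∈ W ∧ K2 V c J W))
        (f := fun W => ∏ h' ∈ W.erase h, yb h')
      have h4 : 0 ≤ ∑ W ∈ ((bad V c J).filter (fun W => h ∈ W ∧ K1 V c h W)) ∩
          ((bad V c J).filter (fun W => h ∈ W ∧ K2 V c J W)), ∏ h' ∈ W.erase h, yb h' :=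
        sum_nonneg (fun W _ => hpn W)
      linarith
    have h3 := kind_one hc hev ht hO hC₂ hY h hne
      ((bad V c J).filter (fun W => h ∈ W ∧ K1 V c h W)) (fun W hW => (mem_filter.1 hW).2.2)
    have h4 := kind_two hc hev hJ ht hn hS hY h hne
      ((bad V c J).filter (fun W => h ∈ W ∧ K2 V c J W)) (fun W hW => (mem_filter.1 hW).2)
    have h5 : ((6 * c : ℕ) : ℝ) * (C₂ * B / s) ≤ (6 * c : ℕ) * C₂ * B ^ J * q := by
      have h6 : B ≤ B ^ J := le_self_pow₀ hB (by omega)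
      have h7 : (1 : ℝ) / s ≤ q := by
        rw [hq]
        have : (0 : ℝ) ≤ 1 / Fintype.card V := by positivity
        linarith
      have h8 : B * (1 / s) ≤ B ^ J * q :=
        mul_le_mul h6 h7 (by positivity) (by positivity)
      have h9 : 0 ≤ ((6 * c : ℕ) : ℝ) * C₂ := by positivity
      calc ((6 * c : ℕ) : ℝ) * (C₂ * B / s) = ((6 * c : ℕ) * C₂) * (B * (1 / s)) := by ring
        _ ≤ ((6 * c : ℕ) * C₂) * (B ^ J * q) := mul_le_mul_of_nonneg_left h8 h9
        _ = (6 * c : ℕ) * C₂ * B ^ J * q := by ring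
    have h6 : (C₃ * B) ^ J * (1 / s + 1 / Fintype.card V) = C₃ ^ J * B ^ J * q := by
      rw [mul_pow]
    rw [h6] at h4
    calc _ ≤ _ := h2
      _ ≤ (6 * c : ℕ) * C₂ * B ^ J * q + C₃ ^ J * B ^ J * q := by
          refine add_le_add (le_trans h3 h5) h4
      _ = Q := by rw [hQ]; ring
  -- the whole sum
  have h1 : (bad V c J).filter (fun W => ∃ h ∈ W, rt c h = r.1) ⊆
      (univ.filter (fun h => rt c h = r.1)).biUnion
        (fun h => (bad V c J).filter (fun W => h ∈ W)) := by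
    intro W hW
    rw [mem_filter] at hW
    obtain ⟨hW1, h, hh, hr⟩ := hW
    rw [mem_biUnion]
    exact ⟨h, mem_filter.2 ⟨mem_univ _, hr⟩, mem_filter.2 ⟨hW1, hh⟩⟩
  have hpn : ∀ W : Finset (Fin (c + 2) → V), 0 ≤ ∏ h' ∈ W, yb h' :=
    fun W => prod_nonneg (fun h' _ => hY.nonneg h')
  calc ∑ W ∈ (bad V c J).filter (fun W => ∃ h ∈ W, rt c h = r.1), ∏ h ∈ W, yb h
      ≤ ∑ W ∈ (univ.filter (fun h => rt c h = r.1)).biUnion
        (fun h => (bad V c J).filter (fun W => h ∈ W)), ∏ h ∈ W, yb h :=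
        sum_le_sum_of_subset_of_nonneg h1 (fun W _ _ => hpn W)
    _ ≤ ∑ h ∈ univ.filter (fun h => rt c h = r.1),
        ∑ W ∈ (bad V c J).filter (fun W => h ∈ W), ∏ h' ∈ W, yb h' := sum_biU_le _ _ _ hpn
    _ ≤ ∑ h ∈ univ.filter (fun h => rt c h = r.1), yb h * Q := by
        refine sum_le_sum ?_
        intro h _
        have h2 : ∑ W ∈ (bad V c J).filter (fun W => h ∈ W), ∏ h' ∈ W, yb h' =
            yb h * ∑ W ∈ (bad V c J).filter (fun W => h ∈ W), ∏ h' ∈ W.erase h, yb h' := by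
          rw [mul_sum]
          refine sum_congr rfl ?_
          intro W hW
          rw [mul_prod_erase W yb (mem_filter.1 hW).2]
        rw [h2]
        by_cases h0 : yb h = 0
        · rw [h0, zero_mul, zero_mul]
        · exact mul_le_mul_of_nonneg_left (hin h h0) (hY.nonneg h)
    _ = (∑ h ∈ univ.filter (fun h => rt c h = r.1), yb h) * Q := by rw [sum_mul]
    _ ≤ 1 * Q := mul_le_mul_of_nonneg_right (hY.one r) hQ0
    _ = _ := by rw [one_mul, hQ]

end F2
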