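import Pool.Agent.F2.SpecL2

/-!
# Project F2, block L: the boosters exist (assembly)
-/

set_option autoImplicit false

namespace F2

open Finset NW F1
open Pool.Agent.F2 (HH GG Spread)

theorem boost (hsel : SelStatement) (hcl : CleanStatement) (hM : ConsMStatement)
    (hY : ConsYStatement) (hT : ConsTStatement) : BoostStatement := by
  intro J c C ε K hJ hc hce hJc hε hK
  obtain ⟨K₂, hK₂, hY'⟩ := hY J K hK
  refine ⟨K₂, hK₂, fun k hk => ?_⟩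
  obtain ⟨θ₀, hθ₀, hs⟩ := hsel J c C ε K hJ hc hce hJc hε hK k hk
  refine ⟨θ₀, hθ₀, fun θ hθ hθ' => ?_⟩
  obtain ⟨n₁, k₂, hk₂, hs'⟩ := hs θ hθ hθ'
  refine ⟨max 1 n₁, ?_⟩
  intro V _ _ E' A X RT s hn hs1 hs2 hnl hdA hdX hdeg hroot hvert hpair hvt
  have hB : BHyp n₁ C s ε θ E' A X RT :=
    ⟨(le_max_right _ _).trans hn, hs1, hs2, hnl, hdA, hdX, hdeg, hroot, hvert, hpair, hvt⟩
  have hB' : BHyp (max 1 n₁) C s ε θ E' A X RT :=
    ⟨hn, hs1, hs2, hnl, hdA, hdX, hdeg, hroot, hvert, hpair, hvt⟩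
  obtain ⟨hh, hS⟩ := hs' V E' A X RT s hB
  have hdis : ∀ r ∈ RT, Disjoint (NW.edg r.1) E' := fun r hr =>
    Finset.disjoint_of_subset_left (hroot r hr)
      (Finset.disjoint_union_left.2 ⟨hdA.symm, hdX.symm⟩)
  obtain ⟨h1, h2⟩ := hcl c J hc hce hJc V E' RT hh hS.mem hdis hS.bad
  obtain ⟨m1, m2, m3, m4⟩ := hM c J k k₂ C s (max 1 n₁) K θ ε hc hce hJc hK hk₂ V E' A X RT hh
    (le_max_left _ _) hB' hS
  obtain ⟨y1, y2⟩ := hY' c k k₂ C s (max 1 n₁) θ ε hc hce hJc hk₂ V E' A X RT hh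
    (le_max_left _ _) hB' hS
  obtain ⟨t1, t2, t3⟩ := hT c J k k₂ C s (max 1 n₁) K θ ε hc hce hJc hK hk₂ V E' A X RT hh
    (le_max_left _ _) hB' hS
  exact ⟨hh, ⟨hS.mem, h1, h2, t1, t2, t3, y1, y2, m1, m2, fun T _ e he => m3 T e he,
    fun T _ T' _ h => m4 T T' h⟩⟩

end F2
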