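import Pool.Agent.F2.SpecL2

/-!
# Project F2, block L, row L6: lifts exist
-/

set_option autoImplicit false
set_option linter.unusedSectionVars false

namespace F2

open Finset NW F1

section Lift

variable {V : Type} [Fintype V] [DecidableEq V] {c : ℕ}

theorem lf_inl {RT : Finset (Tri V)} {hh : Tri V → (Fin (c + 2) → V)} {D Z : Finset (Tri V)}
    (T : Tri V) : Sum.inl T ∈ lft c RT hh D Z ↔ T ∈ (D \ Z) \ allB c RT hh := by
  unfold lft
  rw [mem_union, mem_image, mem_image]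
  constructor
  · rintro (⟨T', hT', h⟩ | ⟨r, -, h⟩)
    · rw [← Sum.inl.inj h]
      exact hT'
    · exact absurd h (by simp)
  · intro h
    exact Or.inl ⟨T, h, rfl⟩

theorem lf_inr {RT : Finset (Tri V)} {hh : Tri V → (Fin (c + 2) → V)} {D Z : Finset (Tri V)}
    (h : Fin (c + 2) → V) : Sum.inr h ∈ lft c RT hh D Z ↔
      ∃ r ∈ RT, ((ON c (hh r) ∪ OFF c (hh r)) ∩ D).Nonempty ∧ hh r = h := by
  unfold lft
  rw [mem_union, mem_image, mem_image]
  constructor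
  · rintro (⟨T', -, h'⟩ | ⟨r, hr, h'⟩)
    · exact absurd h' (by simp)
    · rw [mem_filter] at hr
      exact ⟨r, hr.1, hr.2, Sum.inr.inj h'⟩
  · rintro ⟨r, hr, hn, rfl⟩
    exact Or.inr ⟨r, mem_filter.2 ⟨hr, hn⟩, rfl⟩

theorem lf_allB {RT : Finset (Tri V)} {hh : Tri V → (Fin (c + 2) → V)} {T : Tri V} :
    T ∈ allB c RT hh ↔ ∃ r ∈ RT, T ∈ ON c (hh r) ∪ OFF c (hh r) := by
  unfold allB
  rw [mem_biUnion]

theorem lf_fal (T T' : Tri V) : T' ∈ fa (Sum.inl T : Atom V c) ↔ T' = T := by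
  change T' ∈ ({T} : Finset (Tri V)) ↔ _
  rw [mem_singleton]

theorem lf_far (h : Fin (c + 2) → V) (T' : Tri V) :
    T' ∈ fa (Sum.inr h : Atom V c) ↔ T' ∈ ON c h ∪ OFF c h := Iff.rfl

end Lift

/-- row L6 -/
theorem lift_lft (ht : TemplateStatement) : LiftStatement := by
  intro c hc hce V _ _ E RT hh hPl hrE hdis D Z hcons hZ hZB
  have hinj : ∀ r ∈ RT, Function.Injective (hh r) := fun r hr =>
    (mem_filter.1 (hPl r hr)).2.1
  have hrt : ∀ r ∈ RT, rt c (hh r) = r.1 := fun r hr => (mem_filter.1 (hPl r hr)).2.2.1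
  have hbE : ∀ r ∈ RT, bE c (hh r) ⊆ E := fun r hr => (mem_filter.1 (hPl r hr)).2.2.2
  have hbf : ∀ r ∈ RT, BoostFacts c (hh r) := fun r hr => ht c hc hce V (hh r) (hinj r hr)
  refine ⟨⟨?_, ?_, ?_, ?_, ?_⟩, lf_inl, ?_⟩
  · intro T hT
    by_cases hB : T ∈ allB c RT hh
    · obtain ⟨r, hr, hTr⟩ := lf_allB.1 hB
      refine ⟨Sum.inr (hh r), (lf_inr _).2 ⟨r, hr, ⟨T, mem_inter.2 ⟨hTr, (mem_sdiff.1 hT).1⟩⟩,
        rfl⟩, (lf_far _ _).2 hTr⟩
    · exact ⟨Sum.inl T, (lf_inl T).2 (mem_sdiff.2 ⟨hT, hB⟩), (lf_fal _ _).2 rfl⟩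
  · intro T hT a ha b hb hTa hTb
    rcases a with T1 | h1
    · rw [lf_fal] at hTa
      subst hTa
      rcases b with T2 | h2
      · rw [lf_fal] at hTb
        rw [hTb]
      · exfalso
        obtain ⟨r, hr, -, rfl⟩ := (lf_inr h2).1 hb
        have h3 := (mem_sdiff.1 ((lf_inl T).1 ha)).2
        exact h3 (lf_allB.2 ⟨r, hr, (lf_far _ _).1 hTb⟩)
    · obtain ⟨r, hr, -, rfl⟩ := (lf_inr h1).1 ha
      rw [lf_far] at hTa
      rcases b with T2 | h2
      · exfalso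
        rw [lf_fal] at hTb
        subst hTb
        have h3 := (mem_sdiff.1 ((lf_inl T).1 hb)).2
        exact h3 (lf_allB.2 ⟨r, hr, hTa⟩)
      · obtain ⟨r', hr', -, rfl⟩ := (lf_inr h2).1 hb
        rw [lf_far] at hTb
        by_cases hrr : r = r'
        · rw [hrr]
        · exfalso
          obtain ⟨e, he1, he2⟩ := (hbf r hr).face_bE T hTa
          have h4 : e ∉ bE c (hh r') := fun h5 =>
            disjoint_left.1 (hdis r hr r' hr' hrr) he2 h5
          rcases mem_union.1 hTb with h5 | h5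
          · have h6 : e ∈ NW.edg (rt c (hh r')) ∪ bE c (hh r') := by
              rw [← (hbf r' hr').edgON, mem_biUnion]
              exact ⟨T, h5, he1⟩
            rcases mem_union.1 h6 with h7 | h7
            · rw [hrt r' hr'] at h7
              exact disjoint_left.1 (hrE r' hr') h7 (hbE r hr he2)
            · exact h4 h7
          · apply h4
            unfold bE
            rw [mem_biUnion]
            exact ⟨T, h5, he1⟩
  · intro a ha
    rcases a with T1 | h1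
    · exact ⟨T1, mem_inter.2 ⟨(lf_fal _ _).2 rfl, (mem_sdiff.1 ((lf_inl T1).1 ha)).1⟩⟩
    · obtain ⟨r, hr, ⟨T, hT⟩, rfl⟩ := (lf_inr h1).1 ha
      rw [mem_inter] at hT
      refine ⟨T, mem_inter.2 ⟨(lf_far _ _).2 hT.1, mem_sdiff.2 ⟨hT.2, fun h3 => ?_⟩⟩⟩
      exact disjoint_left.1 hZB h3 (lf_allB.2 ⟨r, hr, hT.1⟩)
  · intro h hh1
    obtain ⟨r, hr, -, rfl⟩ := (lf_inr h).1 hh1
    exact hinj r hr
  · intro h hh1
    obtain ⟨r, hr, -, rfl⟩ := (lf_inr h).1 hh1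
    have h3 : (ON c (hh r) ∪ OFF c (hh r)) ∩ (D \ Z) ⊆ D ∩ (ON c (hh r) ∪ OFF c (hh r)) := by
      intro T hT
      rw [mem_inter, mem_sdiff] at hT
      exact mem_inter.2 ⟨hT.2.1, hT.1⟩
    rcases hcons r hr with h4 | h4
    · exact Or.inl (h3.trans h4)
    · exact Or.inr (h3.trans h4)
  · intro h hh1
    obtain ⟨r, hr, -, rfl⟩ := (lf_inr h).1 hh1
    unfold rz
    rw [if_pos (mem_image.2 ⟨r, hr, rfl⟩)]

end F2
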