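import Pool.Agent.F2.SpecL2
import Pool.Agent.F2.L.Lift

/-!
# Project F2, block L, row L7: disjoint boosters, no configuration covered by boosters
-/

set_option autoImplicit false
set_option linter.unusedSectionVars false

namespace F2

open Finset NW F1

/-- row L7 -/
theorem clean (hl : LiftStatement) (ht : TemplateStatement) : CleanStatement := by
  classical
  intro c J hc hce hJc V _ _ E RT hh hPl hrE hbad
  have hinj : ∀ r ∈ RT, Function.Injective (hh r) := fun r hr =>
    (mem_filter.1 (hPl r hr)).2.1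
  have hrt : ∀ r ∈ RT, rt c (hh r) = r.1 := fun r hr => (mem_filter.1 (hPl r hr)).2.2.1
  have hdis : ∀ r ∈ RT, ∀ r' ∈ RT, r ≠ r' → Disjoint (bE c (hh r)) (bE c (hh r')) := by
    intro r hr r' hr' hne
    by_contra hcon
    have h1 : ({hh r, hh r'} : Finset (Fin (c + 2) → V)) ∈ bad V c J := by
      unfold bad
      rw [mem_filter]
      refine ⟨mem_univ _, Or.inl ⟨hh r, hh r', ?_, hcon, by congr 1⟩⟩
      rw [hrt r hr, hrt r' hr']
      exact fun h => hne (Subtype.ext h)
    obtain ⟨h, hm, hn⟩ := hbad _ h1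
    rw [mem_insert, mem_singleton] at hm
    rcases hm with rfl | rfl
    · exact hn (mem_image.2 ⟨r, hr, rfl⟩)
    · exact hn (mem_image.2 ⟨r', hr', rfl⟩)
  refine ⟨hdis, ?_⟩
  intro D hD hcons hsub
  obtain ⟨hL, hL1, -⟩ := hl c hc hce V E RT hh hPl hrE hdis D ∅ hcons (empty_subset _)
    (disjoint_empty_left _)
  rw [sdiff_empty] at hL
  set W : Finset (Fin (c + 2) → V) :=
    (RT.filter (fun r => ((ON c (hh r) ∪ OFF c (hh r)) ∩ D).Nonempty)).image hh with hW
  have hWR : ∀ h ∈ W, h ∈ RT.image hh := fun h hm => by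
    obtain ⟨r, hr, rfl⟩ := mem_image.1 hm
    exact mem_image.2 ⟨r, (mem_filter.1 hr).1, rfl⟩
  have hWl : lft c RT hh D ∅ = W.image (Sum.inr : _ → Atom V c) := by
    ext a
    rcases a with T | h
    · rw [lf_inl, sdiff_empty]
      constructor
      · intro hT
        exact absurd (hsub (mem_sdiff.1 hT).1) (mem_sdiff.1 hT).2
      · intro hT
        obtain ⟨h, -, h'⟩ := mem_image.1 hT
        exact absurd h' (by simp)
    · rw [lf_inr]
      constructor
      · rintro ⟨r, hr, hn, rfl⟩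
        exact mem_image.2 ⟨hh r, mem_image.2 ⟨r, mem_filter.2 ⟨hr, hn⟩, rfl⟩, rfl⟩
      · intro hm
        obtain ⟨h', hm', he⟩ := mem_image.1 hm
        rw [← Sum.inr.inj he]
        obtain ⟨r, hr, rfl⟩ := mem_image.1 hm'
        exact ⟨r, (mem_filter.1 hr).1, (mem_filter.1 hr).2, rfl⟩
  rw [hWl] at hL
  obtain ⟨hc3, hcJ, -, hcv, -⟩ := TriGood.conf_iff.1 hD
  by_cases h2 : 2 ≤ W.card
  · have h3 : W ∈ bad V c J := by
      unfold bad
      rw [mem_filter]
      refine ⟨mem_univ _, Or.inr ⟨h2, D, hD, ?_⟩⟩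
      convert hL
    obtain ⟨h, hm, hn⟩ := hbad _ h3
    exact hn (hWR h hm)
  · obtain ⟨T0, hT0⟩ : D.Nonempty := card_pos.1 (by omega)
    obtain ⟨a, ha, hTa⟩ := hL.cover T0 hT0
    obtain ⟨h, hm, rfl⟩ := mem_image.1 ha
    obtain ⟨r, hr, rfl⟩ := mem_image.1 hm
    have hall : D ⊆ ON c (hh r) ∪ OFF c (hh r) := by
      intro T hT
      obtain ⟨b, hb, hTb⟩ := hL.cover T hT
      obtain ⟨h', hm', rfl⟩ := mem_image.1 hb
      have h4 : h' = hh r := by
        have h5 : W.card ≤ 1 := by omega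
        exact card_le_one.1 h5 _ hm' _ hm
      rw [h4] at hTb
      exact (lf_far _ _).1 hTb
    have hcol : D ⊆ ON c (hh r) ∨ D ⊆ OFF c (hh r) := by
      have h6 : D ∩ (ON c (hh r) ∪ OFF c (hh r)) = D := inter_eq_left.2 hall
      have h7 := hcons r (mem_filter.1 hr).1
      rw [h6] at h7
      exact h7
    have h8 := (ht c hc hce V (hh r) (hinj r (mem_filter.1 hr).1)).grow D hcol ⟨T0, hT0⟩
      (by omega)
    have h9 := h8.2 (by omega)
    omega

end F2
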