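import Pool.Agent.F2.SpecL2

/-!
# Project F2, block L, row L21: the moments `mA`, `mA'`, `mB`, `mE`
-/

set_option autoImplicit false
set_option linter.unusedSectionVars false

namespace F2

open Finset NW F1
open Pool.Agent.F2 (HH GG Spread)

section ConsM

variable {V : Type} [Fintype V] [DecidableEq V] {c J : ℕ}

/-- the conclusion of `LiftStatement` -/
def CmLift (c : ℕ) (RT : Finset (Tri V)) (hh : Tri V → (Fin (c + 2) → V)) : Prop :=
  ∀ D Z : Finset (Tri V), Cons c RT hh D → Z ⊆ D → Disjoint Z (allB c RT hh) →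
    IsLift (D \ Z) (lft c RT hh D Z) ∧
    (∀ T, Sum.inl T ∈ lft c RT hh D Z ↔ T ∈ (D \ Z) \ allB c RT hh) ∧
    (∀ h, Sum.inr h ∈ lft c RT hh D Z → rz c RT hh h = 1)

theorem cm_lift (hl : LiftStatement) (hc : CleanStatement) {k k₂ C s n₀ : ℕ} {K θ ε : ℝ}
    (h6 : 6 ≤ c) (h2 : Even c) (hJ : J < c) {E' A X : Finset (Sym2 V)} {RT : Finset (Tri V)}
    {hh : Tri V → (Fin (c + 2) → V)} (hB : BHyp n₀ C s ε θ E' A X RT)
    (hS : Sel c J k k₂ s K θ E' X RT hh) : CmLift c RT hh := by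
  have hr : ∀ r ∈ RT, Disjoint (NW.edg r.1) E' := fun r hr =>
    Finset.disjoint_of_subset_left (hB.root r hr)
      (Finset.disjoint_union_left.2 ⟨hB.dA.symm, hB.dX.symm⟩)
  exact hl c h6 h2 V E' RT hh hS.mem hr (hc c J h6 h2 hJ V E' RT hh hS.mem hr hS.bad).1

theorem cm_conf {RT : Finset (Tri V)} {hh : Tri V → (Fin (c + 2) → V)} {E X : Finset (Sym2 V)}
    {W : Finset (Tri V)} (hW : W ∈ (syT c J RT hh E X).conf) :
    ∃ D ∈ (triSys V J).conf, Cons c RT hh D ∧ D \ allB c RT hh = W := by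
  classical
  have h := (Finset.mem_filter.1 hW).1
  obtain ⟨D, hD, rfl⟩ := Finset.mem_image.1 h
  exact ⟨D, (Finset.mem_filter.1 hD).1, (Finset.mem_filter.1 hD).2, rfl⟩

theorem cm_gg (hg : GGLiftStatement) {RT : Finset (Tri V)} {hh : Tri V → (Fin (c + 2) → V)}
    {E X : Finset (Sym2 V)} {K : ℝ} {s k : ℕ} (hn : 1 ≤ Fintype.card V) (hK : 0 < K)
    {UU : Finset (Finset (Tri V))} {LL : Finset (Finset (Atom V c))}
    (h : ∀ U ∈ UU, ∃ W ∈ LL, (∀ a, Sum.inl a ∈ W ↔ a ∈ U) ∧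
      ∀ b, Sum.inr b ∈ W → rz c RT hh b = 1) :
    GG ((Fintype.card V : ℝ) ^ (-(19 / 20) : ℝ))
      ((syT c J RT hh E X).y0 (fun _ => K / Fintype.card V) (s ^ 2 / Fintype.card V)) UU k ≤
    GG ((Fintype.card V : ℝ) ^ (-(19 / 20) : ℝ))
      (yA c (fun _ => (2 * K + s ^ 2) / Fintype.card V) (rz c RT hh)) LL k := by
  have hn1 : (1 : ℝ) ≤ (Fintype.card V : ℝ) := by exact_mod_cast hn
  have hn0 : (0 : ℝ) < (Fintype.card V : ℝ) := by linarith
  have hs : (0 : ℝ) ≤ (s : ℝ) ^ 2 := by positivity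
  refine hg (Tri V) (Fin (c + 2) → V) _ _ _ UU LL k (by positivity)
    (Real.rpow_le_one_of_one_le_of_nonpos hn1 (by norm_num)) ?_ ?_ ?_ ?_
  · intro a
    unfold Sy.y0
    split_ifs
    · positivity
    · positivity
    · exact le_rfl
  · rintro (a | b)
    · change 0 ≤ (2 * K + (s : ℝ) ^ 2) / (Fintype.card V : ℝ)
      positivity
    · change 0 ≤ rz c RT hh b
      unfold rz
      split_ifs
      · exact zero_le_one
      · exact le_rfl
  · intro a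
    change _ ≤ (2 * K + (s : ℝ) ^ 2) / (Fintype.card V : ℝ)
    unfold Sy.y0
    split_ifs
    · rw [← mul_div_assoc]
      exact div_le_div_of_nonneg_right (by linarith) hn0.le
    · exact div_le_div_of_nonneg_right (by linarith) hn0.le
    · positivity
  · intro U hU
    obtain ⟨W, hW, h1, h2⟩ := h U hU
    exact ⟨W, hW, h1, fun b hb => h2 b hb⟩

theorem cm_notMem {RT : Finset (Tri V)} {hh : Tri V → (Fin (c + 2) → V)} {D W : Finset (Tri V)}
    (h : D \ allB c RT hh = W) {T : Tri V} (hT : T ∈ W) : T ∈ D ∧ T ∉ allB c RT hh := by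
  rw [← h] at hT
  exact Finset.mem_sdiff.1 hT

/-- the lift of `D \ {T}` -/
theorem cm_one {RT : Finset (Tri V)} {hh : Tri V → (Fin (c + 2) → V)} (hL : CmLift c RT hh)
    {D W : Finset (Tri V)} (hD : Cons c RT hh D) (h : D \ allB c RT hh = W) {T : Tri V}
    (hT : T ∈ W) : IsLift (D \ {T}) (lft c RT hh D {T}) ∧
      (∀ a, Sum.inl a ∈ lft c RT hh D {T} ↔ a ∈ W.erase T) ∧
      (∀ b, Sum.inr b ∈ lft c RT hh D {T} → rz c RT hh b = 1) := by
  obtain ⟨h1, h2⟩ := cm_notMem h hT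
  obtain ⟨h3, h4, h5⟩ := hL D {T} hD (Finset.singleton_subset_iff.2 h1)
    (Finset.disjoint_singleton_left.2 h2)
  refine ⟨h3, fun a => ?_, h5⟩
  rw [h4 a, ← h, Finset.mem_sdiff, Finset.mem_sdiff, Finset.mem_erase, Finset.mem_sdiff,
    Finset.mem_singleton]
  tauto

theorem cm_two {RT : Finset (Tri V)} {hh : Tri V → (Fin (c + 2) → V)} (hL : CmLift c RT hh)
    {D W : Finset (Tri V)} (hD : Cons c RT hh D) (h : D \ allB c RT hh = W) {T T' : Tri V}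
    (hT : T ∈ W) (hT' : T' ∈ W) : IsLift (D \ {T, T'}) (lft c RT hh D {T, T'}) ∧
      (∀ a, Sum.inl a ∈ lft c RT hh D {T, T'} ↔ a ∈ (W.erase T).erase T') ∧
      (∀ b, Sum.inr b ∈ lft c RT hh D {T, T'} → rz c RT hh b = 1) := by
  obtain ⟨h1, h2⟩ := cm_notMem h hT
  obtain ⟨h1', h2'⟩ := cm_notMem h hT'
  have hs : ({T, T'} : Finset (Tri V)) ⊆ D := by
    intro x hx
    rcases Finset.mem_insert.1 hx with rfl | hx
    · exact h1
    · rw [Finset.mem_singleton.1 hx]; exact h1'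
  have hd : Disjoint ({T, T'} : Finset (Tri V)) (allB c RT hh) := by
    rw [Finset.disjoint_left]
    intro x hx
    rcases Finset.mem_insert.1 hx with rfl | hx
    · exact h2
    · rw [Finset.mem_singleton.1 hx]; exact h2'
  obtain ⟨h3, h4, h5⟩ := hL D {T, T'} hD hs hd
  refine ⟨h3, fun a => ?_, h5⟩
  rw [h4 a, ← h, Finset.mem_sdiff, Finset.mem_sdiff, Finset.mem_erase, Finset.mem_erase,
    Finset.mem_sdiff, Finset.mem_insert, Finset.mem_singleton]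
  tauto

end ConsM

/-- row L21 -/
theorem consM (hg : GGLiftStatement) (hl : LiftStatement) (hc : CleanStatement) :
    ConsMStatement := by
  intro c J k k₂ C s n₀ K θ ε h6 h2 hJ hK hk₂ V _ _ E' A X RT hh hn₀ hB hS
  have hn : 1 ≤ Fintype.card V := hn₀.trans hB.hn
  have hL := cm_lift hl hc h6 h2 hJ hB hS
  refine ⟨fun T T' hTT => ?_, fun T T' hTT => ?_, fun T e he heT => ?_, fun T T' hTT => ?_⟩
  · refine (cm_gg hg hn hK ?_).trans (hS.gA T T' hTT)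
    intro U hU
    obtain ⟨W, hW, rfl⟩ := Finset.mem_image.1 hU
    obtain ⟨hW1, hT, hT'⟩ := Finset.mem_filter.1 hW
    obtain ⟨D, hD, hcD, hDW⟩ := cm_conf hW1
    obtain ⟨h3, h4, h5⟩ := cm_one hL hcD hDW hT
    refine ⟨_, ?_, h4, h5⟩
    classical
    unfold LA
    refine Finset.mem_filter.2 ⟨Finset.mem_univ _, D, hD, (cm_notMem hDW hT).1, (cm_notMem hDW hT').1, h3,
      (h4 T').2 (Finset.mem_erase.2 ⟨hTT.symm, hT'⟩)⟩
  · refine (cm_gg hg hn hK ?_).trans (hS.gA' T T' hTT)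
    intro U hU
    obtain ⟨W, hW, rfl⟩ := Finset.mem_image.1 hU
    obtain ⟨hW1, hT, hT', _⟩ := Finset.mem_filter.1 hW
    obtain ⟨D, hD, hcD, hDW⟩ := cm_conf hW1
    obtain ⟨h3, h4, h5⟩ := cm_two hL hcD hDW hT hT'
    refine ⟨_, ?_, h4, h5⟩
    classical
    unfold LA'
    refine Finset.mem_filter.2 ⟨Finset.mem_univ _, D, hD, (cm_notMem hDW hT).1, (cm_notMem hDW hT').1, h3⟩
  · refine (cm_gg hg hn hK ?_).trans (hS.gB T e heT)
    intro U hU
    obtain ⟨W, hW, rfl⟩ := Finset.mem_image.1 hU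
    obtain ⟨hW1, hT, T', hT', heT'⟩ := Finset.mem_filter.1 hW
    obtain ⟨D, hD, hcD, hDW⟩ := cm_conf hW1
    obtain ⟨h3, h4, h5⟩ := cm_one hL hcD hDW hT
    refine ⟨_, ?_, h4, h5⟩
    classical
    unfold LB
    refine Finset.mem_filter.2 ⟨Finset.mem_univ _, D, hD, (cm_notMem hDW hT).1,
      ⟨T', (cm_notMem hDW (Finset.mem_of_mem_erase hT')).1, (Finset.mem_inter.1 heT').1⟩, h3⟩
  · refine (cm_gg hg hn hK ?_).trans (hS.gE T T')
    intro U hU
    obtain ⟨p, hp, rfl⟩ := Finset.mem_image.1 hU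
    obtain ⟨hp1, hT, hT', hn1, hn2, _, _, Ts, hTs⟩ := Finset.mem_filter.1 hp
    obtain ⟨hW₁, hW₂⟩ := Finset.mem_product.1 hp1
    obtain ⟨hTs₁, hTs₂⟩ := Finset.mem_inter.1 hTs
    obtain ⟨D₁, hD₁, hcD₁, hDW₁⟩ := cm_conf hW₁
    obtain ⟨D₂, hD₂, hcD₂, hDW₂⟩ := cm_conf hW₂
    obtain ⟨h3, h4, h5⟩ := cm_one hL hcD₁ hDW₁ hT
    obtain ⟨g3, g4, g5⟩ := cm_one hL hcD₂ hDW₂ hT'
    have e1 : T' ∉ D₁ := fun h => hn1 (by
      rw [← hDW₁]
      exact Finset.mem_sdiff.2 ⟨h, (cm_notMem hDW₂ hT').2⟩)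
    have e2 : T ∉ D₂ := fun h => hn2 (by
      rw [← hDW₂]
      exact Finset.mem_sdiff.2 ⟨h, (cm_notMem hDW₁ hT).2⟩)
    refine ⟨lft c RT hh D₁ {T} ∪ lft c RT hh D₂ {T'}, ?_, fun a => ?_, fun b hb => ?_⟩
    · classical
      unfold LE
      refine Finset.mem_filter.2 ⟨Finset.mem_univ _, D₁, hD₁, D₂, hD₂, Ts, _, _, (cm_notMem hDW₁ hT).1,
        (cm_notMem hDW₂ hT').1, e1, e2, h3, g3, (h4 Ts).2 ?_, (g4 Ts).2 ?_, rfl⟩
      · exact Finset.mem_erase.2 ⟨fun h => hn2 (h ▸ hTs₂), hTs₁⟩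
      · exact Finset.mem_erase.2 ⟨fun h => hn1 (h ▸ hTs₁), hTs₂⟩
    · rw [Finset.mem_union, Finset.mem_union, h4 a, g4 a]
    · rcases Finset.mem_union.1 hb with h | h
      · exact h5 b h
      · exact g5 b h

end F2
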