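import Pool.Agent.F2.SpecL2

/-!
# Project F2, row L23: degrees and thin configurations
-/

set_option autoImplicit false
set_option linter.unusedSectionVars false

namespace F2

open Finset NW F1
open Pool.Agent.F2 (HH GG Spread crude_le)

section

variable {V : Type} [Fintype V] [DecidableEq V]

theorem ct_rz_mem {c : ℕ} (RT : Finset (Tri V)) (hh : Tri V → (Fin (c + 2) → V))
    (h : Fin (c + 2) → V) : 0 ≤ rz c RT hh h ∧ rz c RT hh h ≤ 1 := by
  unfold rz
  split_ifs <;> norm_num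

theorem ct_yA_nonneg {c : ℕ} (RT : Finset (Tri V)) (hh : Tri V → (Fin (c + 2) → V)) {u : ℝ}
    (hu : 0 ≤ u) (a : Atom V c) : 0 ≤ yA c (fun _ => u) (rz c RT hh) a := by
  rcases a with T | h
  · exact hu
  · exact (ct_rz_mem RT hh h).1

theorem ct_yA_le {c : ℕ} (RT : Finset (Tri V)) (hh : Tri V → (Fin (c + 2) → V)) {u : ℝ}
    (hu : u ≤ 1) (a : Atom V c) : yA c (fun _ => u) (rz c RT hh) a ≤ 1 := by
  rcases a with T | h
  · exact hu
  · exact (ct_rz_mem RT hh h).2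

/-- the number of thin configurations -/
theorem ct_count (hl : LiftStatement) {c J k₂ : ℕ} (hc6 : 6 ≤ c) (hev : Even c)
    (E' : Finset (Sym2 V)) (RT : Finset (Tri V)) (hh : Tri V → (Fin (c + 2) → V))
    (hmem : ∀ r ∈ RT, hh r ∈ Pl c E' r) (hroot : ∀ r ∈ RT, Disjoint (NW.edg r.1) E')
    (hdis : ∀ r ∈ RT, ∀ r' ∈ RT, r ≠ r' → Disjoint (bE c (hh r)) (bE c (hh r')))
    (e : Sym2 V) (S0 𝒯 : Finset (Tri V)) {u r : ℝ} (hu0 : 0 ≤ u) (hu1 : u ≤ 1) (hr : 0 ≤ r)
    (hk : 1 ≤ k₂)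
    (hG : GG u (yA c (fun _ => u) (rz c RT hh)) (LT c J e S0) k₂ ≤ r ^ k₂)
    (hT : ∀ T ∈ 𝒯, T ∈ S0 ∧ e ∈ NW.edg T.1 ∧ ∃ D ∈ (triSys V J).conf, Cons c RT hh D ∧
      D \ allB c RT hh = {T}) : (𝒯.card : ℝ) * u ≤ r := by
  classical
  have h0 : ∀ T : Tri V, ∃ D : Finset (Tri V), T ∈ 𝒯 → D ∈ (triSys V J).conf ∧
      Cons c RT hh D ∧ D \ allB c RT hh = {T} := by
    intro T
    by_cases h : T ∈ 𝒯
    · obtain ⟨-, -, D, h1, h2, h3⟩ := hT T h
      exact ⟨D, fun _ => ⟨h1, h2, h3⟩⟩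
    · exact ⟨∅, fun h' => absurd h' h⟩
  choose D hD using h0
  have hmemD : ∀ T ∈ 𝒯, T ∈ D T ∧ T ∉ allB c RT hh := by
    intro T h
    have h1 : T ∈ D T \ allB c RT hh := by
      rw [(hD T h).2.2]
      exact mem_singleton_self T
    exact mem_sdiff.1 h1
  have hlift : ∀ T ∈ 𝒯, IsLift (D T \ {T}) (lft c RT hh (D T) {T}) ∧
      (∀ T', Sum.inl T' ∉ lft c RT hh (D T) {T}) ∧
      (∀ h, Sum.inr h ∈ lft c RT hh (D T) {T} → rz c RT hh h = 1) := by
    intro T h
    obtain ⟨h1, h2, h3⟩ := hl c hc6 hev V E' RT hh hmem hroot hdis (D T) {T} (hD T h).2.1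
      (singleton_subset_iff.2 (hmemD T h).1) (disjoint_singleton_left.2 (hmemD T h).2)
    refine ⟨h1, fun T' h4 => ?_, h3⟩
    have h5 := (h2 T').1 h4
    rw [mem_sdiff, mem_sdiff] at h5
    have h6 : T' ∈ D T \ allB c RT hh := mem_sdiff.2 ⟨h5.1.1, h5.2⟩
    rw [(hD T h).2.2] at h6
    exact h5.1.2 h6
  set UT : Tri V → Finset (Atom V c) := fun T => insert (Sum.inl T) (lft c RT hh (D T) {T})
    with hUT
  have hin : ∀ T ∈ 𝒯, UT T ∈ LT c J e S0 := by
    intro T h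
    obtain ⟨g1, g2, -⟩ := hT T h
    unfold LT
    rw [mem_filter]
    refine ⟨mem_univ _, D T, (hD T h).1, T, g1, (hmemD T h).1, g2, lft c RT hh (D T) {T},
      (hlift T h).1, fun a ha => ?_, rfl⟩
    rcases a with T' | h'
    · exact absurd ha ((hlift T h).2.1 T')
    · exact ⟨h', rfl⟩
  have hprod : ∀ T ∈ 𝒯, ∏ a ∈ UT T, yA c (fun _ => u) (rz c RT hh) a = u := by
    intro T h
    rw [hUT]
    show ∏ a ∈ insert (Sum.inl T) (lft c RT hh (D T) {T}), yA c (fun _ => u) (rz c RT hh) a = u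
    rw [prod_insert ((hlift T h).2.1 T)]
    have h1 : ∏ a ∈ lft c RT hh (D T) {T}, yA c (fun _ => u) (rz c RT hh) a = 1 := by
      refine prod_eq_one fun a ha => ?_
      rcases a with T' | h'
      · exact absurd ha ((hlift T h).2.1 T')
      · exact (hlift T h).2.2 h' ha
    rw [h1, mul_one]
    rfl
  have hinj : Set.InjOn UT (𝒯 : Set (Tri V)) := by
    intro T h T' h' heq
    have h1 : (Sum.inl T : Atom V c) ∈ UT T' := by
      rw [← heq]
      exact mem_insert_self _ _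
    rcases mem_insert.1 h1 with h2 | h2
    · exact Sum.inl_injective h2
    · exact absurd h2 ((hlift T' (mem_coe.1 h')).2.1 T)
  have hsum : ∑ U ∈ 𝒯.image UT, ∏ a ∈ U, yA c (fun _ => u) (rz c RT hh) a =
      (𝒯.card : ℝ) * u := by
    rw [sum_image hinj, sum_congr rfl hprod, sum_const, nsmul_eq_mul]
  rw [← hsum]
  refine crude_le (by omega) hr hu0 (ct_yA_nonneg RT hh hu0) (ct_yA_le RT hh hu1) ?_ ?_ hG
  · intro U hU
    obtain ⟨T, h, rfl⟩ := mem_image.1 hU
    exact hin T h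
  · intro U hU
    obtain ⟨T, h, rfl⟩ := mem_image.1 hU
    exact ⟨Sum.inl T, mem_insert_self _ _, le_rfl⟩

theorem ct_bE_sub {c : ℕ} {h : Fin (c + 2) → V} {e : Sym2 V} (he : e ∈ bE c h) :
    ∀ v ∈ e, v ∈ univ.image h := by
  intro v hv
  unfold bE at he
  obtain ⟨T, hT, he'⟩ := mem_biUnion.1 he
  unfold OFF at hT
  obtain ⟨f, -, hf⟩ := mem_image.1 (mem_filter.1 hT).2
  have h1 := (NW.mem_edg.1 he').1 v hv
  rw [← hf] at h1
  obtain ⟨x, -, hx⟩ := mem_image.1 h1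
  exact mem_image.2 ⟨x, mem_univ _, hx⟩

/-- the degrees of the new edges -/
theorem ct_deg {c : ℕ} (RT : Finset (Tri V)) (hh : Tri V → (Fin (c + 2) → V)) (v : V) :
    NW.deg (bEs c RT hh) v ≤
      (RT.filter (fun r => v ∈ univ.image (hh r))).card * (c + 2) := by
  unfold NW.deg
  have h1 : NW.nbr (bEs c RT hh) v ⊆
      (RT.filter (fun r => v ∈ univ.image (hh r))).biUnion (fun r => univ.image (hh r)) := by
    intro w hw
    rw [NW.mem_nbr] at hw
    unfold bEs at hw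
    obtain ⟨r, hr, he⟩ := mem_biUnion.1 hw
    have h2 := ct_bE_sub he
    refine mem_biUnion.2 ⟨r, mem_filter.2 ⟨hr, h2 v (Sym2.mem_mk_left _ _)⟩,
      h2 w (Sym2.mem_mk_right _ _)⟩
  refine (card_le_card h1).trans (card_biUnion_le_card_mul _ _ _ fun r _ => ?_)
  exact card_image_le.trans (by simp)

end

theorem consT (hl : LiftStatement) (hc : CleanStatement) : ConsTStatement := by
  intro c J k k₂ C s n₀ K θ ε hc6 hev hJ hK hk V _ _ E' A X RT hh hn₀ hB hS
  have hroot : ∀ r ∈ RT, Disjoint (NW.edg r.1) E' := by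
    intro r hr
    refine disjoint_left.2 fun e he he' => ?_
    rcases mem_union.1 (hB.root r hr he) with h | h
    · exact disjoint_left.1 hB.dA he' h
    · exact disjoint_left.1 hB.dX he' h
  obtain ⟨hdis, -⟩ := hc c J hc6 hev hJ V E' RT hh hS.mem hroot hS.bad
  have hn1 : 1 ≤ Fintype.card V := hn₀.trans hB.hn
  have hn : (1 : ℝ) ≤ (Fintype.card V : ℝ) := by exact_mod_cast hn1
  have hn0 : (0 : ℝ) < (Fintype.card V : ℝ) := by linarith
  have hpow : (Fintype.card V : ℝ) ^ (1 - θ / 2) =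
      (Fintype.card V : ℝ) * (Fintype.card V : ℝ) ^ (-(θ / 2)) := by
    rw [sub_eq_add_neg, Real.rpow_add hn0, Real.rpow_one]
  have hp0 : 0 ≤ (Fintype.card V : ℝ) ^ (-(θ / 2)) := Real.rpow_nonneg hn0.le _
  have hconf : ∀ (E : Finset (Sym2 V)) (T : Tri V), {T} ∈ (syT c J RT hh E X).conf →
      ∃ D ∈ (triSys V J).conf, Cons c RT hh D ∧ D \ allB c RT hh = {T} := by
    intro E T h
    have h1 : {T} ∈ rconf c J RT hh (triR E ∪ triV E X) := h
    unfold rconf at h1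
    simp only [mem_filter, mem_image] at h1
    obtain ⟨⟨D, ⟨h3, h4⟩, h2⟩, -⟩ := h1
    exact ⟨D, h3, h4, h2⟩
  refine ⟨fun v => ?_, fun e => ?_, fun e he => ?_⟩
  · have h1 := ct_deg RT hh v
    set Rv := RT.filter (fun r => v ∈ univ.image (hh r)) with hRv
    have hinj : Set.InjOn (fun r : Tri V => ({Sum.inr (hh r)} : Finset (Atom V c)))
        (Rv : Set (Tri V)) := by
      intro r hr r' hr' heq
      have h2 : (Sum.inr (hh r) : Atom V c) = Sum.inr (hh r') := singleton_injective heq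
      have h3 : hh r = hh r' := Sum.inr_injective h2
      have h4 := (mem_filter.1 (hS.mem r (mem_filter.1 (mem_coe.1 hr)).1)).2.2.1
      have h5 := (mem_filter.1 (hS.mem r' (mem_filter.1 (mem_coe.1 hr')).1)).2.2.1
      exact Subtype.ext (by rw [← h4, ← h5, h3])
    have hsum : ∑ U ∈ Rv.image (fun r : Tri V => ({Sum.inr (hh r)} : Finset (Atom V c))),
        ∏ a ∈ U, yA c (fun _ => 0) (rz c RT hh) a = (Rv.card : ℝ) := by
      rw [sum_image hinj]
      have h2 : ∀ r ∈ Rv, ∏ a ∈ ({Sum.inr (hh r)} : Finset (Atom V c)),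
          yA c (fun _ => 0) (rz c RT hh) a = 1 := by
        intro r hr
        rw [prod_singleton]
        show rz c RT hh (hh r) = 1
        unfold rz
        rw [if_pos (mem_image_of_mem hh (mem_filter.1 hr).1)]
      rw [sum_congr rfl h2, sum_const, nsmul_eq_mul, mul_one]
    have hc2 : (0 : ℝ) < (c : ℝ) + 2 := by positivity
    have h2 : (Rv.card : ℝ) ≤ (Fintype.card V : ℝ) ^ (1 - θ / 2) / (c + 2) := by
      rw [← hsum]
      refine crude_le (by omega) (by positivity) zero_le_one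
        (ct_yA_nonneg RT hh le_rfl) (ct_yA_le RT hh zero_le_one) ?_ ?_ (hS.gD v)
      · intro U hU
        obtain ⟨r, hr, rfl⟩ := mem_image.1 hU
        unfold LD
        exact mem_image.2 ⟨hh r, mem_filter.2 ⟨mem_univ _, (mem_filter.1 hr).2⟩, rfl⟩
      · intro U hU
        obtain ⟨r, hr, rfl⟩ := mem_image.1 hU
        exact ⟨Sum.inr (hh r), mem_singleton_self _, ct_yA_le RT hh zero_le_one _⟩
    rw [le_div_iff₀ hc2] at h2
    have h3 : (NW.deg (bEs c RT hh) v : ℝ) ≤ (Rv.card : ℝ) * (c + 2) := by exact_mod_cast h1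
    linarith
  · by_cases he : e ∈ E'
    · have h1 := ct_count hl (k₂ := k₂) hc6 hev E' RT hh hS.mem hroot hdis e univ
        ((triR (E' \ bEs c RT hh)).filter (fun T => e ∈ NW.edg T.1 ∧
          {T} ∈ (syT c J RT hh (E' \ bEs c RT hh) X).conf))
        (u := 1 / (Fintype.card V : ℝ)) (r := (Fintype.card V : ℝ) ^ (-(θ / 2)))
        (by positivity) (by rw [div_le_one hn0]; exact hn) hp0 hk (hS.gR e he)
        (fun T hT => ⟨mem_univ _, (mem_filter.1 hT).2.1, hconf _ T (mem_filter.1 hT).2.2⟩)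
      rw [hpow]
      rw [mul_one_div, div_le_iff₀ hn0] at h1
      linarith
    · have h1 : (triR (E' \ bEs c RT hh)).filter (fun T => e ∈ NW.edg T.1 ∧
          {T} ∈ (syT c J RT hh (E' \ bEs c RT hh) X).conf) = ∅ := by
        refine filter_eq_empty_iff.2 fun T hT h2 => he ?_
        exact (mem_sdiff.1 ((mem_filter.1 hT).2 h2.1)).1
      rw [h1]
      simp only [card_empty, Nat.cast_zero]
      exact Real.rpow_nonneg hn0.le _
  · have he' : e ∈ E' := (mem_sdiff.1 he).1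
    have hs0 : (0 : ℝ) ≤ (s : ℝ) ^ 2 / (Fintype.card V : ℝ) := by positivity
    have hs1 : (s : ℝ) ^ 2 / (Fintype.card V : ℝ) ≤ 1 := by
      have h2 := hS.u_le
      rw [div_le_one hn0] at h2 ⊢
      linarith
    have h1 := ct_count hl (k₂ := k₂) hc6 hev E' RT hh hS.mem hroot hdis e (triV E' X)
      ((triV (E' \ bEs c RT hh) X).filter (fun T => e ∈ NW.edg T.1 ∧
        {T} ∈ (syT c J RT hh (E' \ bEs c RT hh) X).conf))
      (u := (s : ℝ) ^ 2 / (Fintype.card V : ℝ)) (r := (Fintype.card V : ℝ) ^ (-(θ / 2)))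
      hs0 hs1 hp0 hk (hS.gV e he')
      (fun T hT => ⟨?_, (mem_filter.1 hT).2.1, hconf _ T (mem_filter.1 hT).2.2⟩)
    · rw [hpow]
      rw [mul_div_assoc', div_le_iff₀ hn0] at h1
      linarith
    · have h2 := (mem_filter.1 (mem_filter.1 hT).1).2
      have h3 : NW.edg T.1 ∩ E' = NW.edg T.1 ∩ (E' \ bEs c RT hh) := by
        ext f
        rw [mem_inter, mem_inter, mem_sdiff]
        refine ⟨fun h4 => ⟨h4.1, h4.2, fun h5 => ?_⟩, fun h4 => ⟨h4.1, h4.2.1⟩⟩
        have h6 : f ∈ NW.edg T.1 \ (E' \ bEs c RT hh) :=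
          mem_sdiff.2 ⟨h4.1, fun h7 => (mem_sdiff.1 h7).2 h5⟩
        exact disjoint_left.1 hB.dX h4.2 (h2.2 h6)
      unfold triV
      rw [mem_filter]
      refine ⟨mem_univ _, ?_, fun f hf => ?_⟩
      · rw [h3]
        exact h2.1
      · refine h2.2 (mem_sdiff.2 ⟨(mem_sdiff.1 hf).1, fun h7 => ?_⟩)
        exact (mem_sdiff.1 hf).2 (mem_sdiff.1 h7).1

end F2
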