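import Pool.Agent.F2.SpecL2

/-!
# Project F2, block L, row L22: the consequences `hY` and `hF` of `Sel`
-/

set_option autoImplicit false
set_option linter.unusedSectionVars false

namespace F2

open Finset NW F1
open Pool.Agent.F2 (HH GG Spread)

namespace ConsY

/-- products over a set of atoms whose right part has weights `1` -/
theorem prod_sum_one {α γ : Type} [DecidableEq α] [DecidableEq γ] (y' : α ⊕ γ → ℝ) (U : Finset α)
    (W : Finset (α ⊕ γ)) (h1 : ∀ a, Sum.inl a ∈ W ↔ a ∈ U)
    (h2 : ∀ b, Sum.inr b ∈ W → y' (Sum.inr b) = 1) :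
    ∏ a ∈ W, y' a = ∏ a ∈ U, y' (Sum.inl a) := by
  have h3 : W.toLeft = U := by
    ext a
    rw [Finset.mem_toLeft]
    exact h1 a
  have h4 : W = W.toLeft.disjSum W.toRight := (Finset.toLeft_disjSum_toRight).symm
  rw [h4, Finset.prod_disjSum, h3, Finset.prod_eq_one (s := W.toRight), mul_one]
  intro b hb
  exact h2 b (Finset.mem_toRight.1 hb)

/-- summing over sets through their lifts -/
theorem sum_lift {α γ : Type} [DecidableEq α] [DecidableEq γ] (e : ℝ) (y' : α ⊕ γ → ℝ)
    (f : Finset α → ℝ) (g : Finset α → Finset α)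
    (UU : Finset (Finset α)) (LL : Finset (Finset (α ⊕ γ))) (k : ℕ) (r : ℝ) (hk : k ≠ 0)
    (hr : 0 ≤ r) (he : 0 ≤ e) (hy : ∀ a, 0 ≤ y' a) (hy1 : ∀ a, y' a ≤ 1)
    (hinj : ∀ U ∈ UU, ∀ U' ∈ UU, g U = g U' → U = U')
    (hne : ∀ U ∈ UU, (g U).Nonempty)
    (hye : ∀ a, y' (Sum.inl a) ≤ e)
    (hf : ∀ U ∈ UU, f U ≤ ∏ a ∈ g U, y' (Sum.inl a))
    (hL : ∀ U ∈ UU, ∃ W ∈ LL, (∀ a, Sum.inl a ∈ W ↔ a ∈ g U) ∧
      ∀ b, Sum.inr b ∈ W → y' (Sum.inr b) = 1)
    (hG : GG e y' LL k ≤ r ^ k) : ∑ U ∈ UU, f U ≤ r := by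
  classical
  choose! F hF1 hF2 hF3 using hL
  have h1 : ∑ U ∈ UU, f U ≤ ∑ U ∈ UU, ∏ a ∈ F U, y' a := by
    refine Finset.sum_le_sum fun U hU => ?_
    rw [prod_sum_one y' (g U) (F U) (hF2 U hU) (hF3 U hU)]
    exact hf U hU
  have h2 : ∑ U ∈ UU, ∏ a ∈ F U, y' a = ∑ W ∈ UU.image F, ∏ a ∈ W, y' a := by
    rw [Finset.sum_image]
    intro U hU U' hU' h
    refine hinj U hU U' hU' ?_
    ext a
    rw [← hF2 U hU a, ← hF2 U' hU' a, h]
  rw [h2] at h1
  refine h1.trans (Pool.Agent.F2.crude_le (UU := LL) (e := e) hk hr he hy hy1 ?_ ?_ hG)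
  · intro W hW
    obtain ⟨U, hU, rfl⟩ := Finset.mem_image.1 hW
    exact hF1 U hU
  · intro W hW
    obtain ⟨U, hU, rfl⟩ := Finset.mem_image.1 hW
    obtain ⟨a, ha⟩ := hne U hU
    exact ⟨Sum.inl a, (hF2 U hU a).2 ha, hye a⟩

theorem edg_ne {V : Type} [Fintype V] [DecidableEq V] (T : Tri V) : (NW.edg T.1).Nonempty := by
  have h3 : T.1.card = 3 := T.2
  have h1 : 1 < T.1.card := by omega
  obtain ⟨a, ha, b, hb, hab⟩ := Finset.one_lt_card.1 h1
  refine ⟨s(a, b), ?_⟩
  unfold NW.edg
  rw [Finset.mem_filter]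
  refine ⟨Finset.mk_mem_sym2_iff.2 ⟨ha, hb⟩, ?_⟩
  rw [Sym2.mk_isDiag_iff]
  exact hab

end ConsY

open ConsY in
theorem consY (hl : LiftStatement) (hc : CleanStatement) (hs : TriSumStatement) :
    ConsYStatement := by
  classical
  intro J K hK
  obtain ⟨K₂, hK₂, hts⟩ := hs J K hK
  refine ⟨K₂ + 1, by linarith, ?_⟩
  intro c k k₂ C s n₀ θ ε hc6 hce hJc hk₂ V _ _ E' A X RT hh hn₀ hB hS
  -- basic facts
  have hn1 : 1 ≤ Fintype.card V := hn₀.trans hB.hn
  have hn0 : (0 : ℝ) < Fintype.card V := by exact_mod_cast hn1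
  have hroot : ∀ r ∈ RT, Disjoint (NW.edg r.1) E' := by
    intro r hr
    refine Finset.disjoint_left.2 fun e he hE => ?_
    rcases Finset.mem_union.1 (hB.root r hr he) with h | h
    · exact Finset.disjoint_left.1 hB.dA hE h
    · exact Finset.disjoint_left.1 hB.dX hE h
  obtain ⟨hdisj, hclean⟩ := hc c J hc6 hce hJc V E' RT hh hS.mem hroot hS.bad
  have hlift := hl c hc6 hce V E' RT hh hS.mem hroot hdisj
  have hrz0 : ∀ h, 0 ≤ rz c RT hh h := by
    intro h
    unfold rz
    split_ifs <;> norm_num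
  have hrz1 : ∀ h, rz c RT hh h ≤ 1 := by
    intro h
    unfold rz
    split_ifs <;> norm_num
  have hu := hS.u_le
  have hu' : 2 * K / (Fintype.card V : ℝ) ≤ 1 := by
    refine le_trans ?_ hu
    gcongr
    have : (0 : ℝ) ≤ (s : ℝ) ^ 2 := by positivity
    linarith
  have hconf : ∀ U ∈ (syT c J RT hh (E' \ bEs c RT hh) X).conf,
      ∃ D ∈ (triSys V J).conf, Cons c RT hh D ∧ U = D \ allB c RT hh ∧ U.Nonempty := by
    intro U hU
    have hU' : U ∈ rconf c J RT hh (triR (E' \ bEs c RT hh) ∪ triV (E' \ bEs c RT hh) X) := hU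
    unfold rconf at hU'
    rw [Finset.mem_filter, Finset.mem_image] at hU'
    obtain ⟨⟨D, hD, rfl⟩, hne, _⟩ := hU'
    rw [Finset.mem_filter] at hD
    exact ⟨D, hD.1, hD.2, rfl, hne⟩
  constructor
  · -- `hY`
    intro T hT
    have hTE : ¬ Disjoint (NW.edg T.1) E' := by
      rw [Finset.not_disjoint_iff]
      rcases Finset.mem_union.1 hT with h | h
      · have h1 := (Finset.mem_filter.1 h).2
        obtain ⟨e, he⟩ := edg_ne T
        exact ⟨e, he, (Finset.mem_sdiff.1 (h1 he)).1⟩
      · have h1 := (Finset.mem_filter.1 h).2.1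
        have h2 : (NW.edg T.1 ∩ (E' \ bEs c RT hh)).Nonempty := by
          rw [← Finset.card_pos]
          omega
        obtain ⟨e, he⟩ := h2
        rw [Finset.mem_inter, Finset.mem_sdiff] at he
        exact ⟨e, he.1, he.2.1⟩
    have hpos : 0 ≤ 2 * K / (Fintype.card V : ℝ) := by positivity
    rw [← Finset.sum_filter_add_sum_filter_not _ (fun U => U ∈ (triSys V J).conf)]
    refine add_le_add ?_ ?_
    · refine le_trans ?_ (hts V T hn1)
      refine Finset.sum_le_sum_of_subset_of_nonneg ?_ fun U _ _ => pow_nonneg hpos _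
      intro U hU
      rw [Finset.mem_filter, Finset.mem_filter] at hU
      exact Finset.mem_filter.2 ⟨hU.2, hU.1.2.1⟩
    · have hG := hS.gY T hTE
      refine sum_lift (γ := Fin (c + 2) → V) (2 * K / Fintype.card V)
        (yA c (fun _ => 2 * K / Fintype.card V) (rz c RT hh))
        (fun U => (2 * K / Fintype.card V) ^ (U.card - 1)) (fun U => U.erase T) _ (LY c J T) k₂ 1
        (by omega) zero_le_one hpos ?_ ?_ ?_ ?_ ?_ ?_ ?_ ?_
      · rintro (a | a)
        · exact hpos
        · exact hrz0 a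
      · rintro (a | a)
        · exact hu'
        · exact hrz1 a
      · intro U hU U' hU' h
        rw [Finset.mem_filter, Finset.mem_filter] at hU hU'
        have h1 : insert T (U.erase T) = insert T (U'.erase T) := by
          rw [h]
        rwa [Finset.insert_erase hU.1.2.1, Finset.insert_erase hU'.1.2.1] at h1
      · intro U hU
        rw [Finset.mem_filter, Finset.mem_filter] at hU
        have h1 := hU.1.2.1
        have h2 := hU.1.2.2.1
        rw [Finset.nonempty_iff_ne_empty]
        intro h3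
        rw [Finset.erase_eq_empty_iff] at h3
        rcases h3 with h3 | h3
        · rw [h3] at h1
          exact absurd h1 (Finset.notMem_empty T)
        · exact h2 h3
      · intro a
        exact le_rfl
      · intro U hU
        rw [Finset.mem_filter, Finset.mem_filter] at hU
        have h1 : ∀ a ∈ U.erase T, yA c (fun _ => 2 * K / Fintype.card V) (rz c RT hh)
            (Sum.inl a) = 2 * K / Fintype.card V := fun a _ => rfl
        rw [Finset.prod_congr rfl h1, Finset.prod_const, Finset.card_erase_of_mem hU.1.2.1]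
      · intro U hU
        rw [Finset.mem_filter, Finset.mem_filter] at hU
        obtain ⟨⟨hU1, hU2, hU3, hU4⟩, hU5⟩ := hU
        obtain ⟨D, hD, hD2, hD3, hD4⟩ := hconf U hU1
        have hTD : T ∈ D \ allB c RT hh := hD3 ▸ hU2
        rw [Finset.mem_sdiff] at hTD
        obtain ⟨l1, l2, l3⟩ := hlift D {T} hD2 (Finset.singleton_subset_iff.2 hTD.1)
          (Finset.disjoint_singleton_left.2 hTD.2)
        have l2' : ∀ a, Sum.inl a ∈ lft c RT hh D {T} ↔ a ∈ U.erase T := by
          intro a
          have h1 : a ∈ U ↔ a ∈ D ∧ a ∉ allB c RT hh := by rw [hD3, Finset.mem_sdiff]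
          rw [l2 a, Finset.mem_sdiff, Finset.mem_sdiff, Finset.mem_singleton, Finset.mem_erase, h1]
          constructor
          · rintro ⟨⟨h2, h3⟩, h4⟩
            exact ⟨h3, h2, h4⟩
          · rintro ⟨h3, h2, h4⟩
            exact ⟨⟨h2, h3⟩, h4⟩
        refine ⟨lft c RT hh D {T}, ?_, l2', ?_⟩
        · unfold LY
          rw [Finset.mem_filter]
          refine ⟨Finset.mem_univ _, ⟨D, hD, hTD.1, l1⟩, ?_, ?_⟩
          · have h1 : ∃ T' ∈ D, T' ∈ allB c RT hh := by
              by_contra hcon
              push Not at hcon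
              apply hU5
              have h2 : D \ allB c RT hh = D := by
                rw [Finset.sdiff_eq_self_iff_disjoint, Finset.disjoint_left]
                exact hcon
              rw [hD3, h2]
              exact hD
            obtain ⟨T', hT', hT'2⟩ := h1
            unfold allB at hT'2
            rw [Finset.mem_biUnion] at hT'2
            obtain ⟨r, hr, hr2⟩ := hT'2
            refine ⟨hh r, ?_⟩
            unfold lft
            rw [Finset.mem_union]
            right
            rw [Finset.mem_image]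
            refine ⟨r, ?_, rfl⟩
            rw [Finset.mem_filter]
            exact ⟨hr, T', Finset.mem_inter.2 ⟨hr2, hT'⟩⟩
          · have h1 : (U.erase T).Nonempty := by
              rw [Finset.nonempty_iff_ne_empty]
              intro h3
              rw [Finset.erase_eq_empty_iff] at h3
              rcases h3 with h3 | h3
              · rw [h3] at hU2
                exact absurd hU2 (Finset.notMem_empty T)
              · exact hU3 h3
            obtain ⟨T', hT'⟩ := h1
            exact ⟨T', (l2' T').2 hT'⟩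
        · intro b hb
          exact l3 b hb
      · rw [one_pow]
        exact hG
  · -- `hF`
    intro e he
    have hG := hS.gF e
    have hpos : 0 ≤ (2 * K + (s : ℝ) ^ 2) / (Fintype.card V : ℝ) := by positivity
    refine sum_lift (γ := Fin (c + 2) → V) 1
        (yA c (fun _ => (2 * K + s ^ 2) / Fintype.card V) (rz c RT hh))
        (fun U => ∏ T ∈ U, (syT c J RT hh (E' \ bEs c RT hh) X).y0 (fun _ => K / Fintype.card V)
          (s ^ 2 / Fintype.card V) T) (fun U => U) _ (LF c J e) k₂
        ((Fintype.card V : ℝ) ^ (3 * J * θ))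
        (by omega) (by positivity) zero_le_one ?_ ?_ ?_ ?_ ?_ ?_ ?_ hG
    · rintro (a | a)
      · exact hpos
      · exact hrz0 a
    · rintro (a | a)
      · exact hu
      · exact hrz1 a
    · intro U _ U' _ h
      exact h
    · intro U hU
      unfold Sy.fF at hU
      rw [Finset.mem_filter] at hU
      obtain ⟨D, _, _, _, hD4⟩ := hconf U hU.1
      exact hD4
    · intro a
      exact hu
    · intro U hU
      refine Finset.prod_le_prod ?_ ?_
      · intro a _
        unfold Sy.y0
        split_ifs <;> positivity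
      · intro a _
        show Sy.y0 _ _ _ a ≤ (2 * K + (s : ℝ) ^ 2) / (Fintype.card V : ℝ)
        unfold Sy.y0
        split_ifs
        · rw [← mul_div_assoc]
          gcongr
          have : (0 : ℝ) ≤ (s : ℝ) ^ 2 := by positivity
          linarith
        · gcongr
          linarith
        · exact hpos
    · intro U hU
      unfold Sy.fF at hU
      rw [Finset.mem_filter] at hU
      obtain ⟨hU1, _, o, ho, heo⟩ := hU
      obtain ⟨D, hD, hD2, hD3, hD4⟩ := hconf U hU1
      obtain ⟨l1, l2, l3⟩ := hlift D ∅ hD2 (Finset.empty_subset _)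
        (Finset.disjoint_empty_left _)
      rw [Finset.sdiff_empty] at l1 l2
      refine ⟨lft c RT hh D ∅, ?_, ?_, ?_⟩
      · unfold LF
        rw [Finset.mem_filter]
        refine ⟨Finset.mem_univ _, D, hD, ⟨o, ?_, ?_⟩, l1⟩
        · have h1 := (Finset.mem_inter.1 ho).1
          rw [hD3, Finset.mem_sdiff] at h1
          exact h1.1
        · have h1 : e ∈ NW.edg o.1 ∩ (E' \ bEs c RT hh) := heo
          exact (Finset.mem_inter.1 h1).1
      · intro a
        rw [l2, hD3]
      · intro b hb
        exact l3 b hb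

end F2
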