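import Pool.Agent.F2.SpecL2

/-!
# Project F2, block L, row L5: moments of lifted families
-/

set_option autoImplicit false
set_option linter.unusedSectionVars false

namespace F2

open Finset NW F1
open Pool.Agent.F2 (HH GG HH_zero HH_succ HH_nonneg)

private theorem ggl_HH {α γ : Type} [DecidableEq α] [DecidableEq γ] (e : ℝ) (y : α → ℝ)
    (y' : α ⊕ γ → ℝ) (UU : Finset (Finset α)) (LL : Finset (Finset (α ⊕ γ))) (he : 0 ≤ e)
    (he1 : e ≤ 1) (hy : ∀ a, 0 ≤ y a) (hy' : ∀ b, 0 ≤ y' b) (hyy : ∀ a, y a ≤ y' (Sum.inl a))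
    (φ : Finset α → Finset (α ⊕ γ)) (hφ : ∀ U ∈ UU, φ U ∈ LL)
    (hφl : ∀ U ∈ UU, ∀ a, Sum.inl a ∈ φ U ↔ a ∈ U)
    (hφr : ∀ U ∈ UU, ∀ b, Sum.inr b ∈ φ U → y' (Sum.inr b) = 1) (k : ℕ) :
    ∀ (P : Finset α) (Q : Finset (α ⊕ γ)), (∀ a, Sum.inl a ∈ Q ↔ a ∈ P) →
      (∀ b, Sum.inr b ∈ Q → y' (Sum.inr b) = 1) → HH e y UU k P ≤ HH e y' LL k Q := by
  induction k with
  | zero =>
    intro P Q hP hQ
    rw [HH_zero, HH_zero]
    have hsub : P.image Sum.inl ⊆ Q := by
      intro q hq
      obtain ⟨a, ha, rfl⟩ := mem_image.1 hq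
      exact (hP a).2 ha
    rw [← prod_sdiff hsub]
    have h1 : ∏ q ∈ Q \ P.image Sum.inl, y' q = 1 := by
      apply prod_eq_one
      intro q hq
      obtain ⟨hq1, hq2⟩ := mem_sdiff.1 hq
      rcases q with a | b
      · exact absurd (mem_image_of_mem Sum.inl ((hP a).1 hq1)) hq2
      · exact hQ b hq1
    rw [h1, one_mul, prod_image (fun a _ b _ h => Sum.inl_injective h)]
    exact prod_le_prod (fun a _ => hy a) (fun a _ => hyy a)
  | succ k ih =>
    intro P Q hP hQ
    rw [HH_succ, HH_succ]
    have hinj : ∀ U ∈ UU, ∀ U' ∈ UU, φ U = φ U' → U = U' := by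
      intro U hU U' hU' h
      ext a
      rw [← hφl U hU a, ← hφl U' hU' a, h]
    have h0 : ∀ W : Finset (α ⊕ γ), 0 ≤ (if W ⊆ Q then e else 1) * HH e y' LL k (Q ∪ W) := by
      intro W
      refine mul_nonneg ?_ (HH_nonneg he hy' k _)
      split_ifs
      · exact he
      · exact zero_le_one
    calc ∑ U ∈ UU, (if U ⊆ P then e else 1) * HH e y UU k (P ∪ U)
        ≤ ∑ U ∈ UU, (if φ U ⊆ Q then e else 1) * HH e y' LL k (Q ∪ φ U) := by
          refine sum_le_sum fun U hU => mul_le_mul ?_ ?_ (HH_nonneg he hy k _) ?_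
          · by_cases h1 : U ⊆ P
            · rw [if_pos h1]
              split_ifs
              · exact le_rfl
              · exact he1
            · have h2 : ¬ φ U ⊆ Q := by
                intro h2
                apply h1
                intro a ha
                exact (hP a).1 (h2 ((hφl U hU a).2 ha))
              rw [if_neg h1, if_neg h2]
          · apply ih
            · intro a
              rw [mem_union, mem_union, hP a, hφl U hU a]
            · intro b hb
              rcases mem_union.1 hb with h1 | h1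
              · exact hQ b h1
              · exact hφr U hU b h1
          · split_ifs
            · exact he
            · exact zero_le_one
      _ = ∑ W ∈ UU.image φ, (if W ⊆ Q then e else 1) * HH e y' LL k (Q ∪ W) := by
          rw [sum_image hinj]
      _ ≤ ∑ W ∈ LL, (if W ⊆ Q then e else 1) * HH e y' LL k (Q ∪ W) := by
          refine sum_le_sum_of_subset_of_nonneg ?_ fun W _ _ => h0 W
          intro W hW
          obtain ⟨U, hU, rfl⟩ := mem_image.1 hW
          exact hφ U hU

theorem gg_lift : GGLiftStatement := by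
  intro α γ _ _ e y y' UU LL k he he1 hy hy' hyy hUU
  choose! φ hφ using hUU
  exact ggl_HH e y y' UU LL he he1 hy hy' hyy φ (fun U hU => (hφ U hU).1)
    (fun U hU => (hφ U hU).2.1) (fun U hU => (hφ U hU).2.2) k ∅ ∅ (by simp) (by simp)

end F2
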