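import Pool.Agent.F2.SpecL2

/-!
# Project F2, row L4: selection with moments
-/

set_option autoImplicit false

namespace F2

open Finset NW F1
open Pool.Agent.F2 (HH GG Spread HH_zero HH_succ)

/-- the moments are polynomials in the weights of the placements -/
theorem msel_expand {α γ : Type} [DecidableEq α] [DecidableEq γ] [Fintype γ] (e : ℝ)
    (yτ : α → ℝ) (he : 0 ≤ e) (hy : ∀ a, 0 ≤ yτ a) (UU : Finset (Finset (α ⊕ γ))) (m : ℕ)
    (k : ℕ) : ∀ (P : Finset (α ⊕ γ)), (k ≠ 0 → ∀ U ∈ UU, U.card ≤ m) →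
    ∃ q : Finset γ → ℝ, (∀ W, 0 ≤ q W) ∧ (∀ W, q W ≠ 0 → W.card ≤ P.card + k * m) ∧
      ∀ yb : γ → ℝ, HH e (Sum.elim yτ yb) UU k P = ∑ W : Finset γ, q W * ∏ h ∈ W, yb h := by
  classical
  induction k with
  | zero =>
    intro P _
    refine ⟨fun W => if W = P.toRight then ∏ a ∈ P.toLeft, yτ a else 0, fun W => ?_,
      fun W hW => ?_, fun yb => ?_⟩
    · show 0 ≤ (if W = P.toRight then ∏ a ∈ P.toLeft, yτ a else 0)
      split_ifs
      · exact Finset.prod_nonneg fun a _ => hy a
      · exact le_rfl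
    · have h1 : W = P.toRight := by
        by_contra h
        exact hW (if_neg h)
      rw [h1]
      have := Finset.card_toLeft_add_card_toRight (u := P)
      omega
    · rw [HH_zero]
      rw [Finset.sum_eq_single P.toRight]
      · beta_reduce
        rw [if_pos rfl]
        conv_lhs => rw [← Finset.toLeft_disjSum_toRight (u := P)]
        rw [Finset.prod_disjSum]
        rfl
      · intro W _ hW
        beta_reduce
        rw [if_neg hW, zero_mul]
      · intro h
        exact absurd (Finset.mem_univ _) h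
  | succ k ih =>
    intro P hU
    have hU' := hU (Nat.succ_ne_zero k)
    choose q hq0 hqc hq using fun U : Finset (α ⊕ γ) => ih (P ∪ U) (fun _ => hU')
    refine ⟨fun W => ∑ U ∈ UU, (if U ⊆ P then e else 1) * q U W, fun W => ?_, fun W hW => ?_,
      fun yb => ?_⟩
    · refine Finset.sum_nonneg fun U _ => mul_nonneg ?_ (hq0 U W)
      split_ifs
      · exact he
      · exact zero_le_one
    · obtain ⟨U, hUU, hne⟩ := Finset.exists_ne_zero_of_sum_ne_zero hW
      have h1 : q U W ≠ 0 := right_ne_zero_of_mul hne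
      have h2 := hqc U W h1
      have h3 := Finset.card_union_le P U
      have h4 := hU' U hUU
      have h5 : (k + 1) * m = k * m + m := by ring
      omega
    · rw [HH_succ]
      simp only [Finset.sum_mul]
      rw [Finset.sum_comm]
      refine Finset.sum_congr rfl fun U _ => ?_
      rw [hq U yb, Finset.mul_sum]
      exact Finset.sum_congr rfl fun W _ => by ring

/-- row L4 -/
theorem mselect (h : BSelectStatement) : MSelectStatement := by
  classical
  intro L c V _ _ E RT 𝔅 ϱ _ yτ e a k FF hL hP h𝔅 hFF hyτ he ha hbad hsum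
  have hexp := fun i : ϱ => msel_expand (γ := Fin (c + 2) → V) (e i) (yτ i) (he i) (hyτ i)
    (FF i) (L / k i) (k i) ∅ (fun hk U hU => (Nat.le_div_iff_mul_le (Nat.pos_of_ne_zero hk)).2
      (by rw [mul_comm]; exact hFF i U hU))
  choose q hq0 hqc hq using hexp
  have hqL : ∀ i W, q i W ≠ 0 → W.card ≤ L := by
    intro i W hW
    have h1 := hqc i W hW
    have h2 := Nat.mul_div_le L (k i)
    rw [Finset.card_empty, zero_add] at h1
    exact h1.trans h2
  have key : ∀ yb : (Fin (c + 2) → V) → ℝ,
      ∑ p : ϱ × Finset (Fin (c + 2) → V), (a p.1 * q p.1 p.2) *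
        ∏ x ∈ (if p.2.card ≤ L then p.2 else ∅), yb x =
      ∑ i, a i * GG (e i) (yA c (yτ i) yb) (FF i) (k i) := by
    intro yb
    rw [Fintype.sum_prod_type]
    refine Finset.sum_congr rfl fun i _ => ?_
    have h1 : GG (e i) (yA c (yτ i) yb) (FF i) (k i) =
        HH (e i) (Sum.elim (yτ i) yb) (FF i) (k i) ∅ := rfl
    rw [h1, hq i yb, Finset.mul_sum]
    refine Finset.sum_congr rfl fun W _ => ?_
    by_cases hW : q i W = 0
    · simp only [hW, mul_zero, zero_mul]
    · simp only [if_pos (hqL i W hW)]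
      ring
  obtain ⟨hh, h1, h2, h3⟩ := h L c V E RT 𝔅 (ϱ × Finset (Fin (c + 2) → V))
    (fun p => a p.1 * q p.1 p.2) (fun p => if p.2.card ≤ L then p.2 else ∅) hL hP h𝔅
    (fun p => by
      show (if p.2.card ≤ L then p.2 else ∅).card ≤ L
      split_ifs with hc
      · exact hc
      · simp) (fun p => mul_nonneg (ha _) (hq0 _ _)) hbad (by
      rw [key]
      exact hsum)
  refine ⟨hh, h1, h2, ?_⟩
  rw [key] at h3
  exact h3

end F2
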