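import Pool.Agent.F2.SpecL2

/-!
# Project F2, row L10: the families `LA`, `LA'` are spread
-/

set_option autoImplicit false
set_option linter.unusedSectionVars false

namespace F2

open Finset NW F1
open Pool.Agent.F2 (HH GG Spread)

/-- grouping by the difference with `P` -/
theorem spa_group {α : Type} [DecidableEq α] (𝒰 : Finset (Finset α)) (P : Finset α)
    (f : Finset α → ℝ) (hf : ∀ W, 0 ≤ f W) :
    ∑ U ∈ 𝒰, f (U \ P) ≤ 2 ^ P.card * ∑ W ∈ 𝒰.image (fun U => U \ P), f W := by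
  classical
  rw [← Finset.sum_fiberwise_of_maps_to (t := 𝒰.image (fun U => U \ P)) (g := fun U => U \ P)
    (fun U hU => Finset.mem_image_of_mem _ hU), Finset.mul_sum]
  refine Finset.sum_le_sum fun W _ => ?_
  have h1 : ∀ U ∈ 𝒰.filter (fun U => U \ P = W), f (U \ P) = f W := fun U hU => by
    rw [(Finset.mem_filter.1 hU).2]
  rw [Finset.sum_congr rfl h1, Finset.sum_const, nsmul_eq_mul]
  refine mul_le_mul_of_nonneg_right ?_ (hf W)
  have h2 : (𝒰.filter (fun U => U \ P = W)).card ≤ P.powerset.card := by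
    refine Finset.card_le_card_of_injOn (fun U => U ∩ P) ?_ ?_
    · intro U _
      exact Finset.mem_coe.2 (Finset.mem_powerset.2 Finset.inter_subset_right)
    · intro U hU U' hU' h
      have a := (Finset.mem_filter.1 (Finset.mem_coe.1 hU)).2
      have b := (Finset.mem_filter.1 (Finset.mem_coe.1 hU')).2
      have h' : U ∩ P = U' ∩ P := h
      rw [← Finset.sdiff_union_inter U P, ← Finset.sdiff_union_inter U' P, a, b, h']
  rw [Finset.card_powerset] at h2
  exact_mod_cast h2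

section SpA

variable {V : Type} [Fintype V] [DecidableEq V] {c : ℕ}

theorem spa_card {D : Finset (Tri V)} {U : Finset (Atom V c)} (h : IsLift D U) :
    U.card ≤ D.card := by
  classical
  have h1 : ∀ a ∈ U, ∃ T, T ∈ D ∧ T ∈ fa a := by
    intro a ha
    obtain ⟨T, hT⟩ := h.used a ha
    rw [Finset.mem_inter] at hT
    exact ⟨T, hT.2, hT.1⟩
  rcases U.eq_empty_or_nonempty with rfl | ⟨a₀, ha₀⟩
  · simp
  have : Nonempty (Tri V) := ⟨(h1 a₀ ha₀).choose⟩
  choose! f hf using h1
  exact Finset.card_le_card_of_injOn f (fun a ha => (hf a ha).1) (fun a ha b hb hab =>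
    h.uniq (f a) (hf a ha).1 a ha b hb (hf a ha).2 (by rw [hab]; exact (hf b hb).2))

theorem spa_av (hc : 1 ≤ c) (a : Atom V c) : (av a).card ≤ c + 2 := by
  cases a with
  | inl T =>
    show T.1.card ≤ c + 2
    rw [T.2]
    omega
  | inr h =>
    show (univ.image h).card ≤ c + 2
    exact Finset.card_image_le.trans (by simp)

theorem spa_vP (hc : 1 ≤ c) (P : Finset (Atom V c)) : (vP P).card ≤ P.card * (c + 2) :=
  Finset.card_biUnion_le_card_mul P av (c + 2) fun a _ => spa_av hc a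

theorem spa_core (hb : BasicStatement) {J : ℕ} (h6 : 6 ≤ c) (hev : Even c) (hJ : J < c)
    {y : Atom V c → ℝ} {F : Finset V} {P : Finset (Atom V c)} (hy : ∀ a, 0 ≤ y a)
    (hP : vP P ⊆ F) {m : ℕ} {R : ℝ}
    (hsum : ∀ 𝒰 : Finset (Finset (Atom V c)), (∀ U ∈ 𝒰, U.card ≤ m) →
      (∀ U ∈ 𝒰, (∀ a ∈ U, y a ≠ 0) → ∃ l : List (Atom V c), l.Nodup ∧ l.toFinset = U ∧
        exL F l ≤ -((1 : ℕ) : ℤ)) → ∑ U ∈ 𝒰, ∏ a ∈ U, y a ≤ R)
    (𝒰 : Finset (Finset (Atom V c)))
    (h𝒰 : ∀ U ∈ 𝒰, ¬ U ⊆ P ∧ ∃ D Z, D ∈ (triSys V J).conf ∧ Z ⊆ D ∧ IsLift (D \ Z) U ∧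
      vs Z ⊆ F ∧ (D \ Z).card ≤ m ∧ 2 ≤ (knw D Z U P).card) :
    ∑ U ∈ 𝒰, ∏ a ∈ U \ P, y a ≤ 2 ^ P.card * R := by
  classical
  refine (spa_group 𝒰 P (fun W => ∏ a ∈ W, y a)
    (fun W => Finset.prod_nonneg fun a _ => hy a)).trans ?_
  refine mul_le_mul_of_nonneg_left (hsum _ ?_ ?_) (by positivity)
  · intro W hW
    obtain ⟨U, hU, rfl⟩ := Finset.mem_image.1 hW
    obtain ⟨-, D, Z, -, -, h3, -, h5, -⟩ := h𝒰 U hU
    exact (Finset.card_le_card Finset.sdiff_subset).trans ((spa_card h3).trans h5)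
  · intro W hW _
    obtain ⟨U, hU, rfl⟩ := Finset.mem_image.1 hW
    obtain ⟨hn, D, Z, h1, h2, h3, h4, -, h7⟩ := h𝒰 U hU
    refine ⟨(U \ P).toList, Finset.nodup_toList _, Finset.toList_toFinset _, ?_⟩
    have h8 := hb c J h6 hev hJ V D Z U P F (U \ P).toList h1 h2 h3 h4 hP
      (Finset.nodup_toList _) (Finset.toList_toFinset _)
    have h9 := h8.2.2.2 h7 (by
      rw [ne_eq, Finset.sdiff_eq_empty_iff_subset]
      exact hn)
    exact_mod_cast h9

theorem spa_wb {C s : ℕ} {B u : ℝ} {E : Finset (Sym2 V)} {RT : Finset (Tri V)}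
    {yb : (Fin (c + 2) → V) → ℝ} (hY : YBound c C s B E RT yb) (hu : 0 ≤ u)
    (huB : u ≤ B / Fintype.card V) : WBound B RT (yA c (fun _ : Tri V => u) yb) where
  nonneg a := by
    cases a with
    | inl T => exact hu
    | inr h => exact hY.nonneg h
  tri _ := huB
  boo h := hY.boo h
  inj h := hY.inj h
  root h := hY.root h

theorem spa_knw {D Z : Finset (Tri V)} {U P : Finset (Atom V c)} {T T' : Tri V} (hTT : T ≠ T')
    (h1 : T ∈ Z) (h2 : T' ∈ Z ∨ (T' ∈ D ∧ Sum.inl T' ∈ U ∧ Sum.inl T' ∈ P)) :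
    2 ≤ (knw D Z U P).card := by
  classical
  have h3 : ({T, T'} : Finset (Tri V)) ⊆ knw D Z U P := by
    intro S hS
    rw [Finset.mem_insert, Finset.mem_singleton] at hS
    unfold knw
    rw [Finset.mem_union]
    rcases hS with rfl | rfl
    · exact Or.inl h1
    · rcases h2 with h2 | ⟨h2, h4, h5⟩
      · exact Or.inl h2
      · refine Or.inr (Finset.mem_inter.2 ⟨h2, Finset.mem_biUnion.2 ⟨Sum.inl S,
          Finset.mem_inter.2 ⟨h4, h5⟩, ?_⟩⟩)
        show S ∈ ({S} : Finset (Tri V))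
        exact Finset.mem_singleton_self S
  have h4 := Finset.card_le_card h3
  rwa [Finset.card_pair hTT] at h4

end SpA

theorem spA (hs : SumStatement) (hb : BasicStatement) : SpAStatement := by
  classical
  intro c J C L h6 hev hJ
  obtain ⟨C₀, hC₀, hsum⟩ := hs c (6 + (L + 1) * (c + 2)) (J - 1) C h6
  have hCJ : (1 : ℝ) ≤ C₀ ^ J := one_le_pow₀ hC₀
  refine ⟨2 ^ (L + 2) * C₀ ^ J, one_le_mul_of_one_le_of_one_le (one_le_pow₀ (by norm_num)) hCJ, ?_⟩
  intro V _ _ E RT s B u yb hY hu huB T T' hTT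
  have hn : (1 : ℝ) ≤ (Fintype.card V : ℝ) := by exact_mod_cast hY.hn
  have hn0 : (0 : ℝ) < (Fintype.card V : ℝ) := by linarith
  have hB := hY.hB
  have hw := spa_wb hY hu huB
  have hCB : 1 ≤ C₀ * B := one_le_mul_of_one_le_of_one_le hC₀ hB
  -- the main estimate
  have key : ∀ P : Finset (Atom V c), P.card ≤ L + 1 → ∀ 𝒰 : Finset (Finset (Atom V c)),
      (∀ U ∈ 𝒰, ¬ U ⊆ P ∧ ∃ D Z, D ∈ (triSys V J).conf ∧ Z ⊆ D ∧ IsLift (D \ Z) U ∧
        Z ⊆ {T, T'} ∧ Z.Nonempty ∧ 2 ≤ (knw D Z U P).card) →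
      ∑ U ∈ 𝒰, ∏ a ∈ U \ P, yA c (fun _ : Tri V => u) yb a ≤
        2 ^ (L + 1) * ((C₀ * B) ^ (J - 1) / (Fintype.card V : ℝ)) := by
    intro P hP 𝒰 h𝒰
    have hF : (T.1 ∪ T'.1 ∪ vP P).card ≤ 6 + (L + 1) * (c + 2) := by
      have h1 := Finset.card_union_le (T.1 ∪ T'.1) (vP P)
      have h2 := Finset.card_union_le T.1 T'.1
      have h3 := spa_vP (show 1 ≤ c by omega) P
      have h4 : P.card * (c + 2) ≤ (L + 1) * (c + 2) := Nat.mul_le_mul_right _ hP
      have h5 : T.1.card = 3 := T.2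
      have h6 : T'.1.card = 3 := T'.2
      omega
    have h1 := spa_core hb h6 hev hJ (y := yA c (fun _ : Tri V => u) yb)
      (F := T.1 ∪ T'.1 ∪ vP P) (P := P) hw.nonneg Finset.subset_union_right
      (m := J - 1) (R := (C₀ * B) ^ (J - 1) / (Fintype.card V : ℝ) ^ 1)
      (fun 𝒲 hc hl => (hsum V RT s B _ _ 𝒲 hY.hn hY.hs hB hY.rb hw hF hc).1 1 hl) 𝒰 (by
        intro U hU
        obtain ⟨hn, D, Z, h1, h2, h3, h4, h5, h7⟩ := h𝒰 U hU
        refine ⟨hn, D, Z, h1, h2, h3, ?_, ?_, h7⟩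
        · refine (TriGood.vs_mono h4).trans ?_
          intro v hv
          simp only [vs, Finset.mem_biUnion, Finset.mem_insert, Finset.mem_singleton] at hv
          obtain ⟨S, hS, hv⟩ := hv
          rw [Finset.mem_union, Finset.mem_union]
          rcases hS with rfl | rfl
          · exact Or.inl (Or.inl hv)
          · exact Or.inl (Or.inr hv)
        · have h8 := (TriGood.conf_iff.1 h1).2.1
          have h9 := Finset.card_sdiff_add_card_eq_card h2
          have h10 := h5.card_pos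
          omega)
    rw [pow_one] at h1
    refine h1.trans ?_
    refine mul_le_mul_of_nonneg_right ?_ (by positivity)
    exact pow_le_pow_right₀ (by norm_num) hP
  have pw : (C₀ * B) ^ (J - 1) ≤ C₀ ^ J * B ^ J := by
    rw [← mul_pow]
    exact pow_le_pow_right₀ hCB (Nat.sub_le _ _)
  have fin1 : 2 ^ (L + 1) * ((C₀ * B) ^ (J - 1) / (Fintype.card V : ℝ)) ≤
      2 ^ (L + 2) * C₀ ^ J * B ^ J / Fintype.card V := by
    rw [mul_div_assoc', div_le_div_iff_of_pos_right hn0, pow_succ 2 (L + 1)]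
    have h1 : 0 ≤ (2 : ℝ) ^ (L + 1) * (C₀ ^ J * B ^ J) := by positivity
    have h2 : (2 : ℝ) ^ (L + 1) * (C₀ * B) ^ (J - 1) ≤ 2 ^ (L + 1) * (C₀ ^ J * B ^ J) :=
      mul_le_mul_of_nonneg_left pw (by positivity)
    nlinarith
  constructor
  · intro P hP
    by_cases hin : (Sum.inl T' : Atom V c) ∈ P
    · refine (key P (by omega) _ ?_).trans fin1
      intro U hU
      obtain ⟨hU1, hU2⟩ := Finset.mem_filter.1 hU
      obtain ⟨D, h1, h2, h3, h4, h5⟩ := (Finset.mem_filter.1 hU1).2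
      refine ⟨hU2, D, {T}, h1, Finset.singleton_subset_iff.2 h2, h4, ?_,
        Finset.singleton_nonempty T, spa_knw hTT (Finset.mem_singleton_self T)
          (Or.inr ⟨h3, h5, hin⟩)⟩
      exact Finset.singleton_subset_iff.2 (Finset.mem_insert_self _ _)
    · rcases Nat.eq_zero_or_pos J with hJ0 | hJ0
      · have he : (LA c J T T').filter (fun U => ¬ U ⊆ P) = ∅ := by
          refine Finset.eq_empty_of_forall_notMem fun U hU => ?_
          obtain ⟨D, h1, -⟩ := (Finset.mem_filter.1 (Finset.mem_filter.1 hU).1).2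
          obtain ⟨h2, h3, -⟩ := TriGood.conf_iff.1 h1
          omega
        rw [he, Finset.sum_empty]
        positivity
      have hP' : (insert (Sum.inl T' : Atom V c) P).card ≤ L + 1 := by
        rw [Finset.card_insert_of_notMem hin]
        omega
      have e1 : ∀ U ∈ (LA c J T T').filter (fun U => ¬ U ⊆ P),
          ∏ a ∈ U \ P, yA c (fun _ : Tri V => u) yb a =
            u * ∏ a ∈ U \ insert (Sum.inl T' : Atom V c) P, yA c (fun _ : Tri V => u) yb a := by
        intro U hU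
        obtain ⟨D, h1, h2, h3, h4, h5⟩ := (Finset.mem_filter.1 (Finset.mem_filter.1 hU).1).2
        have h6 : (Sum.inl T' : Atom V c) ∉ U \ insert (Sum.inl T' : Atom V c) P := by
          rw [Finset.mem_sdiff]
          exact fun h => h.2 (Finset.mem_insert_self _ _)
        have h7 : U \ P = insert (Sum.inl T' : Atom V c)
            (U \ insert (Sum.inl T' : Atom V c) P) := by
          ext a
          rw [Finset.mem_insert, Finset.mem_sdiff, Finset.mem_sdiff, Finset.mem_insert]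
          by_cases ha : a = Sum.inl T'
          · rw [ha]
            exact ⟨fun _ => Or.inl rfl, fun _ => ⟨h5, hin⟩⟩
          · tauto
        rw [h7, Finset.prod_insert h6]
        rfl
      rw [Finset.sum_congr rfl e1, ← Finset.mul_sum]
      have nn : ∀ U : Finset (Atom V c), 0 ≤ ∏ a ∈ U \ insert (Sum.inl T' : Atom V c) P,
          yA c (fun _ : Tri V => u) yb a := fun U => Finset.prod_nonneg fun a _ => hw.nonneg a
      have e2 : ∑ U ∈ (LA c J T T').filter (fun U => ¬ U ⊆ P),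
          ∏ a ∈ U \ insert (Sum.inl T' : Atom V c) P, yA c (fun _ : Tri V => u) yb a ≤
          2 ^ (L + 1) + 2 ^ (L + 1) * ((C₀ * B) ^ (J - 1) / (Fintype.card V : ℝ)) := by
        refine (Finset.sum_le_sum_of_subset_of_nonneg (Finset.filter_subset _ _)
          (fun U _ _ => nn U)).trans ?_
        rw [← Finset.sum_filter_add_sum_filter_not (LA c J T T')
          (fun U => U ⊆ insert (Sum.inl T' : Atom V c) P)]
        refine add_le_add ?_ ?_
        · have h1 : ∀ U ∈ (LA c J T T').filter (fun U => U ⊆ insert (Sum.inl T' : Atom V c) P),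
              ∏ a ∈ U \ insert (Sum.inl T' : Atom V c) P, yA c (fun _ : Tri V => u) yb a = 1 := by
            intro U hU
            rw [Finset.sdiff_eq_empty_iff_subset.2 (Finset.mem_filter.1 hU).2, Finset.prod_empty]
          rw [Finset.sum_congr rfl h1, Finset.sum_const, nsmul_eq_mul, mul_one]
          have h2 : ((LA c J T T').filter (fun U => U ⊆ insert (Sum.inl T' : Atom V c) P)).card ≤
              (insert (Sum.inl T' : Atom V c) P).powerset.card :=
            Finset.card_le_card fun U hU => Finset.mem_powerset.2 (Finset.mem_filter.1 hU).2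
          rw [Finset.card_powerset] at h2
          have h3 : ((LA c J T T').filter
              (fun U => U ⊆ insert (Sum.inl T' : Atom V c) P)).card ≤ 2 ^ (L + 1) :=
            h2.trans (Nat.pow_le_pow_right (by norm_num) hP')
          exact_mod_cast h3
        · refine key _ hP' _ ?_
          intro U hU
          obtain ⟨hU1, hU2⟩ := Finset.mem_filter.1 hU
          obtain ⟨D, h1, h2, h3, h4, h5⟩ := (Finset.mem_filter.1 hU1).2
          refine ⟨hU2, D, {T}, h1, Finset.singleton_subset_iff.2 h2, h4, ?_,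
            Finset.singleton_nonempty T, spa_knw hTT (Finset.mem_singleton_self T)
              (Or.inr ⟨h3, h5, Finset.mem_insert_self _ _⟩)⟩
          exact Finset.singleton_subset_iff.2 (Finset.mem_insert_self _ _)
      have e3 : (0 : ℝ) ≤ 2 ^ (L + 1) +
          2 ^ (L + 1) * ((C₀ * B) ^ (J - 1) / (Fintype.card V : ℝ)) := by positivity
      refine (mul_le_mul huB e2 (Finset.sum_nonneg fun U _ => nn U) (by positivity)).trans ?_
      have e4 : B * (C₀ * B) ^ (J - 1) ≤ C₀ ^ J * B ^ J := by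
        obtain ⟨j, rfl⟩ : ∃ j, J = j + 1 := ⟨J - 1, by omega⟩
        rw [Nat.add_sub_cancel, mul_pow, pow_succ C₀, pow_succ B]
        have h1 : 0 ≤ C₀ ^ j * B ^ j * B := by positivity
        nlinarith
      have e5 : B ≤ C₀ ^ J * B ^ J := by
        have h1 : B ≤ B ^ J := le_self_pow₀ hB (by omega)
        have h2 : 0 ≤ B ^ J := by positivity
        nlinarith
      have e6 : (C₀ * B) ^ (J - 1) / (Fintype.card V : ℝ) ≤ (C₀ * B) ^ (J - 1) :=
        div_le_self (by positivity) hn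
      rw [div_mul_eq_mul_div, div_le_div_iff_of_pos_right hn0, pow_succ 2 (L + 1)]
      have h2 : (0 : ℝ) ≤ 2 ^ (L + 1) := by positivity
      calc B * (2 ^ (L + 1) + 2 ^ (L + 1) * ((C₀ * B) ^ (J - 1) / (Fintype.card V : ℝ)))
          ≤ B * (2 ^ (L + 1) + 2 ^ (L + 1) * (C₀ * B) ^ (J - 1)) := by gcongr
        _ = 2 ^ (L + 1) * B + 2 ^ (L + 1) * (B * (C₀ * B) ^ (J - 1)) := by ring
        _ ≤ 2 ^ (L + 1) * (C₀ ^ J * B ^ J) + 2 ^ (L + 1) * (C₀ ^ J * B ^ J) := by gcongr
        _ = 2 ^ (L + 1) * 2 * C₀ ^ J * B ^ J := by ring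
  · intro P hP
    refine (key P (by omega) _ ?_).trans fin1
    intro U hU
    obtain ⟨hU1, hU2⟩ := Finset.mem_filter.1 hU
    obtain ⟨D, h1, h2, h3, h4⟩ := (Finset.mem_filter.1 hU1).2
    refine ⟨hU2, D, {T, T'}, h1, ?_, h4, Finset.Subset.refl _, ⟨T, Finset.mem_insert_self _ _⟩,
      spa_knw hTT (Finset.mem_insert_self _ _)
        (Or.inl (Finset.mem_insert_of_mem (Finset.mem_singleton_self T')))⟩
    intro S hS
    rw [Finset.mem_insert, Finset.mem_singleton] at hS
    rcases hS with rfl | rfl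
    · exact h2
    · exact h3

end F2
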