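import Pool.Agent.F2.SpecL2
import Pool.Agent.F2.S.Sum

/-!
# Project F2, row L11: the families `LB` and `LF` are spread (helper25)
-/

set_option autoImplicit false
set_option linter.unusedSectionVars false

namespace F2

open Finset NW F1 F1.TriGood
open Pool.Agent.F2 (HH GG Spread)

/-- grouping by the new part -/
theorem spB_group {α : Type*} [DecidableEq α] {y : α → ℝ} (hy : ∀ a, 0 ≤ y a)
    (UU : Finset (Finset α)) {P : Finset α} {L : ℕ} (hP : P.card ≤ L) :
    ∑ U ∈ UU with ¬ U ⊆ P, ∏ a ∈ U \ P, y a ≤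
      2 ^ L * ∑ W ∈ (UU.filter (fun U => ¬ U ⊆ P)).image (fun U => U \ P), ∏ a ∈ W, y a := by
  rw [← Finset.sum_fiberwise_of_maps_to (s := UU.filter (fun U => ¬ U ⊆ P))
    (t := (UU.filter (fun U => ¬ U ⊆ P)).image (fun U => U \ P)) (g := fun U => U \ P)
    (fun U hU => mem_image_of_mem _ hU), Finset.mul_sum]
  refine sum_le_sum fun W _ => ?_
  have h0 : 0 ≤ ∏ a ∈ W, y a := prod_nonneg fun a _ => hy a
  have h1 : ∑ U ∈ (UU.filter (fun U => ¬ U ⊆ P)).filter (fun U => U \ P = W),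
      ∏ a ∈ U \ P, y a = (((UU.filter (fun U => ¬ U ⊆ P)).filter (fun U => U \ P = W)).card : ℝ) *
        ∏ a ∈ W, y a := by
    rw [← nsmul_eq_mul, ← sum_const]
    refine sum_congr rfl fun U hU => ?_
    rw [(mem_filter.1 hU).2]
  rw [h1]
  refine mul_le_mul_of_nonneg_right ?_ h0
  have h2 : ((UU.filter (fun U => ¬ U ⊆ P)).filter (fun U => U \ P = W)).card ≤
      (P.powerset).card := by
    refine card_le_card_of_injOn (fun U => U ∩ P) (fun U _ => mem_coe.2
      (mem_powerset.2 inter_subset_right)) ?_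
    intro U hU U' hU' h
    have h3 := (mem_filter.1 hU).2
    have h4 := (mem_filter.1 hU').2
    have h5 : U ∩ P = U' ∩ P := h
    rw [← sdiff_union_inter U P, ← sdiff_union_inter U' P, h3, h4, h5]
  rw [card_powerset] at h2
  calc (((UU.filter (fun U => ¬ U ⊆ P)).filter (fun U => U \ P = W)).card : ℝ)
      ≤ 2 ^ P.card := by exact_mod_cast h2
    _ ≤ 2 ^ L := pow_le_pow_right₀ (by norm_num) hP

variable {V : Type} [Fintype V] [DecidableEq V] {c : ℕ}

/-- a lift has at most as many atoms as triples -/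
theorem spB_card {D : Finset (Tri V)} {U : Finset (Atom V c)} (h : IsLift D U) :
    U.card ≤ D.card := by
  refine card_le_card_of_forall_subsingleton (fun a T => T ∈ fa a) ?_ ?_
  · intro a ha
    obtain ⟨T, hT⟩ := h.used a ha
    exact ⟨T, (mem_inter.1 hT).2, (mem_inter.1 hT).1⟩
  · intro T hT a ha b hb
    exact h.uniq T hT a ha.1 b hb.1 ha.2 hb.2

theorem spB_wb {C s : ℕ} {B u : ℝ} {E : Finset (Sym2 V)} {RT : Finset (Tri V)}
    {yb : (Fin (c + 2) → V) → ℝ} (h : YBound c C s B E RT yb) (hu0 : 0 ≤ u)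
    (hu : u ≤ B / Fintype.card V) : WBound B RT (yA c (fun _ => u) yb) where
  nonneg := by
    rintro (T | h')
    · exact hu0
    · exact h.nonneg h'
  tri := fun _ => hu
  boo := h.boo
  inj := h.inj
  root := h.root

/-- the bound from the exponents -/
theorem spB_core {L J C s : ℕ} {C₀ B : ℝ} (hc : 1 ≤ c) {y : Atom V c → ℝ}
    {RT : Finset (Tri V)}
    (key : ∀ (F : Finset V) (𝒰 : Finset (Finset (Atom V c))),
      1 ≤ Fintype.card V → 1 ≤ s → 1 ≤ B → RBound C s RT → WBound B RT y →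
      F.card ≤ 5 + (c + 2) * L → (∀ U ∈ 𝒰, U.card ≤ J) →
      ∀ g : ℕ, (∀ U ∈ 𝒰, (∀ a ∈ U, y a ≠ 0) → ∃ l : List (Atom V c), l.Nodup ∧ l.toFinset = U ∧
          exL F l ≤ -(g : ℤ)) →
        ∑ U ∈ 𝒰, ∏ a ∈ U, y a ≤ (C₀ * B) ^ J / (Fintype.card V : ℝ) ^ g)
    (hn : 1 ≤ Fintype.card V) (hs : 1 ≤ s) (hB : 1 ≤ B) (hr : RBound C s RT) (hw : WBound B RT y)
    (F0 : Finset V) (hF0 : F0.card ≤ 5) (UU : Finset (Finset (Atom V c)))
    (hUU : ∀ U ∈ UU, U.card ≤ J) (g : ℕ)
    (hex : ∀ P : Finset (Atom V c), P.card ≤ L → ∀ U ∈ UU, ¬ U ⊆ P →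
      exL (F0 ∪ vP P) (U \ P).toList ≤ -(g : ℤ)) :
    Spread y UU L (2 ^ L * (C₀ * B) ^ J / (Fintype.card V : ℝ) ^ g) := by
  intro P hP
  refine (spB_group hw.nonneg UU hP).trans ?_
  rw [mul_div_assoc]
  refine mul_le_mul_of_nonneg_left ?_ (by positivity)
  refine key (F0 ∪ vP P) _ hn hs hB hr hw ?_ ?_ g ?_
  · refine (card_union_le _ _).trans (Nat.add_le_add hF0 ?_)
    refine (card_biUnion_le_card_mul P av (c + 2) fun a _ => av_card_le hc a).trans ?_
    rw [Nat.mul_comm]
    exact Nat.mul_le_mul_left _ hP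
  · intro W hW
    obtain ⟨U, hU, rfl⟩ := mem_image.1 hW
    exact (card_le_card sdiff_subset).trans (hUU U (mem_filter.1 hU).1)
  · intro W hW _
    obtain ⟨U, hU, rfl⟩ := mem_image.1 hW
    obtain ⟨hU1, hU2⟩ := mem_filter.1 hU
    exact ⟨(U \ P).toList, nodup_toList _, toList_toFinset _, hex P hP U hU1 hU2⟩

theorem spB_knw_sub {D Z : Finset (Tri V)} {U P : Finset (Atom V c)} (hZ : Z ⊆ D) :
    knw D Z U P ⊆ D := union_subset hZ inter_subset_left

theorem spB_mem_LB {J : ℕ} {T : Tri V} {e : Sym2 V} {U : Finset (Atom V c)}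
    (h : U ∈ LB c J T e) : ∃ D ∈ (triSys V J).conf, T ∈ D ∧ (∃ T' ∈ D, e ∈ NW.edg T'.1) ∧
      IsLift (D \ {T}) U := by
  classical
  unfold LB at h
  exact (mem_filter.1 h).2

theorem spB_mem_LF {J : ℕ} {e : Sym2 V} {U : Finset (Atom V c)}
    (h : U ∈ LF c J e) : ∃ D ∈ (triSys V J).conf, (∃ T ∈ D, e ∈ NW.edg T.1) ∧ IsLift D U := by
  classical
  unfold LF at h
  exact (mem_filter.1 h).2

/-- row L11 -/
theorem spB (hs : SumStatement) (hb : BasicStatement) : SpBStatement := by
  intro c J C L h6 heven hJ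
  obtain ⟨C₀, hC₀, key⟩ := hs c (5 + (c + 2) * L) J C h6
  refine ⟨2 ^ L * C₀ ^ J, ?_, ?_⟩
  · exact one_le_mul_of_one_le_of_one_le (one_le_pow₀ (by norm_num)) (one_le_pow₀ hC₀)
  intro V _ _ E RT s B u yb hY hu0 hu T e
  have hw := spB_wb hY hu0 hu
  have key' := fun F 𝒰 a1 a2 a3 a4 a5 a6 a7 =>
    (key V RT s B (yA c (fun _ => u) yb) F 𝒰 a1 a2 a3 a4 a5 a6 a7).1
  refine ⟨fun he => ?_, ?_⟩
  · have h1 := spB_core (by omega) key' hY.hn hY.hs hY.hB hY.rb hw (T.1 ∪ e.toFinset) ?_
      (LB c J T e) ?_ 1 ?_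
    · rw [pow_one] at h1
      have e1 : 2 ^ L * C₀ ^ J * B ^ J / (Fintype.card V : ℝ) =
          2 ^ L * (C₀ * B) ^ J / (Fintype.card V : ℝ) := by
        rw [mul_pow]
        ring
      rw [e1]
      exact h1
    · refine (card_union_le _ _).trans ?_
      rw [T.2, Sym2.card_toFinset]
      split_ifs <;> omega
    · intro U hU
      obtain ⟨D, hD, hTD, -, hl⟩ := spB_mem_LB hU
      exact (spB_card hl).trans ((card_le_card sdiff_subset).trans (conf_iff.1 hD).2.1)
    · intro P _ U hU hUP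
      obtain ⟨D, hD, hTD, ⟨T', hT', heT'⟩, hl⟩ := spB_mem_LB hU
      obtain ⟨h2, h3, -, h4⟩ := hb c J h6 heven hJ V D {T} U P (T.1 ∪ e.toFinset ∪ vP P)
        (U \ P).toList hD (singleton_subset_iff.2 hTD) hl
        (by
          show vs {T} ⊆ _
          intro v hv
          simp only [vs, singleton_biUnion] at hv
          exact mem_union_left _ (mem_union_left _ hv))
        subset_union_right (nodup_toList _) (toList_toFinset _)
      by_cases h5 : 2 ≤ (knw D {T} U P).card
      · exact_mod_cast h4 h5 (fun h6 => hUP (sdiff_eq_empty_iff_subset.1 h6))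
      · obtain ⟨h7, h8⟩ := mem_edg.1 heT'
        have h9 : ∃ v ∈ e, v ∉ T.1 := by
          by_contra h10
          push Not at h10
          exact he (mem_edg.2 ⟨h10, h8⟩)
        obtain ⟨v, hve, hvT⟩ := h9
        have h10 : insert v T.1 ⊆ vs D ∩ (T.1 ∪ e.toFinset ∪ vP P) := by
          intro x hx
          rcases mem_insert.1 hx with rfl | hx
          · exact mem_inter.2 ⟨sub_vs hT' (h7 x hve), mem_union_left _
              (mem_union_right _ (Sym2.mem_toFinset.2 hve))⟩
          · exact mem_inter.2 ⟨sub_vs hTD hx, mem_union_left _ (mem_union_left _ hx)⟩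
        have h11 := card_le_card h10
        rw [card_insert_of_notMem hvT, T.2] at h11
        push_cast
        omega
  · have h1 := spB_core (by omega) key' hY.hn hY.hs hY.hB hY.rb hw e.toFinset ?_
      (LF c J e) ?_ 0 ?_
    · rw [pow_zero, div_one] at h1
      have e1 : 2 ^ L * C₀ ^ J * B ^ J = 2 ^ L * (C₀ * B) ^ J := by
        rw [mul_pow]
        ring
      rw [e1]
      exact h1
    · rw [Sym2.card_toFinset]
      split_ifs <;> omega
    · intro U hU
      obtain ⟨D, hD, -, hl⟩ := spB_mem_LF hU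
      exact (spB_card hl).trans (conf_iff.1 hD).2.1
    · intro P _ U hU hUP
      obtain ⟨D, hD, ⟨T', hT', heT'⟩, hl⟩ := spB_mem_LF hU
      obtain ⟨h2, h3, -, h4⟩ := hb c J h6 heven hJ V D ∅ U P (e.toFinset ∪ vP P)
        (U \ P).toList hD (empty_subset _) (by rw [sdiff_empty]; exact hl)
        (by simp [vs]) subset_union_right (nodup_toList _) (toList_toFinset _)
      by_cases h5 : 2 ≤ (knw D ∅ U P).card
      · have := h4 h5 (fun h6 => hUP (sdiff_eq_empty_iff_subset.1 h6))
        push_cast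
        omega
      · have h6' : (knw D ∅ U P).card = 0 ∨ (knw D ∅ U P).card = 1 := by omega
        rcases h6' with h6' | h6'
        · obtain ⟨h7, h8⟩ := mem_edg.1 heT'
          have h9 : e.toFinset ⊆ vs D ∩ (e.toFinset ∪ vP P) := by
            intro x hx
            exact mem_inter.2 ⟨sub_vs hT' (h7 x (Sym2.mem_toFinset.1 hx)), mem_union_left _ hx⟩
          have h10 := card_le_card h9
          rw [Sym2.card_toFinset_of_not_isDiag e h8] at h10
          push_cast
          omega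
        · obtain ⟨T1, hT1⟩ := card_eq_one.1 h6'
          have h7 : T1 ∈ D := spB_knw_sub (empty_subset _) (hT1 ▸ mem_singleton_self T1)
          have h8 : T1.1 ⊆ vs D ∩ (e.toFinset ∪ vP P) := by
            intro x hx
            refine mem_inter.2 ⟨sub_vs h7 hx, h3 ?_⟩
            rw [hT1]
            exact sub_vs (mem_singleton_self T1) hx
          have h9 := card_le_card h8
          rw [T1.2] at h9
          push_cast
          omega

end F2
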