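import Pool.Agent.F2.SpecL2
import Pool.Agent.F2.S.Base

/-!
# Project F2, block L, row L15: the placements through a vertex are spread
-/

set_option autoImplicit false
set_option linter.unusedSectionVars false

namespace F2

open Finset NW F1
open Pool.Agent.F2 (HH GG Spread)

theorem spD (hOA : OAStatement) : SpDStatement := by
  intro c C L hc _
  obtain ⟨C₀, hC₀, hO⟩ := hOA c 1 C hc
  refine ⟨C₀, hC₀, ?_⟩
  intro V _ _ E RT s B yb hY v P _
  have hn1 : (1 : ℝ) ≤ (Fintype.card V : ℝ) := by exact_mod_cast hY.hn
  have hn0 : (0 : ℝ) < (Fintype.card V : ℝ) := by linarith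
  have hB0 : (0 : ℝ) ≤ B := by linarith [hY.hB]
  have hW : WBound B RT (yA c (fun _ => (0 : ℝ)) yb) := by
    refine ⟨?_, ?_, ?_, ?_, ?_⟩
    · rintro (T | h)
      · simp [yA]
      · exact hY.nonneg h
    · intro T
      show (0 : ℝ) ≤ _
      positivity
    · exact fun h => hY.boo h
    · exact fun h hh => hY.inj h hh
    · exact fun h hh => hY.root h hh
  have h2 := (hO V RT s B (yA c (fun _ => (0 : ℝ)) yb) {v} hY.hn hY.hs hY.hB hY.rb hW
    (by simp)).2
  have h3 : ∑ h ∈ univ.filter (fun h : Fin (c + 2) → V => v ∈ univ.image h),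
      yb h * (Fintype.card V : ℝ)⁻¹ ≤ C₀ * B / s := by
    refine le_trans ?_ h2
    have h4 : ∀ h : Fin (c + 2) → V, (rt c h ∩ {v}).card ≤ 1 := fun h =>
      (card_le_card inter_subset_right).trans (by simp)
    have h5 : univ.filter (fun h : Fin (c + 2) → V => (rt c h ∩ {v}).card ≤ 1) = univ :=
      filter_true_of_mem fun h _ => h4 h
    rw [h5, sum_filter]
    refine sum_le_sum fun h _ => ?_
    show _ ≤ yb h * (Fintype.card V : ℝ) ^ (-ex (Sum.inr h : Atom V c) {v})
    split_ifs with h6
    · by_cases h7 : yb h = 0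
      · simp [h7]
      · have h8 : ex (Sum.inr h : Atom V c) {v} = 1 := by
          unfold ex
          have h9 : (univ.image h ∩ {v}).card = 1 := by
            rw [inter_singleton_of_mem h6, card_singleton]
          have h10 : rk (Sum.inr h : Atom V c) {v} = 0 := by
            simp only [rk, Sum.elim_inr]
            rw [if_neg]
            intro h11
            have h12 := card_le_card h11
            rw [rt_card (by omega) (hY.inj h h7), card_singleton] at h12
            omega
          rw [av_inr, h9, h10]
          norm_num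
        rw [h8, zpow_neg, zpow_one]
    · exact mul_nonneg (hY.nonneg h) (zpow_nonneg hn0.le _)
  have h4 : ∑ U ∈ (LD c v).filter (fun U => ¬ U ⊆ P),
      ∏ a ∈ U \ P, yA c (fun _ => (0 : ℝ)) yb a ≤
      ∑ h ∈ univ.filter (fun h : Fin (c + 2) → V => v ∈ univ.image h), yb h := by
    unfold LD
    rw [sum_filter, sum_image]
    · refine sum_le_sum fun h _ => ?_
      split_ifs with h6
      · exact hY.nonneg h
      · have h7 : (Sum.inr h : Atom V c) ∉ P := fun h8 => h6 (singleton_subset_iff.2 h8)
        rw [sdiff_eq_self_of_disjoint (by simpa using h7), prod_singleton]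
        exact le_rfl
    · intro h _ h' _ h8
      exact Sum.inr_injective (singleton_injective h8)
  refine h4.trans ?_
  rw [← sum_mul, ← div_eq_mul_inv, div_le_iff₀ hn0] at h3
  refine h3.trans (le_of_eq ?_)
  ring

end F2
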