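import Pool.Agent.F2.SpecL2

/-!
# Project F2, row L12: the spread family `LE`
-/

set_option autoImplicit false
set_option linter.unusedSectionVars false

namespace F2

open Finset NW F1
open Pool.Agent.F2 (HH GG Spread)

private theorem spE_sdiff {α : Type*} [DecidableEq α] {y : α → ℝ} (hy : ∀ a, 0 ≤ y a)
    (UU : Finset (Finset α)) (P : Finset α) :
    ∑ U ∈ UU with ¬ U ⊆ P, ∏ a ∈ U \ P, y a ≤
      2 ^ P.card * ∑ W ∈ (UU.filter (fun U => ¬ U ⊆ P)).image (fun U => U \ P), ∏ a ∈ W, y a := by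
  rw [← Finset.sum_fiberwise_of_maps_to
    (g := fun U : Finset α => U \ P) (t := (UU.filter (fun U => ¬ U ⊆ P)).image (fun U => U \ P))
    (fun U hU => Finset.mem_image_of_mem _ hU), Finset.mul_sum]
  refine Finset.sum_le_sum fun W hW => ?_
  have h1 : ∀ U ∈ (UU.filter (fun U => ¬ U ⊆ P)).filter (fun U => U \ P = W),
      ∏ a ∈ U \ P, y a = ∏ a ∈ W, y a := by
    intro U hU
    rw [(Finset.mem_filter.1 hU).2]
  rw [Finset.sum_congr rfl h1, Finset.sum_const, nsmul_eq_mul]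
  refine mul_le_mul_of_nonneg_right ?_ (Finset.prod_nonneg fun a _ => hy a)
  have h2 : ((UU.filter (fun U => ¬ U ⊆ P)).filter (fun U => U \ P = W)).card ≤
      P.powerset.card := by
    refine Finset.card_le_card_of_injOn (fun U => U ∩ P) ?_ ?_
    · intro U _
      exact Finset.mem_powerset.2 Finset.inter_subset_right
    · intro U hU U' hU' h
      have h3 : U \ P = W := (Finset.mem_filter.1 hU).2
      have h4 : U' \ P = W := (Finset.mem_filter.1 hU').2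
      have h5 : U ∩ P = U' ∩ P := h
      rw [← Finset.sdiff_union_inter U P, ← Finset.sdiff_union_inter U' P, h3, h4, h5]
  rw [Finset.card_powerset] at h2
  exact_mod_cast h2

private theorem spE_lift {V : Type} [Fintype V] [DecidableEq V] {c : ℕ} {D : Finset (Tri V)}
    {U : Finset (Atom V c)} (h : IsLift D U) : U.card ≤ D.card := by
  classical
  rcases U.eq_empty_or_nonempty with h0 | ⟨a₀, ha₀⟩
  · rw [h0, Finset.card_empty]
    exact Nat.zero_le _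
  obtain ⟨T₀, -⟩ := h.used a₀ ha₀
  have h1 : ∀ a : Atom V c, ∃ T : Tri V, a ∈ U → T ∈ fa a ∩ D := by
    intro a
    by_cases ha : a ∈ U
    · obtain ⟨T, hT⟩ := h.used a ha
      exact ⟨T, fun _ => hT⟩
    · exact ⟨T₀, fun h => absurd h ha⟩
  choose f hf using h1
  refine Finset.card_le_card_of_injOn f (fun a ha => (Finset.mem_inter.1 (hf a ha)).2) ?_
  intro a ha b hb hab
  have h2 := Finset.mem_inter.1 (hf a ha)
  have h3 := Finset.mem_inter.1 (hf b hb)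
  rw [← hab] at h3
  exact h.uniq (f a) h2.2 a ha b hb h2.1 h3.1

private theorem spE_vP {V : Type} [Fintype V] [DecidableEq V] {c : ℕ}
    (P : Finset (Atom V c)) : (vP P).card ≤ (c + 3) * P.card := by
  unfold vP
  refine (Finset.card_biUnion_le_card_mul P av (c + 3) fun a _ => ?_).trans (le_of_eq ?_)
  · rcases a with T | h
    · have h1 : (av (Sum.inl T : Atom V c)).card = 3 := T.2
      omega
    · have h1 : (av (Sum.inr h : Atom V c)).card ≤ c + 2 := by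
        have h2 := Finset.card_image_le (s := (univ : Finset (Fin (c + 2)))) (f := h)
        rw [Finset.card_univ, Fintype.card_fin] at h2
        exact h2
      omega
  · ring

private theorem spE_w {V : Type} [Fintype V] [DecidableEq V] {c C s : ℕ} {B u : ℝ}
    {E : Finset (Sym2 V)} {RT : Finset (Tri V)} {yb : (Fin (c + 2) → V) → ℝ}
    (h : YBound c C s B E RT yb) (hu : 0 ≤ u) (hu' : u ≤ B / Fintype.card V) :
    WBound B RT (yA c (fun _ => u) yb) where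
  nonneg a := by
    rcases a with T | g
    · exact hu
    · exact h.nonneg g
  tri _ := hu'
  boo g := h.boo g
  inj g hg := h.inj g hg
  root g hg := h.root g hg

theorem spE (hs : SumStatement) (hd : DoubleStatement) : SpEStatement := by
  classical
  intro c J C L hc he hJ
  obtain ⟨C₀, hC₀, key⟩ := hs c (6 + (c + 3) * L) (2 * J) C hc
  refine ⟨2 ^ L * C₀ ^ (2 * J), ?_, ?_⟩
  · exact one_le_mul_of_one_le_of_one_le (one_le_pow₀ (by norm_num)) (one_le_pow₀ hC₀)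
  intro V _ _ E RT s B u yb hY hu hu' T₁ T₂ P hP
  have hW := spE_w hY hu hu'
  set y := yA c (fun _ : Tri V => u) yb with hy
  set 𝒲 := ((LE c J T₁ T₂).filter (fun U => ¬ U ⊆ P)).image (fun U => U \ P) with h𝒲
  set F : Finset V := T₁.1 ∪ T₂.1 ∪ vP P with hF
  have hFc : F.card ≤ 6 + (c + 3) * L := by
    have h1 := Finset.card_union_le (T₁.1 ∪ T₂.1) (vP P)
    have h2 := Finset.card_union_le T₁.1 T₂.1
    have h3 := T₁.2
    have h4 := T₂.2
    have h5 := spE_vP P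
    have h6 : (c + 3) * P.card ≤ (c + 3) * L := Nat.mul_le_mul_left _ hP
    rw [hF]
    omega
  have hcases : ∀ W ∈ 𝒲, ∃ (D₁ D₂ : Finset (Tri V)) (Ts : Tri V) (U₁ U₂ : Finset (Atom V c)),
      D₁ ∈ (triSys V J).conf ∧ D₂ ∈ (triSys V J).conf ∧ T₁ ∈ D₁ ∧ T₂ ∈ D₂ ∧ T₂ ∉ D₁ ∧ T₁ ∉ D₂ ∧
      IsLift (D₁ \ {T₁}) U₁ ∧ IsLift (D₂ \ {T₂}) U₂ ∧ Sum.inl Ts ∈ U₁ ∧ Sum.inl Ts ∈ U₂ ∧
      W = (U₁ ∪ U₂) \ P ∧ (U₁ ∪ U₂) \ P ≠ ∅ := by
    intro W hW'
    obtain ⟨U, hU, rfl⟩ := Finset.mem_image.1 hW'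
    obtain ⟨hU1, hU2⟩ := Finset.mem_filter.1 hU
    obtain ⟨D₁, hD₁, D₂, hD₂, Ts, U₁, U₂, h1, h2, h3, h4, h5, h6, h7, h8, rfl⟩ :=
      (Finset.mem_filter.1 hU1).2
    refine ⟨D₁, D₂, Ts, U₁, U₂, hD₁, hD₂, h1, h2, h3, h4, h5, h6, h7, h8, rfl, ?_⟩
    intro h9
    exact hU2 (Finset.sdiff_eq_empty_iff_subset.1 h9)
  have hcard : ∀ D ∈ (triSys V J).conf, ∀ (T : Tri V) (U : Finset (Atom V c)),
      IsLift (D \ {T}) U → U.card ≤ J := by
    intro D hD T U hU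
    have h1 := spE_lift hU
    have h2 : D.card ≤ J := (F1.TriGood.conf_iff.1 hD).2.1
    have h3 := Finset.card_le_card (Finset.sdiff_subset : D \ {T} ⊆ D)
    omega
  have h𝒲c : ∀ W ∈ 𝒲, W.card ≤ 2 * J := by
    intro W hW'
    obtain ⟨D₁, D₂, Ts, U₁, U₂, hD₁, hD₂, h1, h2, h3, h4, h5, h6, h7, h8, rfl, h9⟩ := hcases W hW'
    have g1 := hcard D₁ hD₁ T₁ U₁ h5
    have g2 := hcard D₂ hD₂ T₂ U₂ h6
    have g3 := Finset.card_le_card (Finset.sdiff_subset : (U₁ ∪ U₂) \ P ⊆ U₁ ∪ U₂)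
    have g4 := Finset.card_union_le U₁ U₂
    omega
  have hmain := (key V RT s B y F 𝒲 hY.hn hY.hs hY.hB hY.rb hW hFc h𝒲c).1 1 (by
    intro W hW' _
    obtain ⟨D₁, D₂, Ts, U₁, U₂, hD₁, hD₂, h1, h2, h3, h4, h5, h6, h7, h8, rfl, h9⟩ := hcases W hW'
    obtain ⟨l, hl1, hl2, hl3⟩ := hd c J hc he hJ V D₁ D₂ T₁ T₂ Ts U₁ U₂ P F hD₁ hD₂ h1 h2 h3 h4
      h5 h6 h7 h8 (Finset.subset_union_left.trans Finset.subset_union_left)
      (Finset.subset_union_right.trans Finset.subset_union_left) Finset.subset_union_right h9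
    exact ⟨l, hl1, hl2, by simpa using hl3⟩)
  rw [pow_one] at hmain
  refine (spE_sdiff hW.nonneg _ P).trans ?_
  have hsum0 : 0 ≤ ∑ W ∈ 𝒲, ∏ a ∈ W, y a :=
    Finset.sum_nonneg fun W _ => Finset.prod_nonneg fun a _ => hW.nonneg a
  calc (2:ℝ) ^ P.card * ∑ W ∈ 𝒲, ∏ a ∈ W, y a ≤ 2 ^ L * ∑ W ∈ 𝒲, ∏ a ∈ W, y a :=
        mul_le_mul_of_nonneg_right (pow_le_pow_right₀ (by norm_num) hP) hsum0
    _ ≤ 2 ^ L * ((C₀ * B) ^ (2 * J) / Fintype.card V) :=
        mul_le_mul_of_nonneg_left hmain (by positivity)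
    _ = 2 ^ L * C₀ ^ (2 * J) * B ^ (2 * J) / Fintype.card V := by
        rw [mul_pow]
        ring

end F2
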