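import Pool.Agent.F2.SpecL2
import Pool.Agent.F2.S.Base
import Pool.Agent.F2.S.Sum

/-!
# Project F2, block L, row L14: the family `LT` is spread

Members of `LT` are `insert (inl T) U'` with `T ∈ S0` through `e` and `U'` a lift of `D \ {T}` by
boosters only.  For a known set `P` there are three kinds of members.
-/

set_option autoImplicit false
set_option linter.unusedSectionVars false

namespace F2

open Finset NW F1 F1.TriGood
open Pool.Agent.F2 (HH GG Spread)

namespace SpTn

/-- grouping by the known part -/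
theorem sum_sdiff_le {α : Type} [DecidableEq α] {y : α → ℝ} (hy : ∀ a, 0 ≤ y a)
    (W : Finset (Finset α)) (P : Finset α) {M : ℝ}
    (h : ∑ X ∈ W.image (fun U => U \ P), ∏ a ∈ X, y a ≤ M) :
    ∑ U ∈ W, ∏ a ∈ U \ P, y a ≤ 2 ^ P.card * M := by
  rw [Finset.sum_comp (fun X : Finset α => ∏ a ∈ X, y a) (fun U : Finset α => U \ P)]
  calc ∑ b ∈ W.image (fun U => U \ P), #{a ∈ W | a \ P = b} • ∏ a ∈ b, y a
      ≤ ∑ b ∈ W.image (fun U => U \ P), 2 ^ P.card * ∏ a ∈ b, y a := by
        refine Finset.sum_le_sum fun b _ => ?_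
        rw [nsmul_eq_mul]
        refine mul_le_mul_of_nonneg_right ?_ (Finset.prod_nonneg fun a _ => hy a)
        have h1 : #{a ∈ W | a \ P = b} ≤ P.powerset.card := by
          refine Finset.card_le_card_of_injOn (fun U => U ∩ P)
            (fun U _ => Finset.mem_coe.2 (Finset.mem_powerset.2 Finset.inter_subset_right)) ?_
          intro U hU U' hU' hUU
          have h2 := (Finset.mem_filter.1 (Finset.mem_coe.1 hU)).2
          have h3 := (Finset.mem_filter.1 (Finset.mem_coe.1 hU')).2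
          have h4 : U ∩ P = U' ∩ P := hUU
          rw [← Finset.sdiff_union_inter U P, ← Finset.sdiff_union_inter U' P, h2, h3, h4]
        rw [Finset.card_powerset] at h1
        exact_mod_cast h1
    _ = 2 ^ P.card * ∑ b ∈ W.image (fun U => U \ P), ∏ a ∈ b, y a := by rw [Finset.mul_sum]
    _ ≤ 2 ^ P.card * M := mul_le_mul_of_nonneg_left h (by positivity)

/-- a sum over a family parametrised by a finite set -/
theorem sum_param_le {α β : Type} [DecidableEq β] {g : β → ℝ} (hg : ∀ b, 0 ≤ g b)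
    (I : Finset α) (f : α → β) (S : Finset β) (h : ∀ b ∈ S, ∃ i ∈ I, f i = b) :
    ∑ b ∈ S, g b ≤ ∑ i ∈ I, g (f i) := by
  have h1 : S ⊆ I.image f := fun b hb => by
    obtain ⟨i, hi, hib⟩ := h b hb
    exact Finset.mem_image.2 ⟨i, hi, hib⟩
  refine (Finset.sum_le_sum_of_subset_of_nonneg h1 fun b _ _ => hg b).trans ?_
  rw [Finset.sum_comp g f]
  refine Finset.sum_le_sum fun b hb => ?_
  rw [nsmul_eq_mul]
  obtain ⟨i, hi, hib⟩ := Finset.mem_image.1 hb
  have h2 : 1 ≤ #{a ∈ I | f a = b} := Finset.card_pos.2 ⟨i, Finset.mem_filter.2 ⟨hi, hib⟩⟩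
  have h3 : (1 : ℝ) ≤ (#{a ∈ I | f a = b} : ℝ) := by exact_mod_cast h2
  calc g b = 1 * g b := (one_mul _).symm
    _ ≤ _ := mul_le_mul_of_nonneg_right h3 (hg b)

variable {V : Type} [Fintype V] [DecidableEq V] {c : ℕ}

theorem lift_card {D : Finset (Tri V)} {U : Finset (Atom V c)} (hU : IsLift D U) :
    U.card ≤ D.card := by
  classical
  rcases U.eq_empty_or_nonempty with h0 | ⟨a0, ha0⟩
  · rw [h0, card_empty]
    exact Nat.zero_le _
  obtain ⟨T0, _⟩ := hU.used a0 ha0
  have : Nonempty (Tri V) := ⟨T0⟩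
  choose! f hf using hU.used
  refine Finset.card_le_card_of_injOn f (fun a ha => (mem_inter.1 (hf a ha)).2) ?_
  intro a ha b hb hab
  have h1 := mem_inter.1 (hf a ha)
  have h2 := mem_inter.1 (hf b hb)
  exact hU.uniq (f a) h1.2 a ha b hb h1.1 (hab ▸ h2.1)

theorem fa_av {a : Atom V c} {T : Tri V} (h : T ∈ fa a) : T.1 ⊆ av a := by
  rcases a with T' | h'
  · rw [fa_inl, mem_singleton] at h
    rw [h]
    exact subset_rfl
  · rw [fa_inr, mem_union] at h
    rw [av_inr]
    have h2 : ∃ f : Finset (Fin (c + 2)), f.image h' = T.1 := by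
      rcases h with h | h
      · obtain ⟨f, _, hf⟩ := mem_image.1 (mem_filter.1 h).2
        exact ⟨f, hf⟩
      · obtain ⟨f, _, hf⟩ := mem_image.1 (mem_filter.1 h).2
        exact ⟨f, hf⟩
    obtain ⟨f, hf⟩ := h2
    rw [← hf]
    exact image_subset_image (subset_univ _)

theorem vs_lift {D : Finset (Tri V)} {U : Finset (Atom V c)} (hU : IsLift D U) :
    vs D ⊆ vP U := by
  intro v hv
  simp only [vs, mem_biUnion] at hv
  obtain ⟨T, hT, hv⟩ := hv
  obtain ⟨a, ha, hTa⟩ := hU.cover T hT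
  exact mem_biUnion.2 ⟨a, ha, fa_av hTa hv⟩

theorem vP_mono {P Q : Finset (Atom V c)} (h : P ⊆ Q) : vP P ⊆ vP Q :=
  biUnion_subset_biUnion_of_subset_left _ h

theorem vP_card (hc : 1 ≤ c) (P : Finset (Atom V c)) : (vP P).card ≤ P.card * (c + 2) :=
  card_biUnion_le_card_mul _ _ _ fun a _ => av_card_le hc a

/-- a member of a configuration is covered by the vertices of the other ones -/
theorem sub_rest {J : ℕ} {D : Finset (Tri V)} {T : Tri V} (hD : D ∈ (triSys V J).conf)
    (hT : T ∈ D) : T.1 ⊆ vs (D \ {T}) := by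
  obtain ⟨h3, _, _, h2, hm⟩ := conf_iff.1 hD
  have hsub : D \ {T} ⊆ D := sdiff_subset
  have hcard : (D \ {T}).card = D.card - 1 := by
    rw [card_sdiff_of_subset (singleton_subset_iff.2 hT), card_singleton]
  have hne : D \ {T} ≠ D := by
    intro h
    rw [h] at hcard
    omega
  have h4 := hm (D \ {T}) hsub hne (by omega)
  have h5 : vs (D \ {T}) = vs D :=
    eq_of_subset_of_card_le (vs_mono hsub) (by omega)
  rw [h5]
  exact sub_vs hT

open Classical in
/-- the lifts of `D \ {T}` by boosters -/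
noncomputable def WW (c J : ℕ) (T : Tri V) : Finset (Finset (Atom V c)) :=
  univ.filter (fun U => ∃ D ∈ (triSys V J).conf, T ∈ D ∧ IsLift (D \ {T}) U ∧
    ∀ a ∈ U, ∃ h, a = Sum.inr h)

theorem mem_WW {J : ℕ} {T : Tri V} {U : Finset (Atom V c)} : U ∈ WW c J T ↔
    ∃ D ∈ (triSys V J).conf, T ∈ D ∧ IsLift (D \ {T}) U ∧ ∀ a ∈ U, ∃ h, a = Sum.inr h := by
  classical
  unfold WW
  rw [mem_filter]
  exact ⟨fun h => h.2, fun h => ⟨mem_univ _, h⟩⟩

end SpTn

open SpTn in
/-- row L14 -/
theorem spT (hs : SumStatement) (hn : NewStatement) : SpTStatement := by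
  classical
  intro c J C L h6 hev hJ
  obtain ⟨C₀, hC₀, hsum⟩ := hs c (3 + L * (c + 2)) J C h6
  have hC₀0 : (0 : ℝ) ≤ C₀ := le_trans zero_le_one hC₀
  refine ⟨(L + 4) * 2 ^ L * C₀ ^ J + 2 ^ (L * (c + 2)) * 2 ^ L, ?_, ?_⟩
  · have h1 : (1 : ℝ) ≤ 2 ^ (L * (c + 2)) := one_le_pow₀ (by norm_num)
    have h2 : (1 : ℝ) ≤ 2 ^ L := one_le_pow₀ (by norm_num)
    have h3 : (0 : ℝ) ≤ (L + 4) * 2 ^ L * C₀ ^ J := by positivity
    nlinarith
  intro V _ _ E RT s B u yb hY hu e S0 he hS P hP
  have hc1 : 1 ≤ c := by omega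
  -- the weights
  set y : Atom V c → ℝ := yA c (fun _ => u) yb with hy
  set y0 : Atom V c → ℝ := yA c (fun _ => 0) yb with hy0
  have hy_nn : ∀ a, 0 ≤ y a := by
    intro a
    rcases a with T | h
    · exact hu
    · exact hY.nonneg h
  have hn1 : (1 : ℝ) ≤ Fintype.card V := by exact_mod_cast hY.hn
  have hn0 : (0 : ℝ) < Fintype.card V := lt_of_lt_of_le zero_lt_one hn1
  have hs0 : (0 : ℝ) < s := by exact_mod_cast hY.hs
  have hB0 : (0 : ℝ) ≤ B := le_trans zero_le_one hY.hB
  have hwb : WBound B RT y0 := by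
    refine ⟨?_, ?_, ?_, ?_, ?_⟩
    · intro a
      rcases a with T | h
      · exact le_rfl
      · exact hY.nonneg h
    · intro T
      show (0 : ℝ) ≤ B / Fintype.card V
      positivity
    · exact fun h => hY.boo h
    · exact fun h hh => hY.inj h hh
    · exact fun h hh => hY.root h hh
  set q : ℝ := 1 / s + 1 / Fintype.card V with hq
  have hq0 : 0 ≤ q := by positivity
  set A : ℝ := 2 ^ L * ((C₀ * B) ^ J * q) with hA
  have hA0 : 0 ≤ A := by positivity
  -- one triple
  have hone : ∀ T : Tri V, e ∈ NW.edg T.1 →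
      ∑ U ∈ (WW c J T).filter (fun U => ¬ U ⊆ P), ∏ a ∈ U \ P, y a ≤ A := by
    intro T heT
    have hF : (T.1 ∪ vP P).card ≤ 3 + L * (c + 2) := by
      refine (card_union_le _ _).trans ?_
      rw [T.2]
      have h1 := vP_card hc1 P
      have h2 : P.card * (c + 2) ≤ L * (c + 2) := Nat.mul_le_mul_right _ hP
      omega
    have h1 := (hsum V RT s B y0 (T.1 ∪ vP P)
      (((WW c J T).filter (fun U => ¬ U ⊆ P)).image (fun U => U \ P)) hY.hn hY.hs hY.hB hY.rb hwb
      hF (by
        intro X hX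
        obtain ⟨U, hU, rfl⟩ := mem_image.1 hX
        obtain ⟨D, hD, hTD, hl, _⟩ := mem_WW.1 (mem_filter.1 hU).1
        refine (card_le_card sdiff_subset).trans ((lift_card hl).trans ?_)
        exact (card_le_card sdiff_subset).trans (conf_iff.1 hD).2.1)).2 (by
        intro X hX hXy
        obtain ⟨U, hU, hUX⟩ := mem_image.1 hX
        have hUX' : U \ P = X := hUX
        obtain ⟨hUW, hUP⟩ := mem_filter.1 hU
        obtain ⟨D, hD, hTD, hl, hall⟩ := mem_WW.1 hUW
        have hXne : X.Nonempty := by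
          rw [← hUX']
          rw [nonempty_iff_ne_empty]
          intro h0
          exact hUP (sdiff_eq_empty_iff_subset.1 h0)
        obtain ⟨a, l, hal⟩ : ∃ a l, X.toList = a :: l := by
          rcases hXl : X.toList with _ | ⟨a, l⟩
          · rw [toList_eq_nil] at hXl
            exact absurd hXl hXne.ne_empty
          · exact ⟨a, l, rfl⟩
        have haX : a ∈ X := by
          rw [← mem_toList, hal]
          simp
        have haU : a ∈ U := by
          rw [← hUX'] at haX
          exact (mem_sdiff.1 haX).1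
        obtain ⟨h, rfl⟩ := hall a haU
        have hyh : yb h ≠ 0 := hXy _ haX
        have hnd : (Sum.inr h :: l : List (Atom V c)).Nodup := by
          rw [← hal]
          exact X.nodup_toList
        have htf : (Sum.inr h :: l : List (Atom V c)).toFinset = X := by
          rw [← hal]
          exact X.toList_toFinset
        refine ⟨h, l, hnd, htf, ?_⟩
        refine hn c J h6 hev hJ V D T U P (T.1 ∪ vP P) h l hD hTD hl subset_union_left
          subset_union_right ?_ hnd (by rw [htf, hUX'])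
        intro hrt
        have h2 := hY.rootE h hyh
        rw [hrt] at h2
        exact disjoint_left.1 h2 heT he)
    have h2 : ∑ X ∈ ((WW c J T).filter (fun U => ¬ U ⊆ P)).image (fun U => U \ P),
        ∏ a ∈ X, y a ≤ (C₀ * B) ^ J * q := by
      refine le_trans (le_of_eq ?_) h1
      refine sum_congr rfl fun X hX => prod_congr rfl fun a ha => ?_
      obtain ⟨U, hU, hUX⟩ := mem_image.1 hX
      obtain ⟨D, hD, hTD, hl, hall⟩ := mem_WW.1 (mem_filter.1 hU).1
      have hUX' : U \ P = X := hUX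
      rw [← hUX'] at ha
      obtain ⟨h, rfl⟩ := hall a (mem_sdiff.1 ha).1
      rfl
    refine (sum_sdiff_le hy_nn _ P h2).trans ?_
    refine mul_le_mul_of_nonneg_right ?_ (by positivity)
    exact pow_le_pow_right₀ (by norm_num) hP
  -- the parametrisation
  set S1 : Finset (Tri V) := S0.filter (fun T => e ∈ NW.edg T.1) with hS1
  set ins : Tri V → Finset (Atom V c) → Finset (Atom V c) :=
    fun T U => insert (Sum.inl T) U with hins
  have hmain : ∑ U ∈ (LT c J e S0).filter (fun U => ¬ U ⊆ P), ∏ a ∈ U \ P, y a ≤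
      ∑ T ∈ S1, ∑ U ∈ (WW c J T).filter (fun U => ¬ ins T U ⊆ P), ∏ a ∈ ins T U \ P, y a := by
    rw [Finset.sum_sigma']
    refine sum_param_le (g := fun U => ∏ a ∈ U \ P, y a)
      (fun U => prod_nonneg fun a _ => hy_nn a) _
      (fun p : (_ : Tri V) × Finset (Atom V c) => ins p.1 p.2) _ ?_
    intro U hU
    obtain ⟨hU1, hU2⟩ := mem_filter.1 hU
    unfold LT at hU1
    obtain ⟨D, hD, T, hT, hTD, heT, U', hl, hall, hUU⟩ := (mem_filter.1 hU1).2
    refine ⟨⟨T, U'⟩, ?_, hUU.symm⟩
    rw [mem_sigma]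
    refine ⟨mem_filter.2 ⟨hT, heT⟩, mem_filter.2 ⟨mem_WW.2 ⟨D, hD, hTD, hl, hall⟩, ?_⟩⟩
    rw [← show U = ins T U' from hUU]
    exact hU2
  -- one triple, all kinds
  have hkind : ∀ T ∈ S1, ∑ U ∈ (WW c J T).filter (fun U => ¬ ins T U ⊆ P),
      ∏ a ∈ ins T U \ P, y a ≤ (if (Sum.inl T : Atom V c) ∈ P then A else 0) + u * A +
        (if T.1 ⊆ vP P then 2 ^ L * u else 0) := by
    intro T hT
    have heT := (mem_filter.1 hT).2
    have hA1 := hone T heT
    have hthird : (0 : ℝ) ≤ (if T.1 ⊆ vP P then 2 ^ L * u else 0) := by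
      split_ifs
      · positivity
      · exact le_rfl
    by_cases hTP : (Sum.inl T : Atom V c) ∈ P
    · rw [if_pos hTP]
      have h1 : ∑ U ∈ (WW c J T).filter (fun U => ¬ ins T U ⊆ P), ∏ a ∈ ins T U \ P, y a =
          ∑ U ∈ (WW c J T).filter (fun U => ¬ U ⊆ P), ∏ a ∈ U \ P, y a := by
        have h2 : (WW c J T).filter (fun U => ¬ ins T U ⊆ P) =
            (WW c J T).filter (fun U => ¬ U ⊆ P) := by
          refine filter_congr fun U _ => ?_
          rw [hins]
          simp only [insert_subset_iff]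
          tauto
        rw [h2]
        refine sum_congr rfl fun U _ => ?_
        have h3 : ins T U \ P = U \ P := by
          rw [hins]
          simp only
          rw [insert_sdiff_of_mem _ hTP]
        rw [h3]
      rw [h1]
      have h4 : 0 ≤ u * A := mul_nonneg hu hA0
      linarith
    · rw [if_neg hTP]
      have h1 : (WW c J T).filter (fun U => ¬ ins T U ⊆ P) = WW c J T := by
        refine filter_true_of_mem fun U _ => ?_
        intro h2
        exact hTP (h2 (mem_insert_self _ _))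
      have h2 : ∀ U ∈ WW c J T, ∏ a ∈ ins T U \ P, y a = u * ∏ a ∈ U \ P, y a := by
        intro U hU
        obtain ⟨D, hD, hTD, hl, hall⟩ := mem_WW.1 hU
        have h3 : ins T U \ P = insert (Sum.inl T) (U \ P) := by
          rw [hins]
          simp only
          rw [insert_sdiff_of_notMem _ hTP]
        rw [h3, prod_insert]
        · rfl
        · intro h4
          obtain ⟨h, hh⟩ := hall _ (mem_sdiff.1 h4).1
          exact absurd hh (by simp)
      rw [h1, sum_congr rfl h2, ← mul_sum,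
        ← sum_filter_add_sum_filter_not (WW c J T) (fun U => ¬ U ⊆ P), mul_add, zero_add]
      refine add_le_add (mul_le_mul_of_nonneg_left hA1 hu) ?_
      have h3 : ∀ U ∈ (WW c J T).filter (fun U => ¬ ¬ U ⊆ P), ∏ a ∈ U \ P, y a = 1 := by
        intro U hU
        have h4 := not_not.1 (mem_filter.1 hU).2
        rw [sdiff_eq_empty_iff_subset.2 h4, prod_empty]
      rw [sum_congr rfl h3, sum_const, nsmul_eq_mul, mul_one]
      by_cases hTv : T.1 ⊆ vP P
      · rw [if_pos hTv, mul_comm]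
        refine mul_le_mul_of_nonneg_right ?_ hu
        have h4 : ((WW c J T).filter (fun U => ¬ ¬ U ⊆ P)).card ≤ P.powerset.card := by
          refine card_le_card fun U hU => ?_
          exact mem_powerset.2 (not_not.1 (mem_filter.1 hU).2)
        rw [card_powerset] at h4
        have h5 : 2 ^ P.card ≤ 2 ^ L := Nat.pow_le_pow_right (by norm_num) hP
        exact_mod_cast h4.trans h5
      · rw [if_neg hTv]
        have h4 : (WW c J T).filter (fun U => ¬ ¬ U ⊆ P) = ∅ := by
          refine filter_false_of_mem fun U hU => ?_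
          rw [not_not]
          intro h5
          obtain ⟨D, hD, hTD, hl, hall⟩ := mem_WW.1 hU
          exact hTv (((sub_rest hD hTD).trans (vs_lift hl)).trans (vP_mono h5))
        rw [h4, card_empty, Nat.cast_zero, mul_zero]
  -- the number of triples
  have hc1' : ∑ T ∈ S1, (if (Sum.inl T : Atom V c) ∈ P then A else 0) ≤ L * A := by
    rw [← sum_filter, sum_const, nsmul_eq_mul]
    refine mul_le_mul_of_nonneg_right ?_ hA0
    have h1 : (S1.filter (fun T => (Sum.inl T : Atom V c) ∈ P)).card ≤ P.card := by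
      refine card_le_card_of_injOn (fun T => (Sum.inl T : Atom V c))
        (fun T hT => (mem_filter.1 (mem_coe.1 hT)).2) ?_
      intro T _ T' _ h
      exact Sum.inl_injective h
    exact_mod_cast h1.trans hP
  have hc2 : ∑ T ∈ S1, u * A ≤ 4 * A := by
    rw [sum_const, nsmul_eq_mul, ← mul_assoc]
    exact mul_le_mul_of_nonneg_right hS hA0
  have hc3 : ∑ T ∈ S1, (if T.1 ⊆ vP P then 2 ^ L * u else 0) ≤
      2 ^ (L * (c + 2)) * (2 ^ L * u) := by
    rw [← sum_filter, sum_const, nsmul_eq_mul]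
    refine mul_le_mul_of_nonneg_right ?_ (by positivity)
    have h1 : (S1.filter (fun T => T.1 ⊆ vP P)).card ≤ (vP P).powerset.card := by
      refine card_le_card_of_injOn (fun T => T.1)
        (fun T hT => mem_coe.2 (mem_powerset.2 (mem_filter.1 (mem_coe.1 hT)).2)) ?_
      intro T _ T' _ h
      exact Subtype.ext h
    rw [card_powerset] at h1
    have h2 : (vP P).card ≤ L * (c + 2) :=
      (vP_card hc1 P).trans (Nat.mul_le_mul_right _ hP)
    have h3 : 2 ^ (vP P).card ≤ 2 ^ (L * (c + 2)) := Nat.pow_le_pow_right (by norm_num) h2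
    exact_mod_cast h1.trans h3
  -- the end
  have htot : ∑ U ∈ (LT c J e S0).filter (fun U => ¬ U ⊆ P), ∏ a ∈ U \ P, y a ≤
      L * A + 4 * A + 2 ^ (L * (c + 2)) * (2 ^ L * u) := by
    refine hmain.trans ((sum_le_sum hkind).trans ?_)
    rw [sum_add_distrib, sum_add_distrib]
    exact add_le_add (add_le_add hc1' hc2) hc3
  refine le_trans htot ?_
  have hBJ : 1 ≤ B ^ J := one_le_pow₀ hY.hB
  have e1 : (L : ℝ) * A + 4 * A = ((L + 4) * 2 ^ L * C₀ ^ J) * (B ^ J * q) := by
    rw [hA, mul_pow]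
    ring
  rw [e1]
  have hK : (0 : ℝ) ≤ (L + 4) * 2 ^ L * C₀ ^ J := by positivity
  have hM : (0 : ℝ) ≤ 2 ^ (L * (c + 2)) * 2 ^ L := by positivity
  have e2 : ((L + 4) * 2 ^ L * C₀ ^ J + 2 ^ (L * (c + 2)) * 2 ^ L) * B ^ J * (q + u) =
      ((L + 4) * 2 ^ L * C₀ ^ J) * (B ^ J * q) + ((L + 4) * 2 ^ L * C₀ ^ J) * (B ^ J * u) +
      (2 ^ (L * (c + 2)) * 2 ^ L) * (B ^ J * q) + (2 ^ (L * (c + 2)) * 2 ^ L) * (B ^ J * u) := by
    ring
  rw [e2]
  have hBq : 0 ≤ B ^ J * q := by positivity
  have hBu : u ≤ B ^ J * u := by nlinarith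
  have hBu0 : 0 ≤ B ^ J * u := by positivity
  have t1 : 0 ≤ ((L + 4) * 2 ^ L * C₀ ^ J) * (B ^ J * u) := mul_nonneg hK hBu0
  have t2 : 0 ≤ (2 ^ (L * (c + 2)) * 2 ^ L : ℝ) * (B ^ J * q) := mul_nonneg hM hBq
  have t3 : (2 ^ (L * (c + 2)) * 2 ^ L : ℝ) * u ≤ (2 ^ (L * (c + 2)) * 2 ^ L) * (B ^ J * u) :=
    mul_le_mul_of_nonneg_left hBu hM
  have e3 : (2 : ℝ) ^ (L * (c + 2)) * (2 ^ L * u) = (2 ^ (L * (c + 2)) * 2 ^ L) * u := by ring
  rw [e3]
  linarith

end F2
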