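import Pool.Agent.F2.L.Grp

/-!
# Project F2, row L13: the family `LY` is spread

For a known set `P`, the members `U` are grouped by `W = U \ P`.  If `W` contains a booster, its
root is not `T` (the root has no edge in `E`), and `NewStatement` applies.  If `W` consists of
triples, the booster of `U` is known, so two members of the configuration are known, and
`BasicStatement` applies.
-/

set_option autoImplicit false
set_option linter.unusedSectionVars false

namespace F2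

open Finset NW F1
open Pool.Agent.F2 (HH GG Spread)

section SpY

variable {V : Type} [Fintype V] [DecidableEq V] {c : ℕ}

/-- a list of `W` starting with a given element -/
theorem spy_list {α : Type*} [DecidableEq α] {W : Finset α} {a : α} (ha : a ∈ W) :
    ∃ l : List α, (a :: l).Nodup ∧ (a :: l).toFinset = W := by
  refine ⟨(W.erase a).toList, ?_, ?_⟩
  · rw [List.nodup_cons]
    refine ⟨?_, nodup_toList _⟩
    rw [mem_toList]
    exact notMem_erase a W
  · rw [List.toFinset_cons, toList_toFinset, insert_erase ha]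

/-- a booster of `U ∩ P` gives a second known member -/
theorem spy_knw {D : Finset (Tri V)} {T : Tri V} {U P : Finset (Atom V c)} {a : Atom V c}
    (hl : IsLift (D \ {T}) U) (haU : a ∈ U) (haP : a ∈ P) : 2 ≤ (knw D {T} U P).card := by
  obtain ⟨S, hS⟩ := hl.used a haU
  obtain ⟨hS1, hS2⟩ := mem_inter.1 hS
  obtain ⟨hS3, hS4⟩ := mem_sdiff.1 hS2
  have hne : T ≠ S := fun h => hS4 (mem_singleton.2 h.symm)
  have h1 : ({T, S} : Finset (Tri V)) ⊆ knw D {T} U P := by
    intro R hR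
    unfold knw
    rw [mem_union]
    rcases mem_insert.1 hR with h | h
    · exact Or.inl (mem_singleton.2 h)
    · rw [mem_singleton] at h
      rw [h]
      exact Or.inr (mem_inter.2 ⟨hS3, mem_biUnion.2 ⟨a, mem_inter.2 ⟨haU, haP⟩, hS1⟩⟩)
  have h2 := card_le_card h1
  rwa [card_pair hne] at h2

end SpY

/-- row L13 -/
theorem spY (hs : SumStatement) (hb : BasicStatement) (hn : NewStatement) : SpYStatement := by
  classical
  intro c J C L h6 hev hJ
  obtain ⟨C₀, hC₀, hsum⟩ := hs c (3 + (c + 3) * L) J C h6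
  have hCJ : (1 : ℝ) ≤ C₀ ^ J := one_le_pow₀ hC₀
  refine ⟨2 ^ (L + 1) * C₀ ^ J, one_le_mul_of_one_le_of_one_le (one_le_pow₀ (by norm_num)) hCJ, ?_⟩
  intro V _ _ E RT s B u yb hY hu huB T hT P hP
  have hn1 : (1 : ℝ) ≤ (Fintype.card V : ℝ) := by exact_mod_cast hY.hn
  have hn0 : (0 : ℝ) < (Fintype.card V : ℝ) := by linarith
  have hs0 : (0 : ℝ) < (s : ℝ) := by exact_mod_cast hY.hs
  have hB := hY.hB
  have hw := wbound_of_ybound hY hu huB
  have hF : (T.1 ∪ vP P).card ≤ 3 + (c + 3) * L := by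
    have h1 := card_union_le T.1 (vP P)
    have h2 := vP_card P
    have h3 : (c + 3) * P.card ≤ (c + 3) * L := Nat.mul_le_mul_left _ hP
    have h4 : T.1.card = 3 := T.2
    omega
  -- the classes
  set 𝒲 : Finset (Finset (Atom V c)) :=
    ((LY c J T).filter (fun U => ¬ U ⊆ P)).image (fun U => U \ P) with h𝒲
  have hmem : ∀ W ∈ 𝒲, ∃ (U : Finset (Atom V c)) (D : Finset (Tri V)), U \ P = W ∧ ¬ U ⊆ P ∧
      D ∈ (triSys V J).conf ∧ T ∈ D ∧ IsLift (D \ {T}) U ∧ ∃ h, Sum.inr h ∈ U := by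
    intro W hW
    obtain ⟨U, hU, hUW⟩ := mem_image.1 hW
    obtain ⟨hU1, hU2⟩ := mem_filter.1 hU
    obtain ⟨⟨D, hD, hTD, hl⟩, hh, -⟩ := (mem_filter.1 hU1).2
    exact ⟨U, D, hUW, hU2, hD, hTD, hl, hh⟩
  have hcard : ∀ W ∈ 𝒲, W.card ≤ J := by
    intro W hW
    obtain ⟨U, D, hUW, -, hD, -, hl, -⟩ := hmem W hW
    rw [← hUW]
    exact (card_le_card sdiff_subset).trans ((lift_card hl).trans
      ((card_le_card sdiff_subset).trans (F1.TriGood.conf_iff.1 hD).2.1))
  have hvs : vs ({T} : Finset (Tri V)) ⊆ T.1 ∪ vP P := by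
    intro v hv
    simp only [vs, mem_biUnion, mem_singleton] at hv
    obtain ⟨S, hS, hv⟩ := hv
    rw [hS] at hv
    exact mem_union_left _ hv
  -- a new booster
  have h1 : ∑ W ∈ 𝒲.filter (fun W => ∃ h, Sum.inr h ∈ W), ∏ a ∈ W, yA c (fun _ : Tri V => u) yb a ≤
      (C₀ * B) ^ J * (1 / s + 1 / Fintype.card V) := by
    refine (hsum V RT s B _ (T.1 ∪ vP P) _ hY.hn hY.hs hB hY.rb hw hF
      (fun W hW => hcard W (mem_filter.1 hW).1)).2 ?_
    intro W hW hne
    obtain ⟨hW1, h, hh⟩ := mem_filter.1 hW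
    obtain ⟨U, D, hUW, -, hD, hTD, hl, -⟩ := hmem W hW1
    obtain ⟨l, hnd, htf⟩ := spy_list hh
    refine ⟨h, l, hnd, htf, ?_⟩
    refine hn c J h6 hev hJ V D T U P (T.1 ∪ vP P) h l hD hTD hl subset_union_left
      subset_union_right ?_ hnd (by rw [htf, hUW])
    intro hrt
    have h2 := hY.rootE h (hne _ hh)
    rw [hrt] at h2
    exact hT h2
  -- no new booster
  have h2 : ∑ W ∈ 𝒲.filter (fun W => ¬ ∃ h, Sum.inr h ∈ W),
      ∏ a ∈ W, yA c (fun _ : Tri V => u) yb a ≤ (C₀ * B) ^ J / (Fintype.card V : ℝ) ^ 1 := by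
    refine (hsum V RT s B _ (T.1 ∪ vP P) _ hY.hn hY.hs hB hY.rb hw hF
      (fun W hW => hcard W (mem_filter.1 hW).1)).1 1 ?_
    intro W hW _
    obtain ⟨hW1, hW2⟩ := mem_filter.1 hW
    obtain ⟨U, D, hUW, hUP, hD, hTD, hl, h, hh⟩ := hmem W hW1
    have hhP : Sum.inr h ∈ P := by
      by_contra hc
      exact hW2 ⟨h, by rw [← hUW]; exact mem_sdiff.2 ⟨hh, hc⟩⟩
    refine ⟨W.toList, nodup_toList _, toList_toFinset _, ?_⟩
    have h8 := hb c J h6 hev hJ V D {T} U P (T.1 ∪ vP P) W.toList hD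
      (singleton_subset_iff.2 hTD) hl hvs subset_union_right (nodup_toList _)
      (by rw [toList_toFinset, hUW])
    have h9 := h8.2.2.2 (spy_knw hl hh hhP) (by
      rw [ne_eq, sdiff_eq_empty_iff_subset]
      exact hUP)
    exact_mod_cast h9
  have h3 : ∑ W ∈ 𝒲, ∏ a ∈ W, yA c (fun _ : Tri V => u) yb a ≤
      2 * ((C₀ * B) ^ J * (1 / s + 1 / Fintype.card V)) := by
    rw [← sum_filter_add_sum_filter_not 𝒲 (fun W => ∃ h, Sum.inr h ∈ W)]
    have h4 : (C₀ * B) ^ J / (Fintype.card V : ℝ) ^ 1 ≤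
        (C₀ * B) ^ J * (1 / s + 1 / Fintype.card V) := by
      rw [pow_one, div_eq_mul_one_div]
      refine mul_le_mul_of_nonneg_left ?_ (by positivity)
      have : (0 : ℝ) ≤ 1 / s := by positivity
      linarith
    linarith
  refine (sum_sdiff_le hw.nonneg (LY c J T) P).trans ?_
  have h5 : (2 : ℝ) ^ P.card ≤ 2 ^ L := pow_le_pow_right₀ (by norm_num) hP
  have h6 : 0 ≤ 2 * ((C₀ * B) ^ J * (1 / s + 1 / Fintype.card V)) := by positivity
  calc (2 : ℝ) ^ P.card * ∑ W ∈ 𝒲, ∏ a ∈ W, yA c (fun _ : Tri V => u) yb a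
      ≤ 2 ^ P.card * (2 * ((C₀ * B) ^ J * (1 / s + 1 / Fintype.card V))) :=
        mul_le_mul_of_nonneg_left h3 (by positivity)
    _ ≤ 2 ^ L * (2 * ((C₀ * B) ^ J * (1 / s + 1 / Fintype.card V))) :=
        mul_le_mul_of_nonneg_right h5 h6
    _ = 2 ^ (L + 1) * C₀ ^ J * B ^ J * (1 / s + 1 / Fintype.card V) := by
        rw [mul_pow]
        ring

end F2
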