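import Pool.Agent.F2.SpecL2

/-!
# Project F2, row L17: the sum over the configurations through a triple
-/

set_option autoImplicit false

namespace F2

open Finset NW F1

namespace TS

variable {V : Type} [Fintype V] [DecidableEq V]

/-- the weights -/
noncomputable def yT (V : Type) [Fintype V] [DecidableEq V] (c : ℕ) (K : ℝ) (a : Atom V c) : ℝ :=
  Sum.elim (fun _ => 2 * K / Fintype.card V) (fun _ => 0) a

/-- the atoms of `D \ {T}` -/
def im (c : ℕ) (T : Tri V) (D : Finset (Tri V)) : Finset (Atom V c) := (D \ {T}).image Sum.inl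

theorem isLift_im (c : ℕ) (T : Tri V) (D : Finset (Tri V)) : IsLift (D \ {T}) (im c T D) where
  cover := fun T' hT' => ⟨Sum.inl T', mem_image_of_mem _ hT', by simp [fa]⟩
  uniq := by
    intro T' _ a ha b hb h1 h2
    obtain ⟨a', _, rfl⟩ := mem_image.1 ha
    obtain ⟨b', _, rfl⟩ := mem_image.1 hb
    simp only [fa, Sum.elim_inl, mem_singleton] at h1 h2
    rw [← h1, ← h2]
  used := by
    intro a ha
    obtain ⟨a', ha', rfl⟩ := mem_image.1 ha
    exact ⟨a', mem_inter.2 ⟨by simp [fa], ha'⟩⟩
  inj := by
    intro h hh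
    obtain ⟨a', _, h'⟩ := mem_image.1 hh
    cases h'
  col := by
    intro h hh
    obtain ⟨a', _, h'⟩ := mem_image.1 hh
    cases h'

theorem card_im (c : ℕ) {T : Tri V} {D : Finset (Tri V)} (hT : T ∈ D) :
    (im c T D).card = D.card - 1 := by
  rw [im, card_image_of_injective _ Sum.inl_injective, card_sdiff_of_subset (by simpa using hT),
    card_singleton]

theorem prod_im (c : ℕ) (K : ℝ) {T : Tri V} {D : Finset (Tri V)} (hT : T ∈ D) :
    ∏ a ∈ im c T D, yT V c K a = (2 * K / Fintype.card V) ^ (D.card - 1) := by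
  rw [← card_im c hT, ← prod_const]
  refine prod_congr rfl fun a ha => ?_
  obtain ⟨a', _, rfl⟩ := mem_image.1 ha
  rfl

theorem im_inj (c : ℕ) {T : Tri V} {D D' : Finset (Tri V)} (h : T ∈ D) (h' : T ∈ D')
    (e : im c T D = im c T D') : D = D' := by
  have e1 : D \ {T} = D' \ {T} := Finset.image_injective Sum.inl_injective e
  rw [← sdiff_union_of_subset (show ({T} : Finset (Tri V)) ⊆ D by simpa using h), e1,
    sdiff_union_of_subset (show ({T} : Finset (Tri V)) ⊆ D' by simpa using h')]

theorem rbound : RBound 0 1 (∅ : Finset (Tri V)) where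
  vert := by intro v; simp
  pair := by intro e; simp

theorem wbound (c : ℕ) {K : ℝ} (hK : 0 < K) {B : ℝ} (hB : 2 * K ≤ B) :
    WBound B (∅ : Finset (Tri V)) (yT V c K) where
  nonneg := by
    rintro (T | h)
    · simp only [yT, Sum.elim_inl]; positivity
    · simp [yT]
  tri := by
    intro T
    simp only [yT, Sum.elim_inl]
    exact div_le_div_of_nonneg_right hB (Nat.cast_nonneg _)
  boo := by
    intro h
    have : 0 ≤ B := by linarith
    simp only [yT, Sum.elim_inr]
    positivity
  inj := by
    intro h hh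
    exact absurd (by simp [yT]) hh
  root := by
    intro h hh
    exact absurd (by simp [yT]) hh

end TS

open TS in
theorem triSum (hs : SumStatement) (hb : BasicStatement) : TriSumStatement := by
  intro J K hK
  obtain ⟨C₀, hC₀, hsum⟩ := hs (2 * J + 6) 3 J 0 (by omega)
  refine ⟨max 1 ((C₀ * max 1 (2 * K)) ^ J), le_max_left _ _, fun V _ _ T hn => ?_⟩
  have hcard : ∀ D ∈ (triSys V J).conf, D.card ≤ J := by
    intro D hD
    exact (mem_filter.1 hD).2.2.1
  have key := (hsum V ∅ 1 (max 1 (2 * K)) (yT V (2 * J + 6) K) T.1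
    (((triSys V J).conf.filter (fun D => T ∈ D)).image (im (2 * J + 6) T)) hn le_rfl
    (le_max_left _ _) rbound (wbound _ hK (le_max_right _ _)) T.2.le (by
      intro U hU
      obtain ⟨D, hD, rfl⟩ := mem_image.1 hU
      rw [mem_filter] at hD
      rw [card_im _ hD.2]
      have := hcard D hD.1
      omega)).1 0 (by
      intro U hU _
      obtain ⟨D, hD, rfl⟩ := mem_image.1 hU
      rw [mem_filter] at hD
      refine ⟨(im (2 * J + 6) T D).toList, nodup_toList _, toList_toFinset _, ?_⟩
      have h := (hb (2 * J + 6) J (by omega) ⟨J + 3, by ring⟩ (by omega) V D {T}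
        (im (2 * J + 6) T D) ∅ T.1 (im (2 * J + 6) T D).toList hD.1 (by simpa using hD.2)
        (isLift_im _ T D) (by simp [vs]) (by simp [vP]) (nodup_toList _)
        (by rw [toList_toFinset, sdiff_empty])).1
      have e1 : (knw D {T} (im (2 * J + 6) T D) ∅).card = 1 := by simp [knw]
      have e2 : (vs D ∩ T.1).card = 3 := by
        have : T.1 ⊆ vs D := subset_biUnion_of_mem (fun T : Tri V => T.1) hD.2
        rw [inter_eq_right.2 this]
        exact T.2
      rw [e1, e2] at h
      simpa using h)
  rw [sum_image (fun D hD D' hD' e => im_inj _ (mem_filter.1 hD).2 (mem_filter.1 hD').2 e)] at key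
  rw [pow_zero, div_one] at key
  refine le_trans (le_of_eq ?_) (key.trans (le_max_right _ _))
  exact sum_congr rfl fun D hD => (prod_im _ K (mem_filter.1 hD).2).symm

end F2
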