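import Pool.Agent.F2.SpecL2
import Pool.Agent.NW.Final

/-!
# Project F2, block L, row L18: the probabilities of the placements
-/

set_option autoImplicit false
set_option linter.unusedSectionVars false

namespace F2

open Finset NW F1

section YP

variable {V : Type} [Fintype V] [DecidableEq V] {c : ℕ}

theorem yp_mem {E : Finset (Sym2 V)} {r : Tri V} {h : Fin (c + 2) → V} :
    h ∈ Pl c E r ↔ Function.Injective h ∧ rt c h = r.1 ∧ bE c h ⊆ E := by
  simp [Pl]

theorem yp_ne {E : Finset (Sym2 V)} {RT : Finset (Tri V)} {h : Fin (c + 2) → V}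
    (hy : yP c E RT h ≠ 0) : ∃ r ∈ RT, h ∈ Pl c E r := by
  by_contra hc
  push Not at hc
  apply hy
  unfold yP
  rw [Finset.filter_false_of_mem hc, Finset.sum_empty]

theorem yp_eq {E : Finset (Sym2 V)} {RT : Finset (Tri V)} {h : Fin (c + 2) → V} {r : Tri V}
    (hr : rt c h = r.1) :
    yP c E RT h = if r ∈ RT ∧ h ∈ Pl c E r then 1 / ((Pl c E r).card : ℝ) else 0 := by
  have huniq : ∀ r' : Tri V, h ∈ Pl c E r' → r' = r := by
    intro r' h'
    apply Subtype.ext
    rw [← (yp_mem.1 h').2.1, hr]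
  unfold yP
  split_ifs with hc
  · rw [Finset.sum_eq_single r]
    · intro b hb hbr
      exact absurd (huniq b (Finset.mem_filter.1 hb).2) hbr
    · intro hn
      exact absurd (Finset.mem_filter.2 hc) hn
  · apply Finset.sum_eq_zero
    intro b hb
    obtain ⟨hb1, hb2⟩ := Finset.mem_filter.1 hb
    have := huniq b hb2
    subst this
    exact absurd ⟨hb1, hb2⟩ hc

theorem yp_nonneg (E : Finset (Sym2 V)) (RT : Finset (Tri V)) (h : Fin (c + 2) → V) :
    0 ≤ yP c E RT h :=
  Finset.sum_nonneg fun _ _ => by positivity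

theorem yp_one (E : Finset (Sym2 V)) (RT : Finset (Tri V)) (r : Tri V) :
    ∑ h ∈ univ.filter (fun h : Fin (c + 2) → V => rt c h = r.1), yP c E RT h ≤ 1 := by
  have h1 : ∑ h ∈ univ.filter (fun h : Fin (c + 2) → V => rt c h = r.1), yP c E RT h =
      ∑ h ∈ univ.filter (fun h : Fin (c + 2) → V => rt c h = r.1),
        (if r ∈ RT ∧ h ∈ Pl c E r then 1 / ((Pl c E r).card : ℝ) else 0) :=
    Finset.sum_congr rfl fun h hh => yp_eq (Finset.mem_filter.1 hh).2
  rw [h1]
  calc ∑ h ∈ univ.filter (fun h : Fin (c + 2) → V => rt c h = r.1),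
        (if r ∈ RT ∧ h ∈ Pl c E r then 1 / ((Pl c E r).card : ℝ) else 0)
      ≤ ∑ h : Fin (c + 2) → V, (if h ∈ Pl c E r then 1 / ((Pl c E r).card : ℝ) else 0) := by
        refine (Finset.sum_le_sum (g := fun h : Fin (c + 2) → V =>
          (if h ∈ Pl c E r then 1 / ((Pl c E r).card : ℝ) else 0)) ?_).trans
          (Finset.sum_le_sum_of_subset_of_nonneg (Finset.filter_subset _ _) ?_)
        · intro h _
          show (if r ∈ RT ∧ h ∈ Pl c E r then 1 / ((Pl c E r).card : ℝ) else 0) ≤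
            (if h ∈ Pl c E r then 1 / ((Pl c E r).card : ℝ) else 0)
          by_cases h2 : h ∈ Pl c E r
          · by_cases h3 : r ∈ RT
            · simp [h2, h3]
            · simp [h2, h3]
          · simp [h2]
        · intro h _ _
          split_ifs
          · positivity
          · exact le_rfl
    _ = ∑ _h ∈ Pl c E r, 1 / ((Pl c E r).card : ℝ) := by
        rw [← Finset.sum_filter]
        congr 1
        ext h
        simp
    _ ≤ 1 := by
        rw [Finset.sum_const, nsmul_eq_mul]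
        rcases Nat.eq_zero_or_pos (Pl c E r).card with h0 | h0
        · rw [h0]; simp
        · rw [mul_one_div_cancel]
          exact_mod_cast h0.ne'

end YP

/-- row L18 -/
theorem yp (hp : PlaceStatement) : YPStatement := by
  intro c C ε hc6 hce hε
  refine ⟨max 1 ((2 / ε) ^ (c - 1)), le_max_left _ _, ⌈((c : ℝ) + 2) / ε⌉₊ + 1, ?_⟩
  intro V _ _ E' A X RT s θ hs hb
  have hn : ((c : ℝ) + 2) / ε ≤ (Fintype.card V : ℝ) := by
    refine (Nat.le_ceil _).trans ?_
    have h1 := hb.hn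
    have h2 : ⌈((c : ℝ) + 2) / ε⌉₊ ≤ Fintype.card V := by omega
    exact_mod_cast h2
  have hn1 : 1 ≤ Fintype.card V := by
    have h1 := hb.hn
    omega
  have hc6' : (6 : ℝ) ≤ c := by exact_mod_cast hc6
  have hεn : (c : ℝ) + 2 ≤ ε * (Fintype.card V : ℝ) := by
    rw [div_le_iff₀ hε] at hn
    linarith
  set n : ℝ := (Fintype.card V : ℝ) with hndef
  have hnpos : 0 < n := by
    have : (1 : ℝ) ≤ n := by rw [hndef]; exact_mod_cast hn1
    linarith
  set d : ℕ := ⌊ε * n⌋₊ with hd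
  have hd1 : (d : ℝ) ≤ ε * n := Nat.floor_le (by positivity)
  have hd2 : ε * n / 2 ≤ (d : ℝ) := by
    have h1 : ε * n < (d : ℝ) + 1 := Nat.lt_floor_add_one _
    linarith
  have hdpos : 0 < d := by
    have h1 : (0 : ℝ) < d := by linarith
    exact_mod_cast h1
  have hPl : ∀ r : Tri V, d ^ (c - 1) ≤ (Pl c E' r).card := by
    intro r
    refine hp c hc6 hce V E' d r ?_
    intro S hS
    have h1 := NW.card_cnbr hb.deg S ∅ hS
    rw [Finset.card_empty] at h1
    have h2 : ((d + c + 2 : ℕ) : ℝ) ≤ ((cnbr E' S ∅).card : ℝ) := by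
      push_cast
      have h3 : 4 * ε * n - ((0 : ℕ) : ℝ) ≤ ((cnbr E' S ∅).card : ℝ) := h1
      push_cast at h3
      nlinarith
    exact_mod_cast h2
  have hPpos : ∀ r : Tri V, 0 < (Pl c E' r).card := fun r =>
    lt_of_lt_of_le (pow_pos hdpos _) (hPl r)
  refine ⟨fun r _ => Finset.card_pos.1 (hPpos r), ?_⟩
  refine ⟨hn1, hs, le_max_left _ _, ⟨hb.vert, hb.pair⟩, yp_nonneg E' RT, ?_, ?_, ?_, ?_, ?_,
    yp_one E' RT⟩
  · intro h
    by_cases h0 : yP c E' RT h = 0
    · rw [h0]
      positivity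
    · obtain ⟨r, hr, hh⟩ := yp_ne h0
      rw [yp_eq (yp_mem.1 hh).2.1, if_pos ⟨hr, hh⟩]
      have h1 : (ε * n / 2) ^ (c - 1) ≤ ((Pl c E' r).card : ℝ) := by
        calc (ε * n / 2) ^ (c - 1) ≤ (d : ℝ) ^ (c - 1) := by
              exact pow_le_pow_left₀ (by positivity) hd2 _
          _ ≤ ((Pl c E' r).card : ℝ) := by exact_mod_cast hPl r
      have h2 : 0 < (ε * n / 2) ^ (c - 1) := by positivity
      calc 1 / ((Pl c E' r).card : ℝ) ≤ 1 / (ε * n / 2) ^ (c - 1) :=
            one_div_le_one_div_of_le h2 h1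
        _ = (2 / ε) ^ (c - 1) / n ^ (c - 1) := by
            rw [← div_pow, ← one_div_pow]
            congr 1
            field_simp
        _ ≤ max 1 ((2 / ε) ^ (c - 1)) / n ^ (c - 1) :=
            div_le_div_of_nonneg_right (le_max_right _ _) (by positivity)
  · intro h h0
    obtain ⟨r, _, hh⟩ := yp_ne h0
    exact (yp_mem.1 hh).1
  · intro h h0
    obtain ⟨r, hr, hh⟩ := yp_ne h0
    exact ⟨r, hr, (yp_mem.1 hh).2.1⟩
  · intro h h0
    obtain ⟨r, _, hh⟩ := yp_ne h0
    exact (yp_mem.1 hh).2.2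
  · intro h h0
    obtain ⟨r, hr, hh⟩ := yp_ne h0
    rw [(yp_mem.1 hh).2.1]
    refine Finset.disjoint_of_subset_left (hb.root r hr) ?_
    rw [Finset.disjoint_union_left]
    exact ⟨hb.dA.symm, hb.dX.symm⟩

end F2
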