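import Pool.Agent.F2.SpecL2

/-!
# Project F2, row L8: helper lemmas for the spread families
-/

set_option autoImplicit false
set_option linter.unusedSectionVars false

namespace F2

open Finset NW F1

theorem sum_sdiff_le {α : Type*} [DecidableEq α] {y : α → ℝ} (hy : ∀ a, 0 ≤ y a)
    (UU : Finset (Finset α)) (P : Finset α) :
    ∑ U ∈ UU with ¬ U ⊆ P, ∏ a ∈ U \ P, y a ≤
      2 ^ P.card * ∑ W ∈ (UU.filter (fun U => ¬ U ⊆ P)).image (fun U => U \ P),
        ∏ a ∈ W, y a := by
  set UF := UU.filter (fun U => ¬ U ⊆ P) with hUF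
  rw [← Finset.sum_fiberwise_of_maps_to (s := UF) (g := fun U => U \ P)
    (t := UF.image (fun U => U \ P)) (fun U hU => mem_image_of_mem _ hU), mul_sum]
  refine sum_le_sum (fun W _ => ?_)
  have hc : (UF.filter (fun U => U \ P = W)).card ≤ 2 ^ P.card := by
    rw [← card_powerset]
    refine card_le_card_of_injOn (fun U => U ∩ P) ?_ ?_
    · intro U _
      exact mem_coe.2 (mem_powerset.2 inter_subset_right)
    · intro U hU U' hU' h
      have h1 : U \ P = W := (mem_filter.1 (mem_coe.1 hU)).2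
      have h2 : U' \ P = W := (mem_filter.1 (mem_coe.1 hU')).2
      have h3 : U ∩ P = U' ∩ P := h
      rw [← sdiff_union_inter U P, ← sdiff_union_inter U' P, h1, h2, h3]
  calc ∑ U ∈ UF.filter (fun U => U \ P = W), ∏ a ∈ U \ P, y a
      = ∑ U ∈ UF.filter (fun U => U \ P = W), ∏ a ∈ W, y a :=
        sum_congr rfl (fun U hU => by rw [(mem_filter.1 hU).2])
    _ = ((UF.filter (fun U => U \ P = W)).card : ℝ) * ∏ a ∈ W, y a := by
        rw [sum_const, nsmul_eq_mul]
    _ ≤ 2 ^ P.card * ∏ a ∈ W, y a :=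
        mul_le_mul_of_nonneg_right (by exact_mod_cast hc) (prod_nonneg (fun a _ => hy a))

theorem lift_card {V : Type} [Fintype V] [DecidableEq V] {c : ℕ} {D : Finset (Tri V)}
    {U : Finset (Atom V c)} (h : IsLift D U) : U.card ≤ D.card := by
  refine card_le_card_of_forall_subsingleton (fun a T => T ∈ fa a) ?_ ?_
  · intro a ha
    obtain ⟨T, hT⟩ := h.used a ha
    exact ⟨T, (mem_inter.1 hT).2, (mem_inter.1 hT).1⟩
  · intro T hT a ha b hb
    exact h.uniq T hT a ha.1 b hb.1 ha.2 hb.2

theorem av_card {V : Type} [Fintype V] [DecidableEq V] {c : ℕ} (a : Atom V c) :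
    (av a).card ≤ c + 3 := by
  rcases a with T | h
  · have h1 : (av (Sum.inl T : Atom V c)).card = 3 := T.2
    omega
  · have h1 : (av (Sum.inr h : Atom V c)).card ≤ c + 2 := by
      refine (card_image_le (s := (univ : Finset (Fin (c + 2)))) (f := h)).trans ?_
      simp
    omega

theorem vP_card {V : Type} [Fintype V] [DecidableEq V] {c : ℕ} (P : Finset (Atom V c)) :
    (vP P).card ≤ (c + 3) * P.card := by
  rw [mul_comm]
  exact card_biUnion_le_card_mul P av (c + 3) (fun a _ => av_card a)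

theorem wbound_of_ybound {V : Type} [Fintype V] [DecidableEq V] {c C s : ℕ} {B u : ℝ}
    {E : Finset (Sym2 V)} {RT : Finset (Tri V)} {yb : (Fin (c + 2) → V) → ℝ}
    (h : YBound c C s B E RT yb) (hu : 0 ≤ u) (hu' : u ≤ B / Fintype.card V) :
    WBound B RT (yA c (fun _ => u) yb) where
  nonneg := by
    rintro (T | k)
    · exact hu
    · exact h.nonneg k
  tri := fun _ => hu'
  boo := h.boo
  inj := h.inj
  root := h.root

end F2
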