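import Pool.Agent.F2.SpecL2
import Pool.Agent.F2.L.Grp

/-!
# Project F2, row L20: the selection of the boosters (`SelStatement`)
-/

set_option autoImplicit false
set_option linter.unusedSectionVars false

namespace F2

open Finset NW F1
open Pool.Agent.F2 (HH GG Spread)

namespace SelA

/-- a weighted family of sets of atoms -/
structure Fam (V : Type) [Fintype V] [DecidableEq V] (c : ℕ) where
  y : Tri V → ℝ
  e : ℝ
  a : ℝ
  k : ℕ
  F : Finset (Finset (Atom V c))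

section F

variable {V : Type} [Fintype V] [DecidableEq V] {c : ℕ}

/-- what has to be known about a family -/
structure FamOK (fm : Fam V c) (yb : (Fin (c + 2) → V) → ℝ) (L : ℕ) (m : ℝ) : Prop where
  card : ∀ U ∈ fm.F, fm.k * U.card ≤ L
  y : ∀ T, 0 ≤ fm.y T
  e : 0 ≤ fm.e
  a : 0 ≤ fm.a
  m : fm.a * GG fm.e (yA c fm.y yb) fm.F fm.k ≤ m

theorem yA_nonneg {yτ : Tri V → ℝ} {yb : (Fin (c + 2) → V) → ℝ} (h1 : ∀ T, 0 ≤ yτ T)
    (h2 : ∀ h, 0 ≤ yb h) : ∀ a, 0 ≤ yA c yτ yb a := by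
  intro a
  rcases a with T | h
  · exact h1 T
  · exact h2 h

theorem fam_ok {yb : (Fin (c + 2) → V) → ℝ} {y : Tri V → ℝ} {e a η M m : ℝ} {k J' L : ℕ}
    {F : Finset (Finset (Atom V c))} (he : 0 ≤ e) (ha : 0 ≤ a) (hm : 0 ≤ m)
    (hy : ∀ T, 0 ≤ y T) (hyb : ∀ h, 0 ≤ yb h) (hJ : ∀ U ∈ F, U.card ≤ J')
    (hs : a ≠ 0 → Spread (yA c y yb) F (k * J') η ∧ a * M ^ k ≤ m) (hη : 0 ≤ η)
    (hM : η + 2 ^ (k * J') * e ≤ M) (hL : k * J' ≤ L) :
    FamOK ⟨y, e, a, k, F⟩ yb L m where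
  card := fun U hU => le_trans (Nat.mul_le_mul_left k (hJ U hU)) hL
  y := hy
  e := he
  a := ha
  m := by
    show a * GG e (yA c y yb) F k ≤ m
    by_cases h0 : a = 0
    · rw [h0, zero_mul]
      exact hm
    · obtain ⟨h1, h2⟩ := hs h0
      have h3 := Pool.Agent.F2.spread he hη (yA_nonneg hy hyb) hJ h1
      have h4 : GG e (yA c y yb) F k ≤ M ^ k :=
        le_trans h3 (pow_le_pow_left₀ (by positivity) hM k)
      exact le_trans (mul_le_mul_of_nonneg_left h4 ha) h2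

theorem ybound_mono {C s : ℕ} {B B' : ℝ} {E : Finset (Sym2 V)} {RT : Finset (Tri V)}
    {yb : (Fin (c + 2) → V) → ℝ} (h : YBound c C s B E RT yb) (hB : B ≤ B') :
    YBound c C s B' E RT yb where
  hn := h.hn
  hs := h.hs
  hB := le_trans h.hB hB
  rb := h.rb
  nonneg := h.nonneg
  boo := fun x => le_trans (h.boo x) (div_le_div_of_nonneg_right hB (by positivity))
  inj := h.inj
  root := h.root
  new := h.new
  rootE := h.rootE
  one := h.one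

theorem rz_nonneg (RT : Finset (Tri V)) (hh : Tri V → (Fin (c + 2) → V)) :
    ∀ h, 0 ≤ rz c RT hh h := by
  intro h
  unfold rz
  split_ifs
  · exact zero_le_one
  · exact le_rfl

theorem card_tri : Fintype.card (Tri V) ≤ Fintype.card V ^ 3 := by
  have h1 : Fintype.card (Tri V) = (Fintype.card V).choose 3 := Fintype.card_finset_len 3
  rw [h1]
  exact Nat.choose_le_pow _ _

theorem card_sym2 (hn : 1 ≤ Fintype.card V) : Fintype.card (Sym2 V) ≤ Fintype.card V ^ 2 := by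
  rw [Sym2.card, Nat.choose_two_right]
  have h1 : Fintype.card V + 1 - 1 = Fintype.card V := rfl
  rw [h1]
  apply Nat.div_le_of_le_mul
  nlinarith

/-- at most `n` triples contain a given pair -/
theorem thr (e : Sym2 V) :
    ((univ : Finset (Tri V)).filter (fun T => e ∈ NW.edg T.1)).card ≤ Fintype.card V := by
  induction e with
  | _ x y =>
  have h1 : ((univ : Finset (Tri V)).filter (fun T => s(x, y) ∈ NW.edg T.1)).image
      (fun T => T.1) ⊆ univ.image (fun z : V => ({x, y, z} : Finset V)) := by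
    intro S hS
    rw [mem_image] at hS
    obtain ⟨T, hT, rfl⟩ := hS
    rw [mem_filter] at hT
    obtain ⟨hx, hy, hxy⟩ := NW.mk_mem_edg.1 hT.2
    have h2 : 0 < (T.1 \ {x, y}).card := by
      have h3 := le_card_sdiff ({x, y} : Finset V) T.1
      rw [T.2, card_pair hxy] at h3
      omega
    obtain ⟨z, hz⟩ := card_pos.1 h2
    rw [mem_sdiff, mem_insert, mem_singleton, not_or] at hz
    rw [mem_image]
    refine ⟨z, mem_univ _, eq_of_subset_of_card_le ?_ ?_⟩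
    · intro w hw
      rw [mem_insert, mem_insert, mem_singleton] at hw
      rcases hw with rfl | rfl | rfl
      · exact hx
      · exact hy
      · exact hz.1
    · rw [T.2, card_insert_of_notMem, card_pair]
      · exact fun h => hz.2.2 h.symm
      · rw [mem_insert, mem_singleton, not_or]
        exact ⟨hxy, fun h => hz.2.1 h.symm⟩
  have h2 := card_le_card h1
  rw [card_image_of_injective _ Subtype.val_injective] at h2
  exact le_trans h2 (le_trans card_image_le (by rw [card_univ]))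

/-! ### the members of the families are small -/

variable {J : ℕ}

theorem LA_card {T T' : Tri V} : ∀ U ∈ LA c J T T', U.card ≤ J := by
  classical
  intro U hU
  unfold LA at hU
  rw [mem_filter] at hU
  obtain ⟨_, D, hD, _, _, hl, _⟩ := hU
  exact le_trans (lift_card hl) (le_trans (card_le_card sdiff_subset) (TriGood.conf_iff.1 hD).2.1)

theorem LA'_card {T T' : Tri V} : ∀ U ∈ LA' c J T T', U.card ≤ J := by
  classical
  intro U hU
  unfold LA' at hU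
  rw [mem_filter] at hU
  obtain ⟨_, D, hD, _, _, hl⟩ := hU
  exact le_trans (lift_card hl) (le_trans (card_le_card sdiff_subset) (TriGood.conf_iff.1 hD).2.1)

theorem LB_card {T : Tri V} {e : Sym2 V} : ∀ U ∈ LB c J T e, U.card ≤ J := by
  classical
  intro U hU
  unfold LB at hU
  rw [mem_filter] at hU
  obtain ⟨_, D, hD, _, _, hl⟩ := hU
  exact le_trans (lift_card hl) (le_trans (card_le_card sdiff_subset) (TriGood.conf_iff.1 hD).2.1)

theorem LE_card {T T' : Tri V} : ∀ U ∈ LE c J T T', U.card ≤ 2 * J := by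
  classical
  intro U hU
  unfold LE at hU
  rw [mem_filter] at hU
  obtain ⟨_, D₁, hD₁, D₂, hD₂, Ts, U₁, U₂, _, _, _, _, hl1, hl2, _, _, rfl⟩ := hU
  have h1 := le_trans (lift_card hl1)
    (le_trans (card_le_card sdiff_subset) (TriGood.conf_iff.1 hD₁).2.1)
  have h2 := le_trans (lift_card hl2)
    (le_trans (card_le_card sdiff_subset) (TriGood.conf_iff.1 hD₂).2.1)
  have h3 := card_union_le U₁ U₂
  omega

theorem LF_card {e : Sym2 V} : ∀ U ∈ LF c J e, U.card ≤ J := by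
  classical
  intro U hU
  unfold LF at hU
  rw [mem_filter] at hU
  obtain ⟨_, D, hD, _, hl⟩ := hU
  exact le_trans (lift_card hl) (TriGood.conf_iff.1 hD).2.1

theorem LY_card {T : Tri V} : ∀ U ∈ LY c J T, U.card ≤ J := by
  classical
  intro U hU
  unfold LY at hU
  rw [mem_filter] at hU
  obtain ⟨_, ⟨D, hD, _, hl⟩, _⟩ := hU
  exact le_trans (lift_card hl) (le_trans (card_le_card sdiff_subset) (TriGood.conf_iff.1 hD).2.1)

theorem LT_card {e : Sym2 V} {S0 : Finset (Tri V)} : ∀ U ∈ LT c J e S0, U.card ≤ J := by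
  classical
  intro U hU
  unfold LT at hU
  rw [mem_filter] at hU
  obtain ⟨_, D, hD, T, _, hT, _, U', hl, _, rfl⟩ := hU
  have h1 := lift_card hl
  have h2 : (D \ {T}).card = D.card - 1 := by
    rw [card_sdiff_of_subset (singleton_subset_iff.2 hT), card_singleton]
  have h3 : 1 ≤ D.card := card_pos.2 ⟨T, hT⟩
  have h4 := (TriGood.conf_iff.1 hD).2.1
  have h5 := card_insert_le (Sum.inl T : Atom V c) U'
  omega

theorem LD_card {v : V} : ∀ U ∈ LD c v, U.card ≤ 1 := by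
  intro U hU
  unfold LD at hU
  rw [mem_image] at hU
  obtain ⟨h, _, rfl⟩ := hU
  rw [card_singleton]

theorem bad_card {W : Finset (Fin (c + 2) → V)} (hW : W ∈ bad V c J) :
    W.card ≤ max 2 J ∧ W.Nonempty := by
  classical
  unfold bad at hW
  rw [mem_filter] at hW
  rcases hW.2 with ⟨a, b, _, _, rfl⟩ | ⟨h2, D, hD, hl⟩
  · exact ⟨le_trans card_le_two (le_max_left _ _), ⟨a, mem_insert_self _ _⟩⟩
  · refine ⟨le_trans ?_ (le_max_right _ _), card_pos.1 (by omega)⟩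
    have h3 := lift_card hl
    rw [card_image_of_injective _ Sum.inr_injective] at h3
    exact le_trans h3 (TriGood.conf_iff.1 hD).2.1

/-- the index type -/
abbrev Idx (V : Type) [Fintype V] [DecidableEq V] : Type :=
  (Tri V × Tri V) ⊕ (Tri V × Tri V) ⊕ (Tri V × Sym2 V) ⊕ (Tri V × Tri V) ⊕ Sym2 V ⊕ Tri V ⊕
    Sym2 V ⊕ Sym2 V ⊕ V

variable (c J) in
/-- the families with their coefficients -/
noncomputable def fam (k k₂ s : ℕ) (K θ : ℝ) (E' X : Finset (Sym2 V)) : Idx V → Fam V c :=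
  Sum.elim (fun p => ⟨fun _ => (2 * K + s ^ 2) / Fintype.card V,
    (Fintype.card V : ℝ) ^ (-(19 / 20) : ℝ),
    if p.1 ≠ p.2 then ((Fintype.card V : ℝ) ^ (-(9 / 10) * k : ℝ))⁻¹ else 0, k,
    LA c J p.1 p.2⟩) <|
  Sum.elim (fun p => ⟨fun _ => (2 * K + s ^ 2) / Fintype.card V,
    (Fintype.card V : ℝ) ^ (-(19 / 20) : ℝ),
    if p.1 ≠ p.2 then ((Fintype.card V : ℝ) ^ (-(9 / 10) * k : ℝ))⁻¹ else 0, k,
    LA' c J p.1 p.2⟩) <|
  Sum.elim (fun p => ⟨fun _ => (2 * K + s ^ 2) / Fintype.card V,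
    (Fintype.card V : ℝ) ^ (-(19 / 20) : ℝ),
    if p.2 ∉ NW.edg p.1.1 then ((Fintype.card V : ℝ) ^ (-(9 / 10) * k : ℝ))⁻¹ else 0, k,
    LB c J p.1 p.2⟩) <|
  Sum.elim (fun p => ⟨fun _ => (2 * K + s ^ 2) / Fintype.card V,
    (Fintype.card V : ℝ) ^ (-(19 / 20) : ℝ),
    ((Fintype.card V : ℝ) ^ (-(9 / 10) * k : ℝ))⁻¹, k, LE c J p.1 p.2⟩) <|
  Sum.elim (fun e => ⟨fun _ => (2 * K + s ^ 2) / Fintype.card V, 1,
    (((Fintype.card V : ℝ) ^ (3 * J * θ)) ^ k₂)⁻¹, k₂, LF c J e⟩) <|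
  Sum.elim (fun T => ⟨fun _ => 2 * K / Fintype.card V, 2 * K / Fintype.card V,
    if ¬ Disjoint (NW.edg T.1) E' then 1 else 0, k₂, LY c J T⟩) <|
  Sum.elim (fun e => ⟨fun _ => 1 / Fintype.card V, 1 / Fintype.card V,
    if e ∈ E' then (((Fintype.card V : ℝ) ^ (-(θ / 2))) ^ k₂)⁻¹ else 0, k₂,
    LT c J e univ⟩) <|
  Sum.elim (fun e => ⟨fun _ => s ^ 2 / Fintype.card V, s ^ 2 / Fintype.card V,
    if e ∈ E' then (((Fintype.card V : ℝ) ^ (-(θ / 2))) ^ k₂)⁻¹ else 0, k₂,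
    LT c J e (triV E' X)⟩) <|
  (fun v => ⟨fun _ => 0, 1,
    (((Fintype.card V : ℝ) ^ (1 - θ / 2) / (c + 2)) ^ k₂)⁻¹, k₂, LD c v⟩)

theorem ite_nn {p : Prop} [Decidable p] {x : ℝ} (hx : 0 ≤ x) : 0 ≤ (if p then x else 0) := by
  split_ifs
  · exact hx
  · exact le_rfl

theorem ite_le' {p : Prop} [Decidable p] {x y : ℝ} (hxy : x ≤ y) (hy : 0 ≤ y) :
    (if p then x else 0) ≤ y := by
  split_ifs
  · exact hxy
  · exact hy

/-- the bounds of the terms -/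
noncomputable def mm (V : Type) [Fintype V] [DecidableEq V] (mA mF mY mT mD : ℝ) : Idx V → ℝ :=
  Sum.elim (fun _ => mA) <| Sum.elim (fun _ => mA) <| Sum.elim (fun _ => mA) <|
  Sum.elim (fun _ => mA) <| Sum.elim (fun _ => mF) <| Sum.elim (fun _ => mY) <|
  Sum.elim (fun _ => mT) <| Sum.elim (fun _ => mT) <| (fun _ => mD)

theorem sum_mm {mA mF mY mT mD q : ℝ} (hn : 1 ≤ Fintype.card V) (h1 : 0 ≤ mA) (h2 : 0 ≤ mF)
    (h3 : 0 ≤ mY) (h4 : 0 ≤ mT)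
    (hA : (Fintype.card V : ℝ) ^ 6 * mA ≤ q) (hF : (Fintype.card V : ℝ) ^ 2 * mF ≤ q)
    (hY : (Fintype.card V : ℝ) ^ 3 * mY ≤ q) (hT : (Fintype.card V : ℝ) ^ 2 * mT ≤ q)
    (hD : (Fintype.card V : ℝ) * mD ≤ q) : ∑ i, mm V mA mF mY mT mD i ≤ 9 * q := by
  have hn0 : (1 : ℝ) ≤ Fintype.card V := by exact_mod_cast hn
  have c3 : (Fintype.card (Tri V) : ℝ) ≤ (Fintype.card V : ℝ) ^ 3 := by
    exact_mod_cast card_tri (V := V)
  have c2 : (Fintype.card (Sym2 V) : ℝ) ≤ (Fintype.card V : ℝ) ^ 2 := by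
    exact_mod_cast card_sym2 (V := V) hn
  have c6 : (Fintype.card (Tri V) : ℝ) * (Fintype.card (Tri V) : ℝ) ≤
      (Fintype.card V : ℝ) ^ 6 := by
    calc (Fintype.card (Tri V) : ℝ) * (Fintype.card (Tri V) : ℝ) ≤
        (Fintype.card V : ℝ) ^ 3 * (Fintype.card V : ℝ) ^ 3 :=
          mul_le_mul c3 c3 (by positivity) (by positivity)
      _ = _ := by ring
  have c5 : (Fintype.card (Tri V) : ℝ) * (Fintype.card (Sym2 V) : ℝ) ≤
      (Fintype.card V : ℝ) ^ 6 := by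
    calc (Fintype.card (Tri V) : ℝ) * (Fintype.card (Sym2 V) : ℝ) ≤
        (Fintype.card V : ℝ) ^ 3 * (Fintype.card V : ℝ) ^ 2 :=
          mul_le_mul c3 c2 (by positivity) (by positivity)
      _ = (Fintype.card V : ℝ) ^ 5 := by ring
      _ ≤ _ := pow_le_pow_right₀ hn0 (by norm_num)
  have e6 := le_trans (mul_le_mul_of_nonneg_right c6 h1) hA
  have e5 := le_trans (mul_le_mul_of_nonneg_right c5 h1) hA
  have e2 := le_trans (mul_le_mul_of_nonneg_right c2 h2) hF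
  have e3 := le_trans (mul_le_mul_of_nonneg_right c3 h3) hY
  have e4 := le_trans (mul_le_mul_of_nonneg_right c2 h4) hT
  unfold mm
  simp only [Fintype.sum_sum_type, Sum.elim_inl, Sum.elim_inr, sum_const, card_univ,
    nsmul_eq_mul, Fintype.card_prod, Nat.cast_mul]
  linarith

/-- one target -/
theorem target {t G : ℝ} (ht : 0 < t) (h : t⁻¹ * G < 1) : G ≤ t := by
  have h1 : G = t * (t⁻¹ * G) := by
    field_simp
  rw [h1]
  nlinarith

/-- the conclusion from the selection -/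
theorem concl {k k₂ s : ℕ} {K θ : ℝ} {E' X : Finset (Sym2 V)} {RT : Finset (Tri V)}
    {hh : Tri V → (Fin (c + 2) → V)} (hn : 1 ≤ Fintype.card V)
    (hmem : ∀ r ∈ RT, hh r ∈ Pl c E' r) (hbad : ∀ W ∈ bad V c J, ∃ h ∈ W, h ∉ RT.image hh)
    (hu : (2 * K + s ^ 2) / Fintype.card V ≤ 1)
    (hsum : ∑ i, (fam c J k k₂ s K θ E' X i).a * GG (fam c J k k₂ s K θ E' X i).e
      (yA c (fam c J k k₂ s K θ E' X i).y (rz c RT hh)) (fam c J k k₂ s K θ E' X i).F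
        (fam c J k k₂ s K θ E' X i).k < 1)
    (hok : ∀ i, (∀ T, 0 ≤ (fam c J k k₂ s K θ E' X i).y T) ∧
      0 ≤ (fam c J k k₂ s K θ E' X i).e ∧ 0 ≤ (fam c J k k₂ s K θ E' X i).a) :
    Sel c J k k₂ s K θ E' X RT hh := by
  have hn0 : (0 : ℝ) < Fintype.card V := by exact_mod_cast hn
  have hone : ∀ i, (fam c J k k₂ s K θ E' X i).a * GG (fam c J k k₂ s K θ E' X i).e
      (yA c (fam c J k k₂ s K θ E' X i).y (rz c RT hh)) (fam c J k k₂ s K θ E' X i).F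
        (fam c J k k₂ s K θ E' X i).k < 1 := by
    intro i
    refine lt_of_le_of_lt ?_ hsum
    refine single_le_sum (f := fun i => (fam c J k k₂ s K θ E' X i).a *
      GG (fam c J k k₂ s K θ E' X i).e (yA c (fam c J k k₂ s K θ E' X i).y (rz c RT hh))
        (fam c J k k₂ s K θ E' X i).F (fam c J k k₂ s K θ E' X i).k) ?_ (mem_univ i)
    intro j _
    obtain ⟨h1, h2, h3⟩ := hok j
    exact mul_nonneg h3 (Pool.Agent.F2.GG_nonneg h2 (yA_nonneg h1 (rz_nonneg RT hh)) _)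
  have hc2 : (0 : ℝ) < (c : ℝ) + 2 := by positivity
  refine ⟨hmem, hbad, hu, ?_, ?_, ?_, ?_, ?_, ?_, ?_, ?_, ?_⟩
  · intro T T' hne
    have h1 := hone (Sum.inl (T, T'))
    have h2 : (fam c J k k₂ s K θ E' X (Sum.inl (T, T'))).a =
        ((Fintype.card V : ℝ) ^ (-(9 / 10) * k : ℝ))⁻¹ := if_pos hne
    rw [h2] at h1
    exact target (Real.rpow_pos_of_pos hn0 _) h1
  · intro T T' hne
    have h1 := hone (Sum.inr (Sum.inl (T, T')))
    have h2 : (fam c J k k₂ s K θ E' X (Sum.inr (Sum.inl (T, T')))).a =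
        ((Fintype.card V : ℝ) ^ (-(9 / 10) * k : ℝ))⁻¹ := if_pos hne
    rw [h2] at h1
    exact target (Real.rpow_pos_of_pos hn0 _) h1
  · intro T e hne
    have h1 := hone (Sum.inr (Sum.inr (Sum.inl (T, e))))
    have h2 : (fam c J k k₂ s K θ E' X (Sum.inr (Sum.inr (Sum.inl (T, e))))).a =
        ((Fintype.card V : ℝ) ^ (-(9 / 10) * k : ℝ))⁻¹ := if_pos hne
    rw [h2] at h1
    exact target (Real.rpow_pos_of_pos hn0 _) h1
  · intro T T'
    have h1 := hone (Sum.inr (Sum.inr (Sum.inr (Sum.inl (T, T')))))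
    exact target (Real.rpow_pos_of_pos hn0 _) h1
  · intro e
    have h1 := hone (Sum.inr (Sum.inr (Sum.inr (Sum.inr (Sum.inl e)))))
    exact target (pow_pos (Real.rpow_pos_of_pos hn0 _) _) h1
  · intro T hT
    have h1 := hone (Sum.inr (Sum.inr (Sum.inr (Sum.inr (Sum.inr (Sum.inl T))))))
    have h2 : (fam c J k k₂ s K θ E' X
        (Sum.inr (Sum.inr (Sum.inr (Sum.inr (Sum.inr (Sum.inl T))))))).a = 1 := if_pos hT
    rw [h2, one_mul] at h1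
    exact le_of_lt h1
  · intro e he
    have h1 := hone (Sum.inr (Sum.inr (Sum.inr (Sum.inr (Sum.inr (Sum.inr (Sum.inl e)))))))
    have h2 : (fam c J k k₂ s K θ E' X
        (Sum.inr (Sum.inr (Sum.inr (Sum.inr (Sum.inr (Sum.inr (Sum.inl e)))))))).a =
          (((Fintype.card V : ℝ) ^ (-(θ / 2))) ^ k₂)⁻¹ := if_pos he
    rw [h2] at h1
    exact target (pow_pos (Real.rpow_pos_of_pos hn0 _) _) h1
  · intro e he
    have h1 := hone
      (Sum.inr (Sum.inr (Sum.inr (Sum.inr (Sum.inr (Sum.inr (Sum.inr (Sum.inl e))))))))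
    have h2 : (fam c J k k₂ s K θ E' X
        (Sum.inr (Sum.inr (Sum.inr (Sum.inr (Sum.inr (Sum.inr (Sum.inr (Sum.inl e))))))))).a =
          (((Fintype.card V : ℝ) ^ (-(θ / 2))) ^ k₂)⁻¹ := if_pos he
    rw [h2] at h1
    exact target (pow_pos (Real.rpow_pos_of_pos hn0 _) _) h1
  · intro v
    have h1 := hone
      (Sum.inr (Sum.inr (Sum.inr (Sum.inr (Sum.inr (Sum.inr (Sum.inr (Sum.inr v))))))))
    exact target (pow_pos (div_pos (Real.rpow_pos_of_pos hn0 _) hc2) _) h1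

/-! ### the bounds of the families -/

theorem grp1 {J' J₁ k L s n : ℕ} {CX B₁ C₂ u a : ℝ} {yb : (Fin (c + 2) → V) → ℝ}
    {F : Finset (Finset (Atom V c))} (hn : 1 ≤ n) (hs : 1 ≤ s) (hCX : 1 ≤ CX) (hB₁ : 1 ≤ B₁)
    (h1 : CX * B₁ ^ (2 * J) ≤ C₂) (h2 : 2 ^ (k * J') ≤ C₂) (hu : 0 ≤ u) (ha : 0 ≤ a)
    (ha' : a ≤ (n : ℝ) ^ ((9 / 10) * k : ℝ)) (hyb : ∀ h, 0 ≤ yb h)
    (hJ : ∀ U ∈ F, U.card ≤ J') (hJ₁ : J₁ ≤ 2 * J)
    (hsp : a ≠ 0 → Spread (yA c (fun _ => u) yb) F (k * J') (CX * (B₁ * s ^ 2) ^ J₁ / n))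
    (hL : k * J' ≤ L) :
    FamOK ⟨fun _ => u, (n : ℝ) ^ (-(19 / 20) : ℝ), a, k, F⟩ yb L
      ((n : ℝ) ^ ((9 / 10) * k : ℝ) *
        (C₂ * ((s : ℝ) ^ 2) ^ (2 * J) / n + C₂ * (n : ℝ) ^ (-(19 / 20) : ℝ)) ^ k) := by
  have hn0 : (0 : ℝ) < n := by exact_mod_cast hn
  have hs1 : (1 : ℝ) ≤ s := by exact_mod_cast hs
  have hC₂ : 0 ≤ C₂ := le_trans (by positivity) h1
  have he0 : 0 ≤ (n : ℝ) ^ (-(19 / 20) : ℝ) := (Real.rpow_pos_of_pos hn0 _).le
  have hM0 : 0 ≤ C₂ * ((s : ℝ) ^ 2) ^ (2 * J) / n + C₂ * (n : ℝ) ^ (-(19 / 20) : ℝ) := by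
    positivity
  refine fam_ok (η := CX * (B₁ * s ^ 2) ^ J₁ / n)
    (M := C₂ * ((s : ℝ) ^ 2) ^ (2 * J) / n + C₂ * (n : ℝ) ^ (-(19 / 20) : ℝ))
    he0 ha (by positivity) (fun _ => hu) hyb hJ ?_ (by positivity) ?_ hL
  · intro h0
    exact ⟨hsp h0, mul_le_mul_of_nonneg_right ha' (pow_nonneg hM0 k)⟩
  · have h3 : (B₁ * (s : ℝ) ^ 2) ^ J₁ ≤ B₁ ^ (2 * J) * ((s : ℝ) ^ 2) ^ (2 * J) := by
      rw [← mul_pow]
      refine pow_le_pow_right₀ ?_ hJ₁
      have : (1 : ℝ) ≤ (s : ℝ) ^ 2 := one_le_pow₀ hs1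
      nlinarith
    have h4 : CX * (B₁ * (s : ℝ) ^ 2) ^ J₁ ≤ C₂ * ((s : ℝ) ^ 2) ^ (2 * J) := by
      calc CX * (B₁ * (s : ℝ) ^ 2) ^ J₁ ≤ CX * (B₁ ^ (2 * J) * ((s : ℝ) ^ 2) ^ (2 * J)) :=
            mul_le_mul_of_nonneg_left h3 (by positivity)
        _ = (CX * B₁ ^ (2 * J)) * ((s : ℝ) ^ 2) ^ (2 * J) := by ring
        _ ≤ C₂ * ((s : ℝ) ^ 2) ^ (2 * J) := mul_le_mul_of_nonneg_right h1 (by positivity)
    exact add_le_add (div_le_div_of_nonneg_right h4 hn0.le) (mul_le_mul_of_nonneg_right h2 he0)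

theorem grpF {k L s : ℕ} {CX B₁ C₂ u a t : ℝ} {yb : (Fin (c + 2) → V) → ℝ}
    {F : Finset (Finset (Atom V c))} (hCX : 1 ≤ CX) (hB₁ : 1 ≤ B₁)
    (h1 : CX * B₁ ^ J ≤ C₂) (h2 : 2 ^ (k * J) ≤ C₂) (hu : 0 ≤ u) (ha : 0 ≤ a) (ht : 0 ≤ t)
    (ha' : a ≤ t) (hyb : ∀ h, 0 ≤ yb h) (hJ : ∀ U ∈ F, U.card ≤ J)
    (hsp : a ≠ 0 → Spread (yA c (fun _ => u) yb) F (k * J) (CX * (B₁ * s ^ 2) ^ J))
    (hL : k * J ≤ L) :
    FamOK ⟨fun _ => u, 1, a, k, F⟩ yb L (t * (C₂ * ((s : ℝ) ^ 2) ^ J + C₂) ^ k) := by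
  have hC₂ : 0 ≤ C₂ := le_trans (by positivity) h1
  refine fam_ok (η := CX * (B₁ * s ^ 2) ^ J) (M := C₂ * ((s : ℝ) ^ 2) ^ J + C₂)
    zero_le_one ha (by positivity) (fun _ => hu) hyb hJ ?_ (by positivity) ?_ hL
  · intro h0
    exact ⟨hsp h0, mul_le_mul_of_nonneg_right ha' (by positivity)⟩
  · have h4 : CX * (B₁ * (s : ℝ) ^ 2) ^ J ≤ C₂ * ((s : ℝ) ^ 2) ^ J := by
      rw [mul_pow]
      calc CX * (B₁ ^ J * ((s : ℝ) ^ 2) ^ J) = (CX * B₁ ^ J) * ((s : ℝ) ^ 2) ^ J := by ring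
        _ ≤ C₂ * ((s : ℝ) ^ 2) ^ J := mul_le_mul_of_nonneg_right h1 (by positivity)
    rw [mul_one]
    exact add_le_add h4 h2

theorem grpY {k L s n : ℕ} {CX B₁ C₂ κ a : ℝ} {yb : (Fin (c + 2) → V) → ℝ}
    {F : Finset (Finset (Atom V c))} (hCX : 1 ≤ CX) (hB₁ : 1 ≤ B₁)
    (h1 : CX * B₁ ^ J ≤ C₂) (h2 : 2 ^ (k * J) * κ ≤ C₂) (hκ : 0 ≤ κ) (ha : 0 ≤ a)
    (ha' : a ≤ 1) (hyb : ∀ h, 0 ≤ yb h) (hJ : ∀ U ∈ F, U.card ≤ J)
    (hsp : a ≠ 0 → Spread (yA c (fun _ => κ / n) yb) F (k * J) (CX * B₁ ^ J * (1 / s + 1 / n)))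
    (hL : k * J ≤ L) :
    FamOK ⟨fun _ => κ / n, κ / n, a, k, F⟩ yb L
      ((C₂ * (1 / s + 1 / n : ℝ) + C₂ * (1 / n : ℝ)) ^ k) := by
  have hC₂ : 0 ≤ C₂ := le_trans (by positivity) h1
  refine fam_ok (η := CX * B₁ ^ J * (1 / s + 1 / n))
    (M := C₂ * (1 / s + 1 / n : ℝ) + C₂ * (1 / n : ℝ))
    (by positivity) ha (by positivity) (fun _ => by positivity) hyb hJ ?_ (by positivity) ?_ hL
  · intro h0
    refine ⟨hsp h0, ?_⟩
    calc a * (C₂ * (1 / s + 1 / n : ℝ) + C₂ * (1 / n : ℝ)) ^ k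
        ≤ 1 * (C₂ * (1 / s + 1 / n : ℝ) + C₂ * (1 / n : ℝ)) ^ k :=
          mul_le_mul_of_nonneg_right ha' (by positivity)
      _ = _ := one_mul _
  · have h4 : 2 ^ (k * J) * (κ / n) ≤ C₂ * (1 / n : ℝ) := by
      calc (2 : ℝ) ^ (k * J) * (κ / n) = (2 ^ (k * J) * κ) * (1 / n) := by ring
        _ ≤ C₂ * (1 / n) := mul_le_mul_of_nonneg_right h2 (by positivity)
    exact add_le_add (mul_le_mul_of_nonneg_right h1 (by positivity)) h4

theorem grpT {k L s n : ℕ} {CX B₁ C₂ u a t : ℝ} {yb : (Fin (c + 2) → V) → ℝ}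
    {F : Finset (Finset (Atom V c))} (hCX : 1 ≤ CX) (hB₁ : 1 ≤ B₁)
    (h1 : CX * B₁ ^ J ≤ C₂) (h2 : 2 ^ (k * J) ≤ C₂) (hu : 0 ≤ u) (hu2 : u ≤ (s : ℝ) ^ 2 / n)
    (ha : 0 ≤ a) (ht : 0 ≤ t)
    (ha' : a ≤ t) (hyb : ∀ h, 0 ≤ yb h) (hJ : ∀ U ∈ F, U.card ≤ J)
    (hsp : a ≠ 0 → Spread (yA c (fun _ => u) yb) F (k * J)
      (CX * B₁ ^ J * (1 / s + 1 / n + u)))
    (hL : k * J ≤ L) :
    FamOK ⟨fun _ => u, u, a, k, F⟩ yb L
      (t * (C₂ * (1 / s + 1 / n + (s : ℝ) ^ 2 / n : ℝ) + C₂ * ((s : ℝ) ^ 2 / n : ℝ)) ^ k) := by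
  have hC₂ : 0 ≤ C₂ := le_trans (by positivity) h1
  refine fam_ok (η := CX * B₁ ^ J * (1 / s + 1 / n + u))
    (M := C₂ * (1 / s + 1 / n + (s : ℝ) ^ 2 / n : ℝ) + C₂ * ((s : ℝ) ^ 2 / n : ℝ))
    hu ha (by positivity) (fun _ => hu) hyb hJ ?_ (by positivity) ?_ hL
  · intro h0
    exact ⟨hsp h0, mul_le_mul_of_nonneg_right ha' (by positivity)⟩
  · refine add_le_add ?_ ?_
    · exact mul_le_mul h1 (by linarith) (by positivity) hC₂
    · exact mul_le_mul h2 hu2 hu hC₂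

theorem grpD {k L s n : ℕ} {CX B₁ C₂ a t : ℝ} {yb : (Fin (c + 2) → V) → ℝ}
    {F : Finset (Finset (Atom V c))} (hCX : 1 ≤ CX) (hB₁ : 1 ≤ B₁)
    (h1 : CX * B₁ ≤ C₂) (h2 : 2 ^ (k * 1) ≤ C₂) (ha : 0 ≤ a) (ht : 0 ≤ t)
    (ha' : a ≤ t) (hyb : ∀ h, 0 ≤ yb h) (hJ : ∀ U ∈ F, U.card ≤ 1)
    (hsp : a ≠ 0 → Spread (yA c (fun _ => 0) yb) F (k * 1) (CX * B₁ * (n / s)))
    (hL : k * 1 ≤ L) :
    FamOK ⟨fun _ => 0, 1, a, k, F⟩ yb L (t * (C₂ * (n / s : ℝ) + C₂) ^ k) := by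
  have hC₂ : 0 ≤ C₂ := le_trans (by positivity) h1
  refine fam_ok (η := CX * B₁ * (n / s)) (M := C₂ * (n / s : ℝ) + C₂)
    zero_le_one ha (by positivity) (fun _ => le_rfl) hyb hJ ?_ (by positivity) ?_ hL
  · intro h0
    exact ⟨hsp h0, mul_le_mul_of_nonneg_right ha' (by positivity)⟩
  · rw [mul_one]
    exact add_le_add (mul_le_mul_of_nonneg_right h1 (by positivity)) h2

end F

end SelA

open SelA in
theorem sel (hm : MSelectStatement) (hA : SpAStatement) (hB : SpBStatement) (hE : SpEStatement)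
    (hY : SpYStatement) (hT : SpTStatement) (hD : SpDStatement) (hbad : BadStatement)
    (hyp : YPStatement) (hnum : NumStatement) : SelStatement := by
  intro J c C ε K hJ hc hev hJc hε hK k hk
  obtain ⟨B₀, hB₀, n₁, hP⟩ := hyp c C ε hc hev hε
  have hJ0 : (0 : ℝ) < J := by
    have : 0 < J := by omega
    exact_mod_cast this
  refine ⟨1 / (200 * J), by positivity, ?_⟩
  intro θ hθ hθ'
  set k₂ : ℕ := max 1 ⌈12 / θ⌉₊ with hk₂
  have hk₂1 : 1 ≤ k₂ := le_max_left _ _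
  have hk₂2 : 12 / θ ≤ (k₂ : ℝ) := by
    refine le_trans (Nat.le_ceil _) ?_
    exact_mod_cast le_max_right _ _
  set L : ℕ := k * (2 * J) + k * J + k₂ * J + k₂ * 1 + J + 2 with hL
  have hL1 : 1 ≤ L := by omega
  obtain ⟨CA, hCA, fA⟩ := hA c J C (k * J) hc hev hJc
  obtain ⟨CB, hCB, fB⟩ := hB c J C (k * J) hc hev hJc
  obtain ⟨CE, hCE, fE⟩ := hE c J C (k * (2 * J)) hc hev hJc
  obtain ⟨CF, hCF, fF⟩ := hB c J C (k₂ * J) hc hev hJc
  obtain ⟨CY, hCY, fY⟩ := hY c J C (k₂ * J) hc hev hJc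
  obtain ⟨CT, hCT, fT⟩ := hT c J C (k₂ * J) hc hev hJc
  obtain ⟨CD, hCD, fD⟩ := hD c C (k₂ * 1) hc hev
  obtain ⟨Cb, hCb, fb⟩ := hbad c J C hc hev hJc hJ
  set B₁ : ℝ := 2 * K + 1 + B₀ with hB₁
  have hB₁1 : 1 ≤ B₁ := by rw [hB₁]; linarith
  have hp0 : 1 ≤ B₁ ^ J := one_le_pow₀ hB₁1
  have hp1 : B₁ ^ J ≤ B₁ ^ (2 * J) := pow_le_pow_right₀ hB₁1 (by omega)
  obtain ⟨C₂, k1, k2, k3, k4, k5, k6, k7, k8, k9, k10, k11, k12, k13, k14, k15⟩ :
      ∃ C₂ : ℝ, CA * B₁ ^ (2 * J) ≤ C₂ ∧ CB * B₁ ^ (2 * J) ≤ C₂ ∧ CE * B₁ ^ (2 * J) ≤ C₂ ∧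
        CF * B₁ ^ J ≤ C₂ ∧ CY * B₁ ^ J ≤ C₂ ∧ CT * B₁ ^ J ≤ C₂ ∧ CD * B₁ ≤ C₂ ∧
        2 ^ (k * J) ≤ C₂ ∧ 2 ^ (k * (2 * J)) ≤ C₂ ∧ 2 ^ (k₂ * J) ≤ C₂ ∧
        2 ^ (k₂ * J) * (2 * K) ≤ C₂ ∧ 2 ^ (k₂ * 1) ≤ C₂ ∧ 8 * L * (Cb * B₁ ^ J) ≤ C₂ ∧
        10 * 2 ^ L ≤ C₂ ∧ (c : ℝ) + 2 + (2 * K + 1) ≤ C₂ := by
    refine ⟨CA * B₁ ^ (2 * J) + CB * B₁ ^ (2 * J) + CE * B₁ ^ (2 * J) + CF * B₁ ^ J +
      CY * B₁ ^ J + CT * B₁ ^ J + CD * B₁ + 2 ^ (k * J) + 2 ^ (k * (2 * J)) + 2 ^ (k₂ * J) +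
      2 ^ (k₂ * J) * (2 * K) + 2 ^ (k₂ * 1) + 8 * L * (Cb * B₁ ^ J) + 10 * 2 ^ L +
      ((c : ℝ) + 2 + (2 * K + 1)), ?_⟩
    have a1 : 0 ≤ CA * B₁ ^ (2 * J) := by positivity
    have a2 : 0 ≤ CB * B₁ ^ (2 * J) := by positivity
    have a3 : 0 ≤ CE * B₁ ^ (2 * J) := by positivity
    have a4 : 0 ≤ CF * B₁ ^ J := by positivity
    have a5 : 0 ≤ CY * B₁ ^ J := by positivity
    have a6 : 0 ≤ CT * B₁ ^ J := by positivity
    have a7 : 0 ≤ CD * B₁ := by positivity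
    have a8 : (0 : ℝ) ≤ 2 ^ (k * J) := by positivity
    have a9 : (0 : ℝ) ≤ 2 ^ (k * (2 * J)) := by positivity
    have a10 : (0 : ℝ) ≤ 2 ^ (k₂ * J) := by positivity
    have a11 : (0 : ℝ) ≤ 2 ^ (k₂ * J) * (2 * K) := by positivity
    have a12 : (0 : ℝ) ≤ 2 ^ (k₂ * 1) := by positivity
    have a13 : (0 : ℝ) ≤ 8 * L * (Cb * B₁ ^ J) := by positivity
    have a14 : (0 : ℝ) ≤ 10 * 2 ^ L := by positivity
    have a15 : (0 : ℝ) ≤ (c : ℝ) + 2 + (2 * K + 1) := by positivity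
    refine ⟨?_, ?_, ?_, ?_, ?_, ?_, ?_, ?_, ?_, ?_, ?_, ?_, ?_, ?_, ?_⟩ <;> linarith
  have hC₂1 : 1 ≤ C₂ := by
    have : (0 : ℝ) ≤ c := Nat.cast_nonneg _
    linarith
  have hC₂0 : 0 < C₂ := by linarith
  have hθ'' : 4 * (J : ℝ) * θ ≤ 1 / 50 := by
    have h1 : 4 * (J : ℝ) * θ ≤ 4 * J * (1 / (200 * J)) :=
      mul_le_mul_of_nonneg_left hθ' (by positivity)
    have h2 : 4 * (J : ℝ) * (1 / (200 * J)) = 1 / 50 := by
      field_simp
      norm_num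
    linarith
  obtain ⟨n₂, hN⟩ := hnum J k k₂ C₂ θ (by omega) hk hC₂1 hθ hθ'' hk₂2
  refine ⟨max (max n₁ n₂) 3, k₂, hk₂1, ?_⟩
  intro V _ _ E' A X RT s hBH
  have hT₀ : Nonempty (Tri V) := by
    obtain ⟨t, _, ht⟩ := Finset.exists_subset_card_eq
      (s := (univ : Finset V)) (n := 3) (by
        rw [card_univ]
        exact (le_max_right _ _).trans hBH.hn)
    exact ⟨⟨t, ht⟩⟩
  obtain ⟨q1, q2, q3, q4, q5, q6, q7, q8, q9⟩ := hN (Fintype.card V)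
    (le_trans (le_max_right _ _) ((le_max_left _ _).trans hBH.hn)) s hBH.s_le hBH.s_ge
  have hBH1 : BHyp n₁ C s ε θ E' A X RT :=
    ⟨(le_max_left _ _).trans ((le_max_left _ _).trans hBH.hn), hBH.s_le, hBH.s_ge, hBH.nl, hBH.dA, hBH.dX, hBH.deg,
      hBH.root, hBH.vert, hBH.pair, hBH.vt⟩
  obtain ⟨hne, hYB⟩ := hP V E' A X RT s θ q1 hBH1
  set yb := yP c E' RT with hyb
  have hn0 : (0 : ℝ) < Fintype.card V := by exact_mod_cast q2
  have hn1 : (1 : ℝ) ≤ Fintype.card V := by exact_mod_cast q2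
  have hs0 : (0 : ℝ) < s := by exact_mod_cast q1
  have hs1 : (1 : ℝ) ≤ s := by exact_mod_cast q1
  have hs2 : (1 : ℝ) ≤ (s : ℝ) ^ 2 := one_le_pow₀ hs1
  have hY1 : YBound c C s B₁ E' RT yb := ybound_mono hYB (by rw [hB₁]; linarith)
  have hYs : YBound c C s (B₁ * (s : ℝ) ^ 2) E' RT yb := by
    refine ybound_mono hY1 ?_
    nlinarith
  have hynn := hYB.nonneg
  -- the numbers
  have hu0 : 0 ≤ (2 * K + (s : ℝ) ^ 2) / Fintype.card V := by positivity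
  have huB : (2 * K + (s : ℝ) ^ 2) / Fintype.card V ≤ B₁ * (s : ℝ) ^ 2 / Fintype.card V := by
    refine div_le_div_of_nonneg_right ?_ hn0.le
    rw [hB₁]
    nlinarith
  have hu1 : (2 * K + (s : ℝ) ^ 2) / Fintype.card V ≤ 1 := by
    refine le_trans ?_ q3
    refine div_le_div_of_nonneg_right ?_ hn0.le
    have : (0 : ℝ) ≤ c := Nat.cast_nonneg _
    nlinarith
  have hinv : ((Fintype.card V : ℝ) ^ (-(9 / 10) * k : ℝ))⁻¹ =
      (Fintype.card V : ℝ) ^ ((9 / 10) * k : ℝ) := by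
    rw [← Real.rpow_neg hn0.le]
    congr 1
    ring
  have hinv0 : 0 ≤ (Fintype.card V : ℝ) ^ ((9 / 10) * k : ℝ) := (Real.rpow_pos_of_pos hn0 _).le
  have hc0 : (0 : ℝ) ≤ c := Nat.cast_nonneg _
  set n : ℕ := Fintype.card V with hndef
  set mA : ℝ := (n : ℝ) ^ ((9 / 10) * k : ℝ) *
    (C₂ * ((s : ℝ) ^ 2) ^ (2 * J) / n + C₂ * (n : ℝ) ^ (-(19 / 20) : ℝ)) ^ k with hmA
  set mF : ℝ := (((n : ℝ) ^ (3 * J * θ))⁻¹) ^ k₂ * (C₂ * ((s : ℝ) ^ 2) ^ J + C₂) ^ k₂ with hmF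
  set mY : ℝ := (C₂ * (1 / s + 1 / n : ℝ) + C₂ * (1 / n : ℝ)) ^ k₂ with hmY
  set mT : ℝ := (((n : ℝ) ^ (-(θ / 2)))⁻¹) ^ k₂ *
    (C₂ * (1 / s + 1 / n + (s : ℝ) ^ 2 / n : ℝ) + C₂ * ((s : ℝ) ^ 2 / n : ℝ)) ^ k₂ with hmT
  set mD : ℝ := (((n : ℝ) ^ (1 - θ / 2) / C₂)⁻¹) ^ k₂ * (C₂ * (n / s : ℝ) + C₂) ^ k₂ with hmD
  have hkJ : k * J ≤ L := by rw [hL]; omega
  have hk2J : k * (2 * J) ≤ L := by rw [hL]; omega
  have hkJ2 : k₂ * J ≤ L := by rw [hL]; omega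
  have hk12 : k₂ * 1 ≤ L := by rw [hL]; omega
  have hok : ∀ i, FamOK (fam c J k k₂ s K θ E' X i) yb L (mm V mA mF mY mT mD i) := by
    rintro (⟨T, T'⟩ | ⟨T, T'⟩ | ⟨T, e⟩ | ⟨T, T'⟩ | e | T | e | e | v)
    · refine grp1 (J := J) (J₁ := J) (B₁ := B₁) (CX := CA) q2 q1 hCA hB₁1 k1 k8 hu0 ?_ ?_ hynn
        LA_card (by omega) ?_ hkJ
      · exact ite_nn (by rw [hinv]; exact hinv0)
      · exact ite_le' (by rw [hinv]) hinv0
      · intro h0
        have hTT : T ≠ T' := by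
          intro e
          exact h0 (if_neg (fun h => h e))
        exact (fA V E' RT s _ _ yb hYs hu0 huB T T' hTT).1
    · refine grp1 (J := J) (J₁ := J) (B₁ := B₁) (CX := CA) q2 q1 hCA hB₁1 k1 k8 hu0 ?_ ?_ hynn
        LA'_card (by omega) ?_ hkJ
      · exact ite_nn (by rw [hinv]; exact hinv0)
      · exact ite_le' (by rw [hinv]) hinv0
      · intro h0
        have hTT : T ≠ T' := by
          intro e
          exact h0 (if_neg (fun h => h e))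
        exact (fA V E' RT s _ _ yb hYs hu0 huB T T' hTT).2
    · refine grp1 (J := J) (J₁ := J) (B₁ := B₁) (CX := CB) q2 q1 hCB hB₁1 k2 k8 hu0 ?_ ?_ hynn
        LB_card (by omega) ?_ hkJ
      · exact ite_nn (by rw [hinv]; exact hinv0)
      · exact ite_le' (by rw [hinv]) hinv0
      · intro h0
        have hTT : e ∉ NW.edg T.1 := by
          intro h1
          exact h0 (if_neg (fun h => h h1))
        exact (fB V E' RT s _ _ yb hYs hu0 huB T e).1 hTT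
    · refine grp1 (J := J) (J₁ := 2 * J) (B₁ := B₁) (CX := CE) q2 q1 hCE hB₁1 k3 k9 hu0 ?_ ?_
        hynn LE_card le_rfl ?_ hk2J
      · rw [hinv]; exact hinv0
      · rw [hinv]
      · intro _
        exact fE V E' RT s _ _ yb hYs hu0 huB T T'
    · refine grpF (J := J) (B₁ := B₁) (CX := CF) hCF hB₁1 k4 k10 hu0 ?_ ?_ ?_ hynn
        LF_card ?_ hkJ2
      · exact inv_nonneg.2 (pow_nonneg (Real.rpow_pos_of_pos hn0 _).le _)
      · exact pow_nonneg (inv_nonneg.2 (Real.rpow_pos_of_pos hn0 _).le) _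
      · rw [inv_pow]
      · intro _
        exact (fF V E' RT s _ _ yb hYs hu0 huB (Classical.arbitrary _) e).2
    · refine grpY (J := J) (B₁ := B₁) (CX := CY) (κ := 2 * K) hCY hB₁1 k5 k11 (by positivity)
        ?_ ?_ hynn LY_card ?_ hkJ2
      · exact ite_nn zero_le_one
      · exact ite_le' le_rfl zero_le_one
      · intro h0
        have hTT : ¬ Disjoint (NW.edg T.1) E' := by
          intro h1
          exact h0 (if_neg (fun h => h h1))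
        refine fY V E' RT s _ _ yb hY1 (by positivity) ?_ T hTT
        exact div_le_div_of_nonneg_right (by rw [hB₁]; linarith) hn0.le
    · refine grpT (J := J) (B₁ := B₁) (CX := CT) hCT hB₁1 k6 k10 (by positivity) ?_ ?_ ?_ ?_
        hynn LT_card ?_ hkJ2
      · exact div_le_div_of_nonneg_right hs2 hn0.le
      · exact ite_nn (inv_nonneg.2 (pow_nonneg (Real.rpow_pos_of_pos hn0 _).le _))
      · exact pow_nonneg (inv_nonneg.2 (Real.rpow_pos_of_pos hn0 _).le) _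
      · exact ite_le' (by rw [inv_pow])
          (pow_nonneg (inv_nonneg.2 (Real.rpow_pos_of_pos hn0 _).le) _)
      · intro h0
        have he : e ∈ E' := by
          by_contra h1
          exact h0 (if_neg h1)
        refine fT V E' RT s _ _ yb hY1 (by positivity) e univ he ?_
        have h1 : (((univ : Finset (Tri V)).filter (fun T => e ∈ NW.edg T.1)).card : ℝ) ≤ n := by
          exact_mod_cast thr e
        rw [mul_one_div, div_le_iff₀ hn0]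
        linarith
    · refine grpT (J := J) (B₁ := B₁) (CX := CT) hCT hB₁1 k6 k10 (by positivity) ?_ ?_ ?_ ?_
        hynn LT_card ?_ hkJ2
      · exact le_rfl
      · exact ite_nn (inv_nonneg.2 (pow_nonneg (Real.rpow_pos_of_pos hn0 _).le _))
      · exact pow_nonneg (inv_nonneg.2 (Real.rpow_pos_of_pos hn0 _).le) _
      · exact ite_le' (by rw [inv_pow])
          (pow_nonneg (inv_nonneg.2 (Real.rpow_pos_of_pos hn0 _).le) _)
      · intro h0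
        have he : e ∈ E' := by
          by_contra h1
          exact h0 (if_neg h1)
        refine fT V E' RT s _ _ yb hY1 (by positivity) e (triV E' X) he ?_
        have h1 := hBH.vt e he
        have h2 : (((triV E' X).filter (fun T => e ∈ NW.edg T.1)).card : ℝ) * (s : ℝ) ^ 2 ≤
            4 * n := by exact_mod_cast h1
        rw [← mul_div_assoc, div_le_iff₀ hn0]
        exact h2
    · refine grpD (B₁ := B₁) (CX := CD) hCD hB₁1 k7 k12 ?_ ?_ ?_ hynn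
        LD_card ?_ hk12
      · exact inv_nonneg.2 (pow_nonneg (div_nonneg (Real.rpow_pos_of_pos hn0 _).le
          (by positivity)) _)
      · exact pow_nonneg (inv_nonneg.2 (div_nonneg (Real.rpow_pos_of_pos hn0 _).le hC₂0.le)) _
      · rw [← inv_pow]
        refine pow_le_pow_left₀ (inv_nonneg.2 (div_nonneg (Real.rpow_pos_of_pos hn0 _).le
          (by positivity))) ?_ _
        refine inv_anti₀ (div_pos (Real.rpow_pos_of_pos hn0 _) hC₂0) ?_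
        refine div_le_div_of_nonneg_left (Real.rpow_pos_of_pos hn0 _).le (by positivity) ?_
        linarith
      · intro _
        exact fD V E' RT s _ yb hY1 v
  have hmA0 : 0 ≤ mA := by
    have : 0 ≤ (n : ℝ) ^ (-(19 / 20) : ℝ) := (Real.rpow_pos_of_pos hn0 _).le
    rw [hmA]
    positivity
  have hmF0 : 0 ≤ mF := by
    have : 0 ≤ (n : ℝ) ^ (3 * J * θ) := (Real.rpow_pos_of_pos hn0 _).le
    rw [hmF]
    positivity
  have hmY0 : 0 ≤ mY := by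
    rw [hmY]
    positivity
  have hmT0 : 0 ≤ mT := by
    have : 0 ≤ (n : ℝ) ^ (-(θ / 2)) := (Real.rpow_pos_of_pos hn0 _).le
    rw [hmT]
    positivity
  have hsum := sum_mm (V := V) (q := 1 / C₂) q2 hmA0 hmF0 hmY0 hmT0
    (mD := mD) (by rw [hmA, ← mul_assoc]; exact q5) (by rw [hmF, ← mul_assoc]; exact q6) q7
    (by rw [hmT, ← mul_assoc]; exact q8) (by rw [hmD, ← mul_assoc]; exact q9)
  have hlt : 9 * (1 / C₂) < 1 / 2 ^ L := by
    have h2L : (0 : ℝ) < 2 ^ L := by positivity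
    rw [mul_one_div, div_lt_div_iff₀ hC₂0 h2L]
    linarith
  have hbsum : ∀ r ∈ RT, ∑ W ∈ (bad V c J).filter (fun W => ∃ h ∈ W, rt c h = r.1),
      ∏ h ∈ W, yb h ≤ 1 / (8 * L) := by
    intro r _
    refine le_trans (fb V E' RT s B₁ yb hY1 r) ?_
    have hL0 : (0 : ℝ) < L := by exact_mod_cast hL1
    rw [le_div_iff₀ (by positivity)]
    calc Cb * B₁ ^ J * (1 / s + 1 / n) * (8 * L) = (8 * L * (Cb * B₁ ^ J)) * (1 / s + 1 / n) := by
          ring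
      _ ≤ C₂ * (1 / s + 1 / n) := mul_le_mul_of_nonneg_right k13 (by positivity)
      _ ≤ 1 := q4
  obtain ⟨hh, m1, m2, m3⟩ := hm L c V E' RT (bad V c J) (Idx V)
    (fun i => (fam c J k k₂ s K θ E' X i).y) (fun i => (fam c J k k₂ s K θ E' X i).e)
    (fun i => (fam c J k k₂ s K θ E' X i).a) (fun i => (fam c J k k₂ s K θ E' X i).k)
    (fun i => (fam c J k k₂ s K θ E' X i).F) hL1 hne
    (fun W hW => ⟨le_trans (bad_card hW).1 (by omega), (bad_card hW).2⟩)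
    (fun i => (hok i).card) (fun i => (hok i).y) (fun i => (hok i).e) (fun i => (hok i).a)
    hbsum (lt_of_le_of_lt (le_trans (sum_le_sum (fun i _ => (hok i).m)) hsum) hlt)
  exact ⟨hh, concl q2 m1 m2 hu1 m3 (fun i => ⟨(hok i).y, (hok i).e, (hok i).a⟩)⟩

end F2
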